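import Mathlib

set_option autoImplicit false

open Filter Topology Metric

namespace Pool.Agent.Results.MP_cc0c1a_nt.AlmostAllIntegers

/-- A configuration: a two-sided infinite word over the alphabet `{0,...,5}`, with the product
topology of the discrete topology. -/
abbrev Config : Type := ℤ → Fin 6

/-- The local rule `f(s,t) = (3 s mod 6) + ⌊3 t / 6⌋`. -/
def localRule (s t : Fin 6) : Fin 6 :=
  ⟨(3 * s.val) % 6 + (3 * t.val) / 6, by omega⟩

/-- The automaton `F_{×3}`. -/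
def Fx3 (x : Config) : Config := fun i => localRule (x i) (x (i + 1))

/-- The right shift `σ⁻¹`. -/
def rightShift (x : Config) : Config := fun i => x (i - 1)

/-- The automaton `F = F_{×3} ∘ F_{×3} ∘ σ⁻¹`. -/
def F (x : Config) : Config := Fx3 (Fx3 (rightShift x))

/-- The finite configuration whose value `∑ x_i 6^(-i)` is the natural number `a`: the base-6
digits of `a`, the units digit at the position `0`. -/
def numConfig (a : ℕ) : Config :=
  fun i => if i ≤ 0 then ⟨a / 6 ^ i.natAbs % 6, Nat.mod_lt _ (by norm_num)⟩ else 0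

/-! ### The configuration of digits of a real number -/

/-- Digit configuration of a nonnegative real number. -/
noncomputable def dig (z : ℝ) : Config :=
  fun i => ⟨⌊(6 : ℝ) ^ i * z⌋₊ % 6, Nat.mod_lt _ (by norm_num)⟩

lemma rightShift_dig (z : ℝ) : rightShift (dig z) = dig (z / 6) := by
  funext i
  unfold rightShift dig
  apply Fin.ext
  simp only
  congr 2
  rw [zpow_sub_one₀ (by norm_num : (6:ℝ) ≠ 0)]
  ring

lemma Fx3_dig (z : ℝ) : Fx3 (dig z) = dig (3 * z) := by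
  funext i
  unfold Fx3 dig localRule
  apply Fin.ext
  simp only
  set u := ⌊(6 : ℝ) ^ (i + 1) * z⌋₊ with hu
  have h1 : ⌊(6 : ℝ) ^ i * z⌋₊ = u / 6 := by
    rw [hu, ← Nat.floor_div_natCast]
    congr 1
    rw [zpow_add_one₀ (by norm_num : (6:ℝ) ≠ 0)]
    push_cast
    ring
  have h2 : ⌊(6 : ℝ) ^ i * (3 * z)⌋₊ = u / 2 := by
    rw [hu, ← Nat.floor_div_natCast]
    congr 1
    rw [zpow_add_one₀ (by norm_num : (6:ℝ) ≠ 0)]
    push_cast
    ring
  rw [h1, h2]
  omega

lemma F_dig (z : ℝ) : F (dig z) = dig (z * (3 / 2)) := by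
  unfold F
  rw [rightShift_dig, Fx3_dig, Fx3_dig]
  congr 1
  ring

lemma iter_F_dig (z : ℝ) (n : ℕ) : F^[n] (dig z) = dig (z * (3 / 2) ^ n) := by
  induction n with
  | zero => simp
  | succ n ih =>
    rw [Function.iterate_succ_apply', ih, F_dig]
    congr 1
    ring

/-- Every word is the word of base-6 digits of a natural number. -/
lemma exists_digits (a : ℕ → Fin 6) (n : ℕ) :
    ∃ N : ℕ, N < 6 ^ n ∧ ∀ k, k < n → N / 6 ^ k % 6 = (a k : ℕ) := by
  induction n with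
  | zero => exact ⟨0, by simp, by intro k hk; omega⟩
  | succ n ih =>
    obtain ⟨N, hN, h⟩ := ih
    refine ⟨N + 6 ^ n * (a n : ℕ), ?_, ?_⟩
    · have := (a n).isLt
      calc N + 6 ^ n * (a n : ℕ) < 6 ^ n + 6 ^ n * (a n : ℕ) := by omega
        _ = 6 ^ n * ((a n : ℕ) + 1) := by ring
        _ ≤ 6 ^ n * 6 := Nat.mul_le_mul_left _ (by omega)
        _ = 6 ^ (n + 1) := by ring
    · intro k hk
      rcases Nat.lt_succ_iff_lt_or_eq.mp hk with hk' | rfl
      · rw [← h k hk']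
        have : 6 ^ n = 6 ^ k * (6 * 6 ^ (n - k - 1)) := by
          rw [← pow_succ', ← pow_add]
          congr 1
          omega
        rw [this, mul_assoc, Nat.add_mul_div_left _ _ (by positivity), mul_assoc,
          Nat.add_mul_mod_self_left]
      · rw [Nat.add_mul_div_left _ _ (by positivity), Nat.div_eq_of_lt hN, zero_add,
          Nat.mod_eq_of_lt (a k).isLt]

lemma floor_zpow_neg (N : ℕ) (k : ℕ) : ⌊(6 : ℝ) ^ (-(k : ℤ)) * N⌋₊ = N / 6 ^ k := by
  have : (6 : ℝ) ^ (-(k : ℤ)) * N = (N : ℝ) / ((6 ^ k : ℕ) : ℝ) := by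
    rw [zpow_neg, zpow_natCast]
    push_cast
    field_simp
  rw [this, Nat.floor_div_natCast, Nat.floor_natCast]

/-- Upper density at most `ε`, in a strong form. -/
def UD (B : Set ℕ) (ε : ℝ) : Prop := ∃ C : ℝ, ∀ X : ℕ, ((B ∩ Set.Iio X).ncard : ℝ) ≤ ε * X + C

lemma UD_mono_set {B B' : Set ℕ} {ε : ℝ} (h : B ⊆ B') (h' : UD B' ε) : UD B ε := by
  obtain ⟨C, hC⟩ := h'
  refine ⟨C, fun X => le_trans ?_ (hC X)⟩
  exact_mod_cast Set.ncard_le_ncard (Set.inter_subset_inter_left _ h)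
    ((Set.finite_Iio _).subset Set.inter_subset_right)

lemma UD_mono {B : Set ℕ} {ε ε' : ℝ} (h : ε ≤ ε') (h' : UD B ε) : UD B ε' := by
  obtain ⟨C, hC⟩ := h'
  refine ⟨C, fun X => le_trans (hC X) ?_⟩
  have : ε * X ≤ ε' * X := mul_le_mul_of_nonneg_right h (Nat.cast_nonneg X)
  linarith

lemma UD_union {B B' : Set ℕ} {ε ε' : ℝ} (h : UD B ε) (h' : UD B' ε') : UD (B ∪ B') (ε + ε') := by
  obtain ⟨C, hC⟩ := h
  obtain ⟨C', hC'⟩ := h'
  refine ⟨C + C', fun X => ?_⟩
  have h1 : ((B ∪ B') ∩ Set.Iio X).ncard ≤ (B ∩ Set.Iio X).ncard + (B' ∩ Set.Iio X).ncard := by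
    rw [Set.union_inter_distrib_right]
    exact Set.ncard_union_le _ _
  have h2 : (((B ∪ B') ∩ Set.Iio X).ncard : ℝ) ≤ (B ∩ Set.Iio X).ncard + (B' ∩ Set.Iio X).ncard := by
    exact_mod_cast h1
  have := hC X
  have := hC' X
  linarith


/-- The circle. -/
abbrev T1 : Type := AddCircle (1 : ℝ)

/-- the character `e(θ)` -/
noncomputable def ch (θ : T1) : ℂ := ((AddCircle.toCircle θ : Circle) : ℂ)

lemma ch_add (θ η : T1) : ch (θ + η) = ch θ * ch η := by
  unfold ch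
  rw [AddCircle.toCircle_add]
  exact Circle.coe_mul _ _

lemma ch_zero : ch 0 = 1 := by
  unfold ch
  rw [AddCircle.toCircle_zero]
  exact Circle.coe_one

lemma norm_ch (θ : T1) : ‖ch θ‖ = 1 := Circle.norm_coe _

lemma ch_neg (θ : T1) : ch (-θ) = (starRingEnd ℂ) (ch θ) := by
  unfold ch
  rw [AddCircle.toCircle_neg]
  exact Circle.coe_inv_eq_conj _

lemma ch_nsmul (n : ℕ) (θ : T1) : ch (n • θ) = ch θ ^ n := by
  induction n with
  | zero => simp [ch_zero]
  | succ n ih => rw [succ_nsmul, ch_add, ih, pow_succ]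

lemma ch_eq_one_iff (θ : T1) : ch θ = 1 ↔ θ = 0 := by
  constructor
  · intro h
    unfold ch at h
    have h1 : (AddCircle.toCircle θ : Circle) = AddCircle.toCircle (0 : T1) := by
      apply Circle.ext
      rw [h, AddCircle.toCircle_zero]
      exact Circle.coe_one.symm
    exact AddCircle.injective_toCircle one_ne_zero h1
  · rintro rfl
    exact ch_zero

/-- Bounded geometric sums. -/
lemma geom_bound {η : T1} (hη : η ≠ 0) (X : ℕ) :
    ‖∑ a ∈ Finset.range X, ch (a • η)‖ ≤ 2 / ‖ch η - 1‖ := by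
  have hne : ch η ≠ 1 := fun h => hη ((ch_eq_one_iff η).mp h)
  have hne' : ch η - 1 ≠ 0 := sub_ne_zero.mpr hne
  have h1 : ∑ a ∈ Finset.range X, ch (a • η) = (ch η ^ X - 1) / (ch η - 1) := by
    rw [← geom_sum_eq hne]
    exact Finset.sum_congr rfl fun a _ => ch_nsmul a η
  rw [h1, norm_div]
  have h2 : ‖ch η ^ X - 1‖ ≤ 2 := by
    calc ‖ch η ^ X - 1‖ ≤ ‖ch η ^ X‖ + ‖(1 : ℂ)‖ := norm_sub_le _ _
      _ = 2 := by rw [norm_pow, norm_ch]; norm_num
  gcongr

/-- Mean square of a trigonometric polynomial along the integers. -/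
lemma mean_square {ι : Type} (s : Finset ι) (c : ι → ℂ) (η : ι → T1) (A : ℝ)
    (hA : ∑ p ∈ (s ×ˢ s).filter (fun p => η p.1 = η p.2), ‖c p.1‖ * ‖c p.2‖ ≤ A) :
    ∃ C : ℝ, ∀ X : ℕ, ∑ a ∈ Finset.range X, ‖∑ i ∈ s, c i * ch (a • η i)‖ ^ 2 ≤ A * X + C := by
  classical
  refine ⟨∑ p ∈ (s ×ˢ s).filter (fun p => ¬ η p.1 = η p.2),
    ‖c p.1‖ * ‖c p.2‖ * (2 / ‖ch (η p.1 - η p.2) - 1‖), fun X => ?_⟩
  have hexp : ∀ a : ℕ, ((‖∑ i ∈ s, c i * ch (a • η i)‖ ^ 2 : ℝ) : ℂ)
      = ∑ p ∈ s ×ˢ s, c p.1 * (starRingEnd ℂ) (c p.2) * ch (a • (η p.1 - η p.2)) := by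
    intro a
    have h1 : ((‖∑ i ∈ s, c i * ch (a • η i)‖ ^ 2 : ℝ) : ℂ)
        = (∑ i ∈ s, c i * ch (a • η i)) * (starRingEnd ℂ) (∑ i ∈ s, c i * ch (a • η i)) := by
      rw [Complex.mul_conj, Complex.normSq_eq_norm_sq]
    rw [h1, map_sum, Finset.sum_mul_sum, ← Finset.sum_product']
    apply Finset.sum_congr rfl
    intro p _
    rw [map_mul, ← ch_neg, smul_sub, sub_eq_add_neg (a • η p.1), ch_add]
    ring
  have hsum : ((∑ a ∈ Finset.range X, ‖∑ i ∈ s, c i * ch (a • η i)‖ ^ 2 : ℝ) : ℂ)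
      = ∑ p ∈ s ×ˢ s, c p.1 * (starRingEnd ℂ) (c p.2) *
          ∑ a ∈ Finset.range X, ch (a • (η p.1 - η p.2)) := by
    push_cast
    have : ∀ a ∈ Finset.range X, ((‖∑ i ∈ s, c i * ch (a • η i)‖ : ℂ)) ^ 2
      = ∑ p ∈ s ×ˢ s, c p.1 * (starRingEnd ℂ) (c p.2) * ch (a • (η p.1 - η p.2)) := by
      intro a _
      rw [← hexp a]
      push_cast
      rfl
    rw [Finset.sum_congr rfl this, Finset.sum_comm]
    apply Finset.sum_congr rfl
    intro p _
    rw [Finset.mul_sum]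
  have hnn : 0 ≤ ∑ a ∈ Finset.range X, ‖∑ i ∈ s, c i * ch (a • η i)‖ ^ 2 := by positivity
  calc ∑ a ∈ Finset.range X, ‖∑ i ∈ s, c i * ch (a • η i)‖ ^ 2
      = ‖((∑ a ∈ Finset.range X, ‖∑ i ∈ s, c i * ch (a • η i)‖ ^ 2 : ℝ) : ℂ)‖ := by
        rw [Complex.norm_real, Real.norm_of_nonneg hnn]
    _ ≤ ∑ p ∈ s ×ˢ s, ‖c p.1 * (starRingEnd ℂ) (c p.2) *
          ∑ a ∈ Finset.range X, ch (a • (η p.1 - η p.2))‖ := by
        rw [hsum]; exact norm_sum_le _ _
    _ = ∑ p ∈ s ×ˢ s, ‖c p.1‖ * ‖c p.2‖ * ‖∑ a ∈ Finset.range X, ch (a • (η p.1 - η p.2))‖ := by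
        apply Finset.sum_congr rfl
        intro p _
        rw [norm_mul, norm_mul, RCLike.norm_conj]
    _ = ∑ p ∈ (s ×ˢ s).filter (fun p => η p.1 = η p.2),
          ‖c p.1‖ * ‖c p.2‖ * ‖∑ a ∈ Finset.range X, ch (a • (η p.1 - η p.2))‖
        + ∑ p ∈ (s ×ˢ s).filter (fun p => ¬ η p.1 = η p.2),
          ‖c p.1‖ * ‖c p.2‖ * ‖∑ a ∈ Finset.range X, ch (a • (η p.1 - η p.2))‖ := by
        rw [Finset.sum_filter_add_sum_filter_not]
    _ ≤ A * X + ∑ p ∈ (s ×ˢ s).filter (fun p => ¬ η p.1 = η p.2),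
          ‖c p.1‖ * ‖c p.2‖ * (2 / ‖ch (η p.1 - η p.2) - 1‖) := by
        apply add_le_add
        · calc ∑ p ∈ (s ×ˢ s).filter (fun p => η p.1 = η p.2),
              ‖c p.1‖ * ‖c p.2‖ * ‖∑ a ∈ Finset.range X, ch (a • (η p.1 - η p.2))‖
              = ∑ p ∈ (s ×ˢ s).filter (fun p => η p.1 = η p.2), ‖c p.1‖ * ‖c p.2‖ * X := by
                apply Finset.sum_congr rfl
                intro p hp
                rw [Finset.mem_filter] at hp
                rw [hp.2, sub_self]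
                congr 1
                have : ∀ a ∈ Finset.range X, ch (a • (0 : T1)) = 1 := by
                  intro a _
                  rw [smul_zero, ch_zero]
                rw [Finset.sum_congr rfl this]
                simp
            _ = (∑ p ∈ (s ×ˢ s).filter (fun p => η p.1 = η p.2), ‖c p.1‖ * ‖c p.2‖) * X := by
                rw [Finset.sum_mul]
            _ ≤ A * X := mul_le_mul_of_nonneg_right hA (Nat.cast_nonneg X)
        · apply Finset.sum_le_sum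
          intro p hp
          rw [Finset.mem_filter] at hp
          apply mul_le_mul_of_nonneg_left _ (by positivity)
          exact geom_bound (sub_ne_zero.mpr hp.2) X

/-- Chebyshev's inequality for the mean square. -/
lemma UD_of_mean_square {B : Set ℕ} {f : ℕ → ℝ} {A C K : ℝ} (hf0 : ∀ a, 0 ≤ f a) (hK : 0 < K)
    (hf : ∀ X : ℕ, ∑ a ∈ Finset.range X, f a ≤ A * X + C) (hB : ∀ a ∈ B, K ≤ f a) :
    UD B (A / K) := by
  classical
  refine ⟨C / K, fun X => ?_⟩
  have h1 : (B ∩ Set.Iio X) = (((Finset.range X).filter (fun a => a ∈ B) : Finset ℕ) : Set ℕ) := by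
    ext a
    simp [and_comm]
  rw [h1, Set.ncard_coe_finset]
  have h2 : (((Finset.range X).filter (fun a => a ∈ B)).card : ℝ) * K ≤ A * X + C := by
    calc (((Finset.range X).filter (fun a => a ∈ B)).card : ℝ) * K
        = ∑ a ∈ (Finset.range X).filter (fun a => a ∈ B), K := by
          rw [Finset.sum_const, nsmul_eq_mul]
      _ ≤ ∑ a ∈ (Finset.range X).filter (fun a => a ∈ B), f a := by
          apply Finset.sum_le_sum
          intro a ha
          exact hB a (Finset.mem_filter.mp ha).2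
      _ ≤ ∑ a ∈ Finset.range X, f a :=
          Finset.sum_le_sum_of_subset_of_nonneg (Finset.filter_subset _ _) (fun a _ _ => hf0 a)
      _ ≤ A * X + C := hf X
  rw [← le_div_iff₀ hK] at h2
  refine h2.trans (le_of_eq ?_)
  field_simp

/-- A Fejér type kernel: nonnegative, with mean one, small away from `0`. -/
lemma fejer_expand (H : ℕ) (φ : T1) :
    ((‖∑ h ∈ Finset.range H, ch (h • φ)‖ ^ 2 : ℝ) : ℂ)
      = H + ∑ p ∈ (Finset.range H ×ˢ Finset.range H).filter (fun p => p.1 ≠ p.2),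
          ch (((p.1 : ℤ) - p.2) • φ) := by
  classical
  have h1 : ((‖∑ h ∈ Finset.range H, ch (h • φ)‖ ^ 2 : ℝ) : ℂ)
        = (∑ h ∈ Finset.range H, ch (h • φ)) * (starRingEnd ℂ) (∑ h ∈ Finset.range H, ch (h • φ)) := by
      rw [Complex.mul_conj, Complex.normSq_eq_norm_sq]
  rw [h1, map_sum, Finset.sum_mul_sum, ← Finset.sum_product']
  have h2 : ∀ p ∈ Finset.range H ×ˢ Finset.range H,
      ch (p.1 • φ) * (starRingEnd ℂ) (ch (p.2 • φ)) = ch (((p.1 : ℤ) - p.2) • φ) := by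
    intro p _
    rw [← ch_neg, ← ch_add]
    congr 1
    rw [sub_smul, sub_eq_add_neg, natCast_zsmul, natCast_zsmul]
  rw [Finset.sum_congr rfl h2,
    ← Finset.sum_filter_add_sum_filter_not (Finset.range H ×ˢ Finset.range H) (fun p => p.1 = p.2)]
  congr 1
  have h3 : ∀ p ∈ (Finset.range H ×ˢ Finset.range H).filter (fun p => p.1 = p.2),
      ch (((p.1 : ℤ) - p.2) • φ) = 1 := by
    intro p hp
    rw [Finset.mem_filter] at hp
    rw [hp.2, sub_self, zero_smul, ch_zero]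
  rw [Finset.sum_congr rfl h3, Finset.sum_const, nsmul_eq_mul, mul_one]
  have h4 : ((Finset.range H ×ˢ Finset.range H).filter (fun p => p.1 = p.2)).card = H := by
    rw [← Finset.diag_eq_filter, Finset.diag_card, Finset.card_range]
  rw [h4]


lemma continuous_ch : Continuous ch := by
  unfold ch
  have h : Continuous (fun z : Circle => (z : ℂ)) := by fun_prop
  exact h.comp AddCircle.continuous_toCircle

/-- The Fejér kernel is small away from `0` for large order. -/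
lemma fejer_small {ρ : ℝ} (hρ : 0 < ρ) : ∃ H : ℕ, 0 < H ∧
    ∀ φ : T1, ρ ≤ ‖φ‖ → ‖∑ h ∈ Finset.range H, ch (h • φ)‖ ^ 2 ≤ H / 2 := by
  set S : Set T1 := {φ | ρ ≤ ‖φ‖} with hS
  have hSc : IsCompact S := (isClosed_le continuous_const continuous_norm).isCompact
  obtain ⟨κ, hκ, hκ2⟩ : ∃ κ : ℝ, 0 < κ ∧ ∀ φ ∈ S, κ ≤ ‖ch φ - 1‖ := by
    rcases S.eq_empty_or_nonempty with hE | hne
    · exact ⟨1, one_pos, fun φ hφ => by rw [hE] at hφ; exact absurd hφ (Set.notMem_empty φ)⟩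
    · obtain ⟨φ0, hφ0, hmin⟩ := hSc.exists_isMinOn hne
        ((continuous_ch.sub continuous_const).norm.continuousOn (s := S))
      refine ⟨‖ch φ0 - 1‖, ?_, fun φ hφ => hmin hφ⟩
      rw [norm_pos_iff, sub_ne_zero]
      intro h
      have h1 := (ch_eq_one_iff φ0).mp h
      rw [h1] at hφ0
      have h2 : ρ ≤ ‖(0 : T1)‖ := hφ0
      rw [norm_zero] at h2
      linarith
  obtain ⟨H, hH⟩ := exists_nat_gt (8 / κ ^ 2)
  have hHpos : (0 : ℝ) < H := lt_trans (by positivity) hH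
  refine ⟨H, by exact_mod_cast hHpos, fun φ hφ => ?_⟩
  have hφ0 : φ ≠ 0 := by
    rintro rfl
    rw [norm_zero] at hφ
    linarith
  have h1 := geom_bound hφ0 H
  have h2 := hκ2 φ hφ
  have h3 : ‖∑ h ∈ Finset.range H, ch (h • φ)‖ ≤ 2 / κ :=
    h1.trans (div_le_div_of_nonneg_left (by norm_num) hκ h2)
  calc ‖∑ h ∈ Finset.range H, ch (h • φ)‖ ^ 2 ≤ (2 / κ) ^ 2 := by gcongr
    _ = 8 / κ ^ 2 / 2 := by ring
    _ ≤ H / 2 := by linarith

lemma finite_zsmul_eq {m : ℤ} (hm : m ≠ 0) (c : T1) : {y : T1 | m • y = c}.Finite := by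
  rcases Set.eq_empty_or_nonempty {y : T1 | m • y = c} with h | ⟨y0, hy0⟩
  · rw [h]; exact Set.finite_empty
  · have h1 : (fun u : T1 => u + y0) '' {u : T1 | m.natAbs • u = 0} ⊇ {y : T1 | m • y = c} := by
      intro y hy
      refine ⟨y - y0, ?_, by simp⟩
      have h2 : m • (y - y0) = 0 := by
        rw [smul_sub, hy, hy0, sub_self]
      rcases Int.natAbs_eq m with h3 | h3
      · rw [h3, natCast_zsmul] at h2
        exact h2
      · rw [h3, neg_smul, natCast_zsmul, neg_eq_zero] at h2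
        exact h2
    exact ((AddCircle.finite_torsion (1 : ℝ) (Int.natAbs_pos.mpr hm)).image _).subset h1

/-- Selection of points without small linear relations. -/
lemma select {Y : Set T1} (hY : Y.Infinite) (H : ℕ) :
    ∃ y : ℕ → T1, (∀ i, y i ∈ Y) ∧ ∀ i i' : ℕ, ∀ m m' : ℤ, m ≠ 0 → m' ≠ 0 → |m| < H → |m'| < H →
      m • y i = m' • y i' → i = i' ∧ m = m' := by
  classical
  set P : T1 → Prop := fun y => y ∈ Y ∧ ∀ d : ℤ, d ≠ 0 → |d| < 2 * H → d • y ≠ 0 with hP
  set r : T1 → T1 → Prop := fun x y => ∀ m m' : ℤ, m ≠ 0 → m' ≠ 0 → |m| < H → |m'| < H →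
    m • x ≠ m' • y with hr
  have hsymm : Std.Symm r := ⟨fun x y h m m' hm hm' h1 h2 heq => h m' m hm' hm h2 h1 heq.symm⟩
  have hex : ∀ s : Finset T1, (∀ x ∈ s, P x) → ∃ y, P y ∧ ∀ x ∈ s, r x y := by
    intro s _
    -- the finite set of forbidden points
    set I : Finset ℤ := Finset.Icc (-(2 * H : ℤ)) (2 * H) with hI
    set Bad : Set T1 := (⋃ d ∈ I.filter (fun d => d ≠ 0), {y : T1 | d • y = 0}) ∪
      (⋃ x ∈ s, ⋃ m ∈ I, ⋃ m' ∈ I.filter (fun d => d ≠ 0), {y : T1 | m' • y = m • x}) with hBad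
    have hBadfin : Bad.Finite := by
      apply Set.Finite.union
      · apply Set.Finite.biUnion (Finset.finite_toSet _)
        intro d hd
        exact finite_zsmul_eq (Finset.mem_filter.mp hd).2 0
      · apply Set.Finite.biUnion (Finset.finite_toSet _)
        intro x _
        apply Set.Finite.biUnion (Finset.finite_toSet _)
        intro m _
        apply Set.Finite.biUnion (Finset.finite_toSet _)
        intro m' hm'
        exact finite_zsmul_eq (Finset.mem_filter.mp hm').2 _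
    obtain ⟨y, hyY, hyBad⟩ := (hY.sdiff hBadfin).nonempty
    refine ⟨y, ⟨hyY, ?_⟩, ?_⟩
    · intro d hd0 hd h0
      apply hyBad
      left
      simp only [Set.mem_iUnion]
      refine ⟨d, ?_, h0⟩
      rw [Finset.mem_filter, hI, Finset.mem_Icc]
      rw [abs_lt] at hd
      exact ⟨⟨by omega, by omega⟩, hd0⟩
    · intro x hx m m' hm hm' h1 h2 heq
      apply hyBad
      right
      simp only [Set.mem_iUnion]
      rw [abs_lt] at h1 h2
      refine ⟨x, hx, m, ?_, m', ?_, heq.symm⟩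
      · rw [hI, Finset.mem_Icc]; omega
      · rw [Finset.mem_filter, hI, Finset.mem_Icc]
        exact ⟨⟨by omega, by omega⟩, hm'⟩
  obtain ⟨y, hy1, hy2⟩ := exists_seq_of_forall_finset_exists' P r hex
  refine ⟨y, fun i => (hy1 i).1, ?_⟩
  intro i i' m m' hm hm' h1 h2 heq
  have hii : i = i' := by
    by_contra hne
    exact hy2 hne m m' hm hm' h1 h2 heq
  subst hii
  refine ⟨rfl, ?_⟩
  by_contra hne
  apply (hy1 i).2 (m - m') (sub_ne_zero.mpr hne)
  · have := abs_sub m m'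
    rw [abs_lt] at h1 h2 ⊢
    omega
  · rw [sub_smul, heq, sub_self]

/-- **Density version of Glasner's theorem.** If `Y` is an infinite subset of the circle, then for
almost all `a` the dilate `a Y` meets a given ball. -/
lemma glasner {Y : Set T1} (hY : Y.Infinite) (θ0 : T1) {ρ : ℝ} (hρ : 0 < ρ) {ε : ℝ} (hε : 0 < ε) :
    UD {a : ℕ | ∀ y ∈ Y, ρ ≤ ‖a • y - θ0‖} ε := by
  classical
  obtain ⟨H, hH0, hH⟩ := fejer_small hρ
  obtain ⟨y, hyY, hy⟩ := select hY H
  obtain ⟨k, hk⟩ := exists_nat_gt (4 * H / ε)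
  have hHR : (0 : ℝ) < H := by exact_mod_cast hH0
  have hkR : (0 : ℝ) < k := lt_trans (by positivity) hk
  set Off : Finset (ℕ × ℕ) := (Finset.range H ×ˢ Finset.range H).filter (fun p => p.1 ≠ p.2) with hOff
  set s : Finset (ℕ × (ℕ × ℕ)) := Finset.range k ×ˢ Off with hs
  set c : ℕ × (ℕ × ℕ) → ℂ := fun q => ch (-(((q.2.1 : ℤ) - q.2.2) • θ0)) / H with hc
  set η : ℕ × (ℕ × ℕ) → T1 := fun q => ((q.2.1 : ℤ) - q.2.2) • y q.1 with hη
  have hcn : ∀ q, ‖c q‖ = 1 / H := by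
    intro q
    rw [hc]
    simp only
    rw [norm_div, norm_ch, Complex.norm_natCast]
  -- resonances
  have hA : ∑ p ∈ (s ×ˢ s).filter (fun p => η p.1 = η p.2), ‖c p.1‖ * ‖c p.2‖ ≤ k * H := by
    have hcard : ((s ×ˢ s).filter (fun p => η p.1 = η p.2)).card ≤ k * (H * H * H) := by
      have h1 : ((s ×ˢ s).filter (fun p => η p.1 = η p.2)).card ≤
          (Finset.range k ×ˢ ((Finset.range H ×ˢ Finset.range H) ×ˢ Finset.range H)).card := by
        apply Finset.card_le_card_of_injOn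
          (fun p => (p.1.1, ((p.1.2.1, p.1.2.2), p.2.2.1)))
        · rintro ⟨⟨i, h, h'⟩, ⟨i', g, g'⟩⟩ hp
          simp only [Finset.coe_filter, Set.mem_ofPred_eq, Finset.mem_product, hs, hOff,
            Finset.mem_filter, Finset.mem_range] at hp
          simp only [Finset.coe_product, Set.mem_prod, Finset.mem_coe, Finset.mem_range]
          tauto
        · rintro ⟨⟨i1, h1, h1'⟩, ⟨i1', g1, g1'⟩⟩ hp1 ⟨⟨i2, h2, h2'⟩, ⟨i2', g2, g2'⟩⟩ hp2 heq
          simp only [Finset.coe_filter, Set.mem_ofPred_eq, Finset.mem_product, hs, hOff,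
            Finset.mem_filter, Finset.mem_range, hη] at hp1 hp2
          simp only [Prod.mk.injEq] at heq
          obtain ⟨⟨⟨hi1, ⟨hh1, hh1'⟩, hne1⟩, hi1', ⟨hg1, hg1'⟩, hne1'⟩, he1⟩ := hp1
          obtain ⟨⟨⟨hi2, ⟨hh2, hh2'⟩, hne2⟩, hi2', ⟨hg2, hg2'⟩, hne2'⟩, he2⟩ := hp2
          have r1 := hy i1 i1' ((h1 : ℤ) - h1') ((g1 : ℤ) - g1') (by omega) (by omega)
            (by rw [abs_lt]; omega) (by rw [abs_lt]; omega) he1
          have r2 := hy i2 i2' ((h2 : ℤ) - h2') ((g2 : ℤ) - g2') (by omega) (by omega)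
            (by rw [abs_lt]; omega) (by rw [abs_lt]; omega) he2
          simp only [Prod.mk.injEq]
          omega
      refine h1.trans (le_of_eq ?_)
      simp only [Finset.card_product, Finset.card_range]
    calc ∑ p ∈ (s ×ˢ s).filter (fun p => η p.1 = η p.2), ‖c p.1‖ * ‖c p.2‖
        = ∑ p ∈ (s ×ˢ s).filter (fun p => η p.1 = η p.2), (1 / (H : ℝ)) * (1 / H) := by
          apply Finset.sum_congr rfl
          intro p _
          rw [hcn, hcn]
      _ = ((s ×ˢ s).filter (fun p => η p.1 = η p.2)).card * ((1 / (H : ℝ)) * (1 / H)) := by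
          rw [Finset.sum_const, nsmul_eq_mul]
      _ ≤ ((k * (H * H * H) : ℕ) : ℝ) * ((1 / (H : ℝ)) * (1 / H)) := by
          apply mul_le_mul_of_nonneg_right _ (by positivity)
          exact_mod_cast hcard
      _ = k * H := by
          push_cast
          field_simp
  obtain ⟨C, hC⟩ := mean_square s c η (k * H) hA
  have hlow : ∀ a ∈ {a : ℕ | ∀ y ∈ Y, ρ ≤ ‖a • y - θ0‖},
      ((k : ℝ) / 2) ^ 2 ≤ ‖∑ i ∈ s, c i * ch (a • η i)‖ ^ 2 := by
    intro a ha
    have hS : ∑ i ∈ s, c i * ch (a • η i)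
        = ((∑ i ∈ Finset.range k,
            (‖∑ h ∈ Finset.range H, ch (h • (a • y i - θ0))‖ ^ 2 / H - 1) : ℝ) : ℂ) := by
      rw [hs, Finset.sum_product]
      push_cast
      apply Finset.sum_congr rfl
      intro i _
      have h1 := fejer_expand H (a • y i - θ0)
      rw [← hOff] at h1
      push_cast at h1
      rw [h1, add_div, div_self (by exact_mod_cast hHR.ne'), add_sub_cancel_left, Finset.sum_div]
      apply Finset.sum_congr rfl
      rintro ⟨h, h'⟩ _
      simp only [hc, hη]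
      rw [div_mul_eq_mul_div, ← ch_add]
      congr 2
      rw [smul_sub, ← smul_comm ((h : ℤ) - h') a (y i)]
      abel
    rw [hS, Complex.norm_real, Real.norm_eq_abs, sq_abs]
    have h2 : ∑ i ∈ Finset.range k,
            (‖∑ h ∈ Finset.range H, ch (h • (a • y i - θ0))‖ ^ 2 / H - 1) ≤ -(k / 2 : ℝ) := by
      calc ∑ i ∈ Finset.range k,
            (‖∑ h ∈ Finset.range H, ch (h • (a • y i - θ0))‖ ^ 2 / H - 1)
          ≤ ∑ i ∈ Finset.range k, (-(1 / 2) : ℝ) := by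
            apply Finset.sum_le_sum
            intro i _
            have h3 := hH (a • y i - θ0) (ha (y i) (hyY i))
            have h4 : ‖∑ h ∈ Finset.range H, ch (h • (a • y i - θ0))‖ ^ 2 / H ≤ 1 / 2 := by
              rw [div_le_iff₀ hHR]; linarith
            linarith
        _ = -(k / 2 : ℝ) := by
            rw [Finset.sum_const, Finset.card_range, nsmul_eq_mul]; ring
    nlinarith
  have hUD := UD_of_mean_square (B := {a : ℕ | ∀ y ∈ Y, ρ ≤ ‖a • y - θ0‖})
    (f := fun a => ‖∑ i ∈ s, c i * ch (a • η i)‖ ^ 2) (fun a => by positivity)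
    (K := ((k : ℝ) / 2) ^ 2) (by positivity) hC hlow
  obtain ⟨C', hC'⟩ := hUD
  refine ⟨C', fun X => (hC' X).trans ?_⟩
  have h5 : (k : ℝ) * H / ((k : ℝ) / 2) ^ 2 ≤ ε := by
    rw [div_lt_iff₀ hε] at hk
    rw [div_le_iff₀ (by positivity)]
    nlinarith
  have h6 : (k : ℝ) * H / ((k : ℝ) / 2) ^ 2 * X ≤ ε * X :=
    mul_le_mul_of_nonneg_right h5 (Nat.cast_nonneg X)
  linarith

lemma exists_lift (x : T1) : ∃ r : ℝ, (r : T1) = x ∧ |r| = ‖x‖ := by
  obtain ⟨t, rfl⟩ := QuotientAddGroup.mk_surjective x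
  refine ⟨t - round t, ?_, ?_⟩
  · rw [AddCircle.coe_sub, sub_eq_self, AddCircle.coe_eq_zero_iff]
    exact ⟨round t, by simp⟩
  · change |t - round t| = ‖(t : T1)‖
    rw [AddCircle.norm_eq]
    simp

/-- Infinitely many limit points. -/
lemma limit_infinite {v : ℕ → T1} (hv : ∀ n, (2 : ℕ) • v (n + 1) = (3 : ℕ) • v n)
    (hinj : Function.Injective v) : {y : T1 | MapClusterPt y atTop v}.Infinite := by
  classical
  intro hfin
  set Y : Set T1 := {y : T1 | MapClusterPt y atTop v} with hY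
  -- separation constant
  obtain ⟨δ0, hδ0, hsep⟩ : ∃ δ0 : ℝ, 0 < δ0 ∧ ∀ y ∈ Y, ∀ y' ∈ Y,
      ‖(2 : ℕ) • y - (3 : ℕ) • y'‖ < δ0 → (2 : ℕ) • y - (3 : ℕ) • y' = 0 := by
    set Dset : Finset T1 := ((hfin.toFinset ×ˢ hfin.toFinset).image
      (fun p => (2 : ℕ) • p.1 - (3 : ℕ) • p.2)).filter (fun d => d ≠ 0) with hD
    rcases Dset.eq_empty_or_nonempty with hE | hne
    · refine ⟨1, one_pos, fun y hy y' hy' _ => ?_⟩
      by_contra hcon
      have : (2 : ℕ) • y - (3 : ℕ) • y' ∈ Dset := by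
        rw [hD, Finset.mem_filter, Finset.mem_image]
        exact ⟨⟨(y, y'), by simp [hy, hy'], rfl⟩, hcon⟩
      rw [hE] at this
      exact absurd this (Finset.notMem_empty _)
    · obtain ⟨d0, hd0, hmin⟩ := Dset.exists_min_image (fun d => ‖d‖) hne
      refine ⟨‖d0‖, norm_pos_iff.mpr (Finset.mem_filter.mp hd0).2, fun y hy y' hy' hlt => ?_⟩
      by_contra hcon
      have : (2 : ℕ) • y - (3 : ℕ) • y' ∈ Dset := by
        rw [hD, Finset.mem_filter, Finset.mem_image]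
        exact ⟨⟨(y, y'), by simp [hy, hy'], rfl⟩, hcon⟩
      have := hmin _ this
      linarith
  set δ : ℝ := min (δ0 / 6) (1 / 6) with hδ
  have hδpos : 0 < δ := by rw [hδ]; positivity
  have hδ1 : 5 * δ < δ0 := by
    have : δ ≤ δ0 / 6 := min_le_left _ _
    linarith
  have hδ2 : 5 * δ < 1 := by
    have : δ ≤ 1 / 6 := min_le_right _ _
    linarith
  -- eventually close to Y
  have hev : ∀ᶠ n in atTop, ∃ y ∈ Y, ‖v n - y‖ < δ := by
    by_contra hcon
    rw [Filter.not_eventually] at hcon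
    set Kc : Set T1 := {x : T1 | ∀ y ∈ Y, δ ≤ ‖x - y‖} with hKc
    have hKclosed : IsClosed Kc := by
      have : Kc = ⋂ y ∈ Y, {x : T1 | δ ≤ ‖x - y‖} := by
        ext x; simp [hKc]
      rw [this]
      apply isClosed_biInter
      intro y _
      exact isClosed_le continuous_const (continuous_id.sub continuous_const).norm
    have hfreq : ∃ᶠ n in atTop, v n ∈ Kc := by
      refine hcon.mono fun n hn => ?_
      intro y hy
      by_contra hlt
      exact hn ⟨y, hy, not_le.mp hlt⟩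
    obtain ⟨y, hyK, hy⟩ := hKclosed.isCompact.exists_mapClusterPt_of_frequently hfreq
    have := hyK y hy
    rw [sub_self, norm_zero] at this
    linarith
  obtain ⟨n0, hn0⟩ := eventually_atTop.mp hev
  choose! y hyY hyd using hn0
  have hrel : ∀ n, n0 ≤ n → (2 : ℕ) • y (n + 1) - (3 : ℕ) • y n = 0 := by
    intro n hn
    apply hsep _ (hyY (n + 1) (by omega)) _ (hyY n hn)
    have h1 : (2 : ℕ) • y (n + 1) - (3 : ℕ) • y n
        = (3 : ℕ) • (v n - y n) - (2 : ℕ) • (v (n + 1) - y (n + 1)) := by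
      rw [smul_sub, smul_sub, hv n]; abel
    rw [h1]
    calc ‖(3 : ℕ) • (v n - y n) - (2 : ℕ) • (v (n + 1) - y (n + 1))‖
        ≤ ‖(3 : ℕ) • (v n - y n)‖ + ‖(2 : ℕ) • (v (n + 1) - y (n + 1))‖ := norm_sub_le _ _
      _ ≤ 3 * ‖v n - y n‖ + 2 * ‖v (n + 1) - y (n + 1)‖ := by
          have e3 := norm_nsmul_le (n := 3) (a := v n - y n)
          have e2 := norm_nsmul_le (n := 2) (a := v (n + 1) - y (n + 1))
          push_cast at e2 e3
          exact add_le_add e3 e2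
      _ < δ0 := by
          have h2 := hyd n hn
          have h3 := hyd (n + 1) (by omega)
          linarith
  choose r hr1 hr2 using fun n => exists_lift (v n - y n)
  have hrstep : ∀ n, n0 ≤ n → r (n + 1) = 3 / 2 * r n := by
    intro n hn
    have h1 : ((2 * r (n + 1) - 3 * r n : ℝ) : T1) = 0 := by
      have e1 : ((2 * r (n + 1) - 3 * r n : ℝ) : T1) = (2 : ℕ) • (r (n + 1) : T1) - (3 : ℕ) • (r n : T1) := by
        rw [AddCircle.coe_sub, ← AddCircle.coe_nsmul, ← AddCircle.coe_nsmul]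
        simp
      rw [e1, hr1, hr1, smul_sub, smul_sub, hv n]
      have h3 := hrel n hn
      calc (3 : ℕ) • v n - (2 : ℕ) • y (n + 1) - ((3 : ℕ) • v n - (3 : ℕ) • y n)
          = -((2 : ℕ) • y (n + 1) - (3 : ℕ) • y n) := by abel
        _ = 0 := by rw [h3, neg_zero]
    rw [AddCircle.coe_eq_zero_iff] at h1
    obtain ⟨m, hm⟩ := h1
    rw [zsmul_eq_mul, mul_one] at hm
    have h2 : |r (n + 1)| < δ := by rw [hr2]; exact hyd (n + 1) (by omega)
    have h3 : |r n| < δ := by rw [hr2]; exact hyd n hn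
    have h4 : |(m : ℝ)| < 1 := by
      rw [hm]
      rw [abs_lt] at h2 h3 ⊢
      constructor <;> linarith [h2.1, h2.2, h3.1, h3.2]
    have h5 : |m| < 1 := by exact_mod_cast h4
    have h6 : m = 0 := Int.abs_lt_one_iff.mp h5
    rw [h6] at hm
    push_cast at hm
    linarith
  have hrpow : ∀ k, r (n0 + k) = (3 / 2) ^ k * r n0 := by
    intro k
    induction k with
    | zero => simp
    | succ k ih =>
      rw [← add_assoc, hrstep (n0 + k) (by omega), ih, pow_succ]; ring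
  have hr0 : r n0 = 0 := by
    by_contra hne
    have hpos : 0 < |r n0| := abs_pos.mpr hne
    obtain ⟨k, hk⟩ := pow_unbounded_of_one_lt (δ / |r n0|) (show (1 : ℝ) < 3 / 2 by norm_num)
    rw [div_lt_iff₀ hpos] at hk
    have h1 : |r (n0 + k)| < δ := by rw [hr2]; exact hyd (n0 + k) (by omega)
    rw [hrpow, abs_mul, abs_of_pos (by positivity)] at h1
    linarith
  have hvY : ∀ k, v (n0 + k) ∈ Y := by
    intro k
    have h1 : r (n0 + k) = 0 := by rw [hrpow, hr0, mul_zero]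
    have h2 := hr1 (n0 + k)
    rw [h1, AddCircle.coe_zero] at h2
    have h3 : v (n0 + k) = y (n0 + k) := (sub_eq_zero.mp h2.symm)
    rw [h3]
    exact hyY _ (by omega)
  have hinf : (Set.range fun k => v (n0 + k)).Infinite := by
    apply Set.infinite_range_of_injective
    intro a b hab
    have := hinj hab
    omega
  exact hinf (hfin.subset (by rintro _ ⟨k, rfl⟩; exact hvY k))


/-! ### Assembling -/

lemma numConfig_eq_dig (a : ℕ) : numConfig a = dig (a : ℝ) := by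
  funext i
  apply Fin.ext
  unfold numConfig dig
  rcases le_or_gt i 0 with hi | hi
  · rw [if_pos hi]
    simp only
    have hi2 : i = -(i.natAbs : ℤ) := by omega
    have h := floor_zpow_neg a i.natAbs
    rw [← hi2] at h
    rw [h]
  · rw [if_neg (not_le.mpr hi)]
    simp only
    obtain ⟨k, hk⟩ : ∃ k : ℕ, i = (k : ℤ) + 1 := ⟨(i - 1).toNat, by omega⟩
    rw [hk]
    have : (6 : ℝ) ^ ((k : ℤ) + 1) * a = ((6 * (6 ^ k * a) : ℕ) : ℝ) := by
      rw [zpow_add_one₀ (by norm_num : (6:ℝ) ≠ 0), zpow_natCast]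
      push_cast
      ring
    rw [this, Nat.floor_natCast, Nat.mul_mod_right]
    rfl

/-- The orbit of `6 ^ (-(L+1))` on the circle. -/
noncomputable def v (L : ℕ) (n : ℕ) : T1 := (((3 / 2) ^ n / 6 ^ (L + 1) : ℝ) : T1)

lemma v_step (L n : ℕ) : (2 : ℕ) • v L (n + 1) = (3 : ℕ) • v L n := by
  unfold v
  rw [← AddCircle.coe_nsmul, ← AddCircle.coe_nsmul]
  congr 1
  simp only [nsmul_eq_mul]
  push_cast
  ring

lemma v_injective (L : ℕ) : Function.Injective (v L) := by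
  have key : ∀ n m : ℕ, n < m → v L n ≠ v L m := by
    intro n m hnm heq
    unfold v at heq
    rw [← sub_eq_zero, ← AddCircle.coe_sub, AddCircle.coe_eq_zero_iff] at heq
    obtain ⟨k, hk⟩ := heq
    rw [zsmul_eq_mul, mul_one] at hk
    have h6 : (6 : ℝ) ^ (L + 1) ≠ 0 := by positivity
    have h1 : (k : ℝ) * 6 ^ (L + 1) = (3 / 2) ^ n - (3 / 2) ^ m := by
      rw [hk]; field_simp
    have h2 : (3 : ℝ) ^ m = 3 ^ n * 2 ^ (m - n) - k * 6 ^ (L + 1) * 2 ^ m := by
      rw [h1, sub_mul, div_pow, div_pow]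
      have e1 : (2 : ℝ) ^ m = 2 ^ n * 2 ^ (m - n) := by rw [← pow_add]; congr 1; omega
      have e2 : (3 : ℝ) ^ m / 2 ^ m * 2 ^ m = 3 ^ m := by field_simp
      rw [e2, e1]
      field_simp
      ring
    have h3 : (3 : ℤ) ^ m = 3 ^ n * 2 ^ (m - n) - k * 6 ^ (L + 1) * 2 ^ m := by exact_mod_cast h2
    have h4 : (2 : ℤ) ∣ 3 ^ m := by
      rw [h3]
      apply dvd_sub
      · exact Dvd.dvd.mul_left (dvd_pow_self 2 (by omega)) _
      · exact Dvd.dvd.mul_left (dvd_pow_self 2 (by omega)) _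
    have h5 := Int.prime_two.dvd_of_dvd_pow h4
    norm_num at h5
  intro n m h
  rcases lt_trichotomy n m with h1 | h1 | h1
  · exact absurd h (key n m h1)
  · exact h1
  · exact absurd h.symm (key m n h1)

/-- Closeness on the circle gives the window. -/
lemma window_of_close {L a n W : ℕ} (hW : W < 6 ^ (2 * L + 1))
    (h : ‖a • v L n - (((W + 1 / 2) / 6 ^ (2 * L + 1) : ℝ) : T1)‖ < 1 / (2 * 6 ^ (2 * L + 1))) :
    ⌊(6 : ℝ) ^ L * (a * (3 / 2) ^ n)⌋₊ % 6 ^ (2 * L + 1) = W := by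
  set K : ℕ := 6 ^ (2 * L + 1) with hK
  have hKR : (0 : ℝ) < K := by rw [hK]; positivity
  have hKe : (K : ℝ) = 6 ^ (2 * L + 1) := by rw [hK]; push_cast; rfl
  rw [← hKe] at h
  set t : ℝ := a * (3 / 2) ^ n / 6 ^ (L + 1) with ht
  have ht0 : 0 ≤ t := by positivity
  have h1 : a • v L n - (((W + 1 / 2) / K : ℝ) : T1) = ((t - (W + 1 / 2) / K : ℝ) : T1) := by
    unfold v
    rw [← AddCircle.coe_nsmul, ← AddCircle.coe_sub]
    congr 2
    rw [nsmul_eq_mul, ht]
    ring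
  rw [h1, AddCircle.norm_eq] at h
  simp only [inv_one, one_mul, mul_one] at h
  set m : ℤ := round (t - (W + 1 / 2) / K) with hm
  rw [abs_lt] at h
  have e1 : ((W : ℝ) + 1 / 2) / K = W / K + 1 / (2 * K) := by field_simp
  have e2 : (1 : ℝ) / (2 * K) + 1 / (2 * K) = 1 / K := by field_simp; norm_num
  have h2 : (W : ℝ) / K < t - m := by linarith [h.1]
  have h3 : t - m < W / K + 1 / K := by linarith [h.2]
  have hWK : (W : ℝ) / K + 1 / K ≤ 1 := by
    rw [← add_div, div_le_one hKR]; exact_mod_cast hW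
  have hm0 : 0 ≤ m := by
    have h4 : (-1 : ℝ) < m := by linarith
    have h5 : (-1 : ℤ) < m := by exact_mod_cast h4
    omega
  obtain ⟨m', hm'⟩ : ∃ m' : ℕ, m = m' := ⟨m.toNat, (Int.toNat_of_nonneg hm0).symm⟩
  rw [hm'] at h2 h3
  push_cast at h2 h3
  have hKt : (6 : ℝ) ^ L * (a * (3 / 2) ^ n) = K * t := by
    rw [ht, hKe, show 2 * L + 1 = L + (L + 1) by ring, pow_add]
    field_simp
  have hfl : ⌊(6 : ℝ) ^ L * (a * (3 / 2) ^ n)⌋₊ = W + K * m' := by
    rw [Nat.floor_eq_iff (by positivity), hKt]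
    rw [div_lt_iff₀ hKR] at h2
    rw [← add_div, lt_div_iff₀ hKR] at h3
    push_cast
    constructor <;> linarith
  rw [hfl, Nat.add_mul_mod_self_left, Nat.mod_eq_of_lt hW]

lemma bad_UD (L : ℕ) (w : Set.Icc (-(L : ℤ)) L → Fin 6) (ε : ℝ) (hε : 0 < ε) :
    UD {a : ℕ | ¬ {n : ℕ | ∀ i : Set.Icc (-(L : ℤ)) L, F^[n] (numConfig a) i = w i}.Infinite} ε := by
  obtain ⟨W, hW, hWd⟩ := exists_digits
    (fun k => if h : ((L : ℤ) - k) ∈ Set.Icc (-(L : ℤ)) L then w ⟨(L : ℤ) - k, h⟩ else 0) (2 * L + 1)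
  set Y : Set T1 := {y : T1 | MapClusterPt y atTop (v L)} with hY
  have hYinf : Y.Infinite := limit_infinite (v_step L) (v_injective L)
  set θ0 : T1 := (((W + 1 / 2) / 6 ^ (2 * L + 1) : ℝ) : T1) with hθ0
  have hρ : (0 : ℝ) < 1 / (2 * 6 ^ (2 * L + 1)) := by positivity
  refine UD_mono_set (fun a ha => ?_) (glasner hYinf θ0 hρ hε)
  intro y hy
  by_contra hcon
  rw [not_le] at hcon
  apply ha
  -- the window is seen infinitely often
  have hopen : IsOpen {x : T1 | ‖a • x - θ0‖ < 1 / (2 * 6 ^ (2 * L + 1))} := by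
    apply isOpen_lt _ continuous_const
    fun_prop
  have hfreq : ∃ᶠ n in atTop, v L n ∈ {x : T1 | ‖a • x - θ0‖ < 1 / (2 * 6 ^ (2 * L + 1))} :=
    (mapClusterPt_iff_frequently.mp hy) _ (hopen.mem_nhds hcon)
  rw [Nat.frequently_atTop_iff_infinite] at hfreq
  refine hfreq.mono fun n hn => ?_
  have hwin := window_of_close hW hn
  intro i
  obtain ⟨i, hi⟩ := i
  rw [Set.mem_Icc] at hi
  rw [numConfig_eq_dig, iter_F_dig]
  apply Fin.ext
  unfold dig
  simp only
  set k : ℕ := ((L : ℤ) - i).toNat with hk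
  have hkL : k < 2 * L + 1 := by omega
  have h1 : ⌊(6 : ℝ) ^ i * (a * (3 / 2) ^ n)⌋₊ = ⌊(6 : ℝ) ^ L * (a * (3 / 2) ^ n)⌋₊ / 6 ^ k := by
    have h2 : (6 : ℝ) ^ i * (a * (3 / 2) ^ n) = (6 : ℝ) ^ L * (a * (3 / 2) ^ n) / ((6 ^ k : ℕ) : ℝ) := by
      have hi' : i = L - k := by omega
      rw [hi', zpow_sub₀ (by norm_num : (6 : ℝ) ≠ 0), zpow_natCast, zpow_natCast]
      push_cast
      ring
    rw [h2, Nat.floor_div_natCast]
  have h3 : (6 : ℕ) ^ (2 * L + 1) = 6 ^ k * 6 * 6 ^ (2 * L - k) := by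
    rw [← pow_succ, ← pow_add]
    congr 1
    omega
  have hmem : ((L : ℤ) - k) ∈ Set.Icc (-(L : ℤ)) L := by
    rw [Set.mem_Icc]; omega
  have h4 := hWd k hkL
  rw [dif_pos hmem] at h4
  have h5 : (⟨(L : ℤ) - k, hmem⟩ : Set.Icc (-(L : ℤ)) L) = ⟨i, by rw [Set.mem_Icc]; exact hi⟩ := by
    apply Subtype.ext
    simp only
    omega
  rw [h5] at h4
  rw [h1, ← h4, ← hwin]
  rw [← Nat.mod_mul_right_div_self, ← Nat.mod_mul_right_div_self (_ % 6 ^ (2 * L + 1)), h3,
    Nat.mod_mul_right_mod]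

lemma UD_iUnion {ι : Type} (s : Finset ι) (B : ι → Set ℕ) (ε : ℝ)
    (h : ∀ w, UD (B w) ε) : UD (⋃ w ∈ s, B w) (s.card * ε) := by
  classical
  induction s using Finset.induction_on with
  | empty => exact ⟨0, fun X => by simp⟩
  | insert a s ha ih =>
    rw [Finset.set_biUnion_insert, Finset.card_insert_of_notMem ha]
    have h1 := UD_union (h a) ih
    have e : ((s.card + 1 : ℕ) : ℝ) * ε = ε + s.card * ε := by push_cast; ring
    rw [e]
    exact h1

/-- **Main theorem.** For every `L`, the set of natural numbers `a` such that every word is shown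
at the positions `-L, ..., L` by infinitely many configurations of the orbit of the finite
configuration with value `a` has natural density one. -/
theorem result (L : ℕ) :
    Tendsto (fun X : ℕ =>
      (Set.ncard {a : ℕ | a < X ∧ ∀ w : Set.Icc (-(L : ℤ)) L → Fin 6,
        {n : ℕ | ∀ i : Set.Icc (-(L : ℤ)) L, F^[n] (numConfig a) i = w i}.Infinite} : ℝ) / X)
      atTop (𝓝 1) := by
  classical
  set G : ℕ → Set ℕ := fun X => {a : ℕ | a < X ∧ ∀ w : Set.Icc (-(L : ℤ)) L → Fin 6,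
        {n : ℕ | ∀ i : Set.Icc (-(L : ℤ)) L, F^[n] (numConfig a) i = w i}.Infinite} with hG
  set B : (Set.Icc (-(L : ℤ)) L → Fin 6) → Set ℕ := fun w =>
    {a : ℕ | ¬ {n : ℕ | ∀ i : Set.Icc (-(L : ℤ)) L, F^[n] (numConfig a) i = w i}.Infinite} with hB
  set Bad : Set ℕ := ⋃ w ∈ (Finset.univ : Finset (Set.Icc (-(L : ℤ)) L → Fin 6)), B w with hBad
  have hsplit : ∀ X : ℕ, G X = Set.Iio X \ (Bad ∩ Set.Iio X) := by
    intro X
    ext a
    simp only [hG, hBad, hB, Set.mem_ofPred_eq, Set.mem_sdiff, Set.mem_inter_iff, Set.mem_iUnion,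
      Finset.mem_univ, exists_prop, true_and, not_and, Set.mem_Iio]
    constructor
    · rintro ⟨h1, h2⟩
      refine ⟨h1, fun h3 => ?_⟩
      obtain ⟨w, hw⟩ := h3
      exact absurd (h2 w) hw
    · rintro ⟨h1, h2⟩
      refine ⟨h1, fun w => ?_⟩
      by_contra hcon
      exact h2 ⟨w, hcon⟩ h1
  have hcard : ∀ X : ℕ, ((G X).ncard : ℝ) = X - (Bad ∩ Set.Iio X).ncard := by
    intro X
    rw [hsplit X]
    have h1 := Set.ncard_sdiff_add_ncard_of_subset
      (Set.inter_subset_right : (Bad ∩ Set.Iio X) ⊆ Set.Iio X) (Set.finite_Iio X)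
    rw [Set.ncard_Iio_nat] at h1
    have h2 : (((Set.Iio X \ (Bad ∩ Set.Iio X)).ncard : ℕ) : ℝ) +
        ((Bad ∩ Set.Iio X).ncard : ℝ) = X := by exact_mod_cast h1
    linarith
  change Tendsto (fun X : ℕ => ((G X).ncard : ℝ) / X) atTop (𝓝 1)
  rw [Metric.tendsto_atTop]
  intro η hη
  set m : ℕ := (Finset.univ : Finset (Set.Icc (-(L : ℤ)) L → Fin 6)).card with hm
  set ε : ℝ := η / (2 * (m + 1)) with hεdef
  have hε : 0 < ε := by positivity
  obtain ⟨C, hC⟩ := UD_iUnion (Finset.univ : Finset (Set.Icc (-(L : ℤ)) L → Fin 6)) B ε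
    (fun w => bad_UD L w ε hε)
  obtain ⟨X0, hX0⟩ := exists_nat_gt (|C| / (η / 4))
  refine ⟨X0 + 1, fun X hX => ?_⟩
  have hXpos : (0 : ℝ) < X := by exact_mod_cast (by omega : 0 < X)
  have h1 := hC X
  rw [Real.dist_eq, hcard X, sub_div, div_self hXpos.ne', sub_sub_cancel_left, abs_neg, abs_of_nonneg (by positivity)]
  rw [div_lt_iff₀ hXpos]
  have hmε : (m : ℝ) * ε ≤ η / 2 := by
    rw [hεdef]
    rw [mul_div_assoc', div_le_div_iff₀ (by positivity) (by norm_num)]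
    nlinarith [Nat.cast_nonneg (α := ℝ) m]
  have hCX : C ≤ η / 4 * X := by
    have h2 : |C| / (η / 4) < X := lt_of_lt_of_le hX0 (by exact_mod_cast (by omega : X0 ≤ X))
    rw [div_lt_iff₀ (by positivity)] at h2
    have := le_abs_self C
    linarith
  have h3 : (m : ℝ) * ε * X ≤ η / 2 * X :=
    mul_le_mul_of_nonneg_right hmε hXpos.le
  calc ((Bad ∩ Set.Iio X).ncard : ℝ) ≤ m * ε * X + C := h1
    _ ≤ η / 2 * X + η / 4 * X := by linarith
    _ < η * X := by nlinarith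

end Pool.Agent.Results.MP_cc0c1a_nt.AlmostAllIntegers
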