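import Mathlib

set_option autoImplicit false

open MeasureTheory Filter Topology Metric

namespace Pool.Agent.Results.MP_cc0c1a_nt.AlmostAllPositions

/-- A configuration: a two-sided infinite word over the alphabet `{0,...,5}`, with the product
topology of the discrete topology. -/
abbrev Config : Type := ℤ → Fin 6

/-- The local rule `f(s,t) = (3 s mod 6) + ⌊3 t / 6⌋`. -/
def localRule (s t : Fin 6) : Fin 6 :=
  ⟨(3 * s.val) % 6 + (3 * t.val) / 6, by omega⟩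

/-- The automaton `F_{×3}`. -/
def Fx3 (x : Config) : Config := fun i => localRule (x i) (x (i + 1))

/-- The right shift `σ⁻¹`. -/
def rightShift (x : Config) : Config := fun i => x (i - 1)

/-- The automaton `F = F_{×3} ∘ F_{×3} ∘ σ⁻¹`. -/
def F (x : Config) : Config := Fx3 (Fx3 (rightShift x))

/-- Finite configurations: only finitely many nonzero digits. -/
def IsFin (x : Config) : Prop := {i : ℤ | x i ≠ 0}.Finite

/-- The forward orbit of a configuration. -/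
def orbit (x : Config) : Set Config := Set.range (fun n : ℕ => F^[n] x)

/-- The configuration `y` shows the word `w` of length `ℓ` starting at the position `j`. -/
def Shows {ℓ : ℕ} (y : Config) (j : ℤ) (w : Fin ℓ → Fin 6) : Prop := ∀ i : Fin ℓ, y (j + i) = w i

/-! ### The configuration of digits of a real number -/

/-- Digit configuration of a nonnegative real number. -/
noncomputable def dig (z : ℝ) : Config :=
  fun i => ⟨⌊(6 : ℝ) ^ i * z⌋₊ % 6, Nat.mod_lt _ (by norm_num)⟩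

lemma rightShift_dig (z : ℝ) : rightShift (dig z) = dig (z / 6) := by
  funext i
  unfold rightShift dig
  apply Fin.ext
  simp only
  congr 2
  rw [zpow_sub_one₀ (by norm_num : (6:ℝ) ≠ 0)]
  ring

lemma Fx3_dig (z : ℝ) : Fx3 (dig z) = dig (3 * z) := by
  funext i
  unfold Fx3 dig localRule
  apply Fin.ext
  simp only
  set u := ⌊(6 : ℝ) ^ (i + 1) * z⌋₊ with hu
  have h1 : ⌊(6 : ℝ) ^ i * z⌋₊ = u / 6 := by
    rw [hu, ← Nat.floor_div_natCast]
    congr 1
    rw [zpow_add_one₀ (by norm_num : (6:ℝ) ≠ 0)]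
    push_cast
    ring
  have h2 : ⌊(6 : ℝ) ^ i * (3 * z)⌋₊ = u / 2 := by
    rw [hu, ← Nat.floor_div_natCast]
    congr 1
    rw [zpow_add_one₀ (by norm_num : (6:ℝ) ≠ 0)]
    push_cast
    ring
  rw [h1, h2]
  omega

lemma F_dig (z : ℝ) : F (dig z) = dig (z * (3 / 2)) := by
  unfold F
  rw [rightShift_dig, Fx3_dig, Fx3_dig]
  congr 1
  ring

lemma iter_F_dig (z : ℝ) (n : ℕ) : F^[n] (dig z) = dig (z * (3 / 2) ^ n) := by
  induction n with
  | zero => simp
  | succ n ih =>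
    rw [Function.iterate_succ_apply', ih, F_dig]
    congr 1
    ring

/-- Every word is the word of base-6 digits of a natural number. -/
lemma exists_digits (a : ℕ → Fin 6) (n : ℕ) :
    ∃ N : ℕ, N < 6 ^ n ∧ ∀ k, k < n → N / 6 ^ k % 6 = (a k : ℕ) := by
  induction n with
  | zero => exact ⟨0, by simp, by intro k hk; omega⟩
  | succ n ih =>
    obtain ⟨N, hN, h⟩ := ih
    refine ⟨N + 6 ^ n * (a n : ℕ), ?_, ?_⟩
    · have := (a n).isLt
      calc N + 6 ^ n * (a n : ℕ) < 6 ^ n + 6 ^ n * (a n : ℕ) := by omega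
        _ = 6 ^ n * ((a n : ℕ) + 1) := by ring
        _ ≤ 6 ^ n * 6 := Nat.mul_le_mul_left _ (by omega)
        _ = 6 ^ (n + 1) := by ring
    · intro k hk
      rcases Nat.lt_succ_iff_lt_or_eq.mp hk with hk' | rfl
      · rw [← h k hk']
        have : 6 ^ n = 6 ^ k * (6 * 6 ^ (n - k - 1)) := by
          rw [← pow_succ', ← pow_add]
          congr 1
          omega
        rw [this, mul_assoc, Nat.add_mul_div_left _ _ (by positivity), mul_assoc,
          Nat.add_mul_mod_self_left]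
      · rw [Nat.add_mul_div_left _ _ (by positivity), Nat.div_eq_of_lt hN, zero_add,
          Nat.mod_eq_of_lt (a k).isLt]

lemma floor_zpow_neg (N : ℕ) (k : ℕ) : ⌊(6 : ℝ) ^ (-(k : ℤ)) * N⌋₊ = N / 6 ^ k := by
  have : (6 : ℝ) ^ (-(k : ℤ)) * N = (N : ℝ) / ((6 ^ k : ℕ) : ℝ) := by
    rw [zpow_neg, zpow_natCast]
    push_cast
    field_simp
  rw [this, Nat.floor_div_natCast, Nat.floor_natCast]

/-- Every finite configuration is the digit configuration of some `N / 6 ^ r`. -/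
lemma fin_eq_dig {x : Config} (hx : IsFin x) : ∃ N r : ℕ, x = dig ((N : ℝ) / 6 ^ r) := by
  obtain ⟨B, hB⟩ : ∃ B : ℕ, ∀ i : ℤ, x i ≠ 0 → |i| ≤ B := by
    obtain ⟨b, hb⟩ := (hx.image (fun i : ℤ => |i|)).bddAbove
    refine ⟨b.toNat, fun i hi => ?_⟩
    have : |i| ≤ b := hb ⟨i, hi, rfl⟩
    have h2 := Int.self_le_toNat b
    omega
  obtain ⟨N, hN, h⟩ := exists_digits (fun k => x ((B : ℤ) - k)) (2 * B + 1)
  refine ⟨N, B, ?_⟩
  funext i
  apply Fin.ext
  unfold dig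
  simp only
  have hre : (6 : ℝ) ^ i * ((N : ℝ) / 6 ^ B) = (6 : ℝ) ^ (i - B) * N := by
    rw [zpow_sub₀ (by norm_num : (6:ℝ) ≠ 0), zpow_natCast]
    ring
  rw [hre]
  rcases le_or_gt i B with hi | hi
  · obtain ⟨k, hk⟩ : ∃ k : ℕ, (B : ℤ) - i = k := ⟨((B : ℤ) - i).toNat, by omega⟩
    have hi' : i - B = -(k : ℤ) := by omega
    rw [hi', floor_zpow_neg]
    rcases lt_or_ge k (2 * B + 1) with hk2 | hk2
    · rw [h k hk2]
      congr 2
      omega
    · have h0 : x i = 0 := by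
        by_contra hne
        have := hB i hne
        rw [abs_le] at this
        omega
      rw [h0, Nat.div_eq_of_lt (lt_of_lt_of_le hN (Nat.pow_le_pow_right (by norm_num) hk2))]
      rfl
  · have h0 : x i = 0 := by
      by_contra hne
      have := hB i hne
      rw [abs_le] at this
      omega
    obtain ⟨k, hk⟩ : ∃ k : ℕ, i - (B : ℤ) = (k : ℤ) + 1 := ⟨(i - (B : ℤ) - 1).toNat, by omega⟩
    rw [hk, h0]
    have : (6 : ℝ) ^ ((k : ℤ) + 1) * N = ((6 * (6 ^ k * N) : ℕ) : ℝ) := by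
      rw [zpow_add_one₀ (by norm_num : (6:ℝ) ≠ 0), zpow_natCast]
      push_cast
      ring
    rw [this, Nat.floor_natCast, Nat.mul_mod_right]
    rfl



/-- Abstract hitting lemma. -/
lemma window_hit {R D K g c W : ℕ} (hR : 0 < R) (hRD : R ≤ D) (hc : ¬ 2 ∣ c)
    (hmod : D * K = R * 2 ^ g) (hW : W < K) (Z : ℕ) :
    ∃ t, t < 2 ^ g ∧ ((Z + R * c * t) / D) % K = W := by
  have hD : 0 < D := lt_of_lt_of_le hR hRD
  set r : ℕ := (Z + W * D * (R - 1)) % R with hr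
  have hrR : r < R := Nat.mod_lt _ hR
  set v : ℕ := W * D + r with hv
  have hvZ : v ≡ Z [MOD R] := by
    have h1 : v ≡ W * D + (Z + W * D * (R - 1)) [MOD R] := by
      rw [hv, hr]
      exact Nat.ModEq.add_left _ (Nat.mod_modEq _ _)
    have h2 : W * D + (Z + W * D * (R - 1)) = Z + R * (W * D) := by
      obtain ⟨R', hR'⟩ : ∃ R', R = R' + 1 := ⟨R - 1, by omega⟩
      rw [hR']
      simp only [Nat.add_sub_cancel]
      ring
    rw [h2] at h1
    exact h1.trans (by simp [Nat.ModEq])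
  obtain ⟨s, hs⟩ : (R : ℤ) ∣ (v : ℤ) - Z := (Nat.modEq_iff_dvd.mp hvZ.symm)
  have hcop : IsCoprime (c : ℤ) ((2 : ℤ) ^ g) := by
    apply IsCoprime.pow_right
    have h2 : Nat.Coprime c 2 :=
      ((Nat.Prime.coprime_iff_not_dvd Nat.prime_two).mpr hc).symm
    have h3 := Nat.isCoprime_iff_coprime.mpr h2
    exact_mod_cast h3
  obtain ⟨u, w, huw⟩ := hcop
  set t : ℕ := ((s * u) % (2 : ℤ) ^ g).toNat with ht
  have h2pos : (0 : ℤ) < 2 ^ g := by positivity
  have htnn : (0 : ℤ) ≤ (s * u) % (2 : ℤ) ^ g := Int.emod_nonneg _ h2pos.ne'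
  have htlt : (s * u) % (2 : ℤ) ^ g < (2 : ℤ) ^ g := Int.emod_lt_of_pos _ h2pos
  have htc : (t : ℤ) = (s * u) % (2 : ℤ) ^ g := by
    rw [ht]; exact Int.toNat_of_nonneg htnn
  refine ⟨t, ?_, ?_⟩
  · have : (t : ℤ) < ((2 ^ g : ℕ) : ℤ) := by rw [htc]; push_cast; exact htlt
    exact_mod_cast this
  · have hcong : Z + R * c * t ≡ v [MOD (R * 2 ^ g)] := by
      rw [Nat.modEq_iff_dvd]
      push_cast
      obtain ⟨q, hq⟩ : (2 : ℤ) ^ g ∣ s * u - t := by
        rw [htc]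
        exact Int.dvd_self_sub_emod
      have hv' : (v : ℤ) = Z + R * s := by linarith
      have : (v : ℤ) - (Z + R * c * t) = R * 2 ^ g * (s * w + c * q) := by
        rw [hv']
        have h1 : (t : ℤ) = s * u - 2 ^ g * q := by linarith
        rw [h1]
        have h2 : s = s * (u * c + w * 2 ^ g) := by rw [huw]; ring
        have h3 : (R : ℤ) * s = R * (s * (u * c + w * 2 ^ g)) := by rw [← h2]
        linear_combination h3
      exact ⟨_, this⟩
    rw [← Nat.mod_mul_right_div_self, hmod, hcong, ← hmod, Nat.mod_mul_right_div_self]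
    have : v / D = W := by
      rw [hv, Nat.div_eq_iff hD]
      constructor
      · omega
      · omega
    rw [this, Nat.mod_eq_of_lt hW]

/-- Counting lifts, one stage. -/
lemma tree_step {Q m : ℕ} (S T : Finset ℕ) (hit : ℕ → ℕ) (hhit : ∀ z ∈ S, hit z < m)
    (hT : ∀ Z ∈ T, Z / Q < m ∧ Z % Q ∈ S ∧ Z / Q ≠ hit (Z % Q)) :
    T.card ≤ S.card * (m - 1) := by
  classical
  have hinj : T.card ≤ (S.sigma fun z => (Finset.range m).erase (hit z)).card := by
    apply Finset.card_le_card_of_injOn (fun Z => (⟨Z % Q, Z / Q⟩ : Σ _ : ℕ, ℕ))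
    · intro Z hZ
      obtain ⟨h1, h2, h3⟩ := hT Z hZ
      simp only [Finset.coe_sigma, Set.mem_sigma_iff, Finset.mem_coe, Finset.mem_erase,
        Finset.mem_range]
      exact ⟨h2, h3, h1⟩
    · intro Z1 _ Z2 _ h
      simp only [Sigma.mk.injEq, heq_eq_eq] at h
      rw [← Nat.div_add_mod Z1 Q, ← Nat.div_add_mod Z2 Q, h.1, h.2]
  refine hinj.trans ?_
  rw [Finset.card_sigma]
  apply le_of_eq
  calc ∑ a ∈ S, ((Finset.range m).erase (hit a)).card
      = ∑ a ∈ S, (m - 1) := by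
        apply Finset.sum_congr rfl
        intro z hz
        rw [Finset.card_erase_of_mem (Finset.mem_range.mpr (hhit z hz)), Finset.card_range]
    _ = S.card * (m - 1) := by rw [Finset.sum_const, smul_eq_mul]

/-- The last `ℓ` base-6 digits of `⌊b (3/2)^i⌋`. -/
def e (ℓ i b : ℕ) : ℕ := (b * 3 ^ i / 2 ^ i) % 6 ^ ℓ

lemma e_periodic {ℓ i m : ℕ} (hi : ℓ ≤ i) (hm : i + ℓ ≤ m) (b t : ℕ) :
    e ℓ i (b + 2 ^ m * t) = e ℓ i b := by
  unfold e
  have h : (b + 2 ^ m * t) * 3 ^ i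
      = b * 3 ^ i + 2 ^ i * (6 ^ ℓ * (2 ^ (m - i - ℓ) * 3 ^ (i - ℓ) * t)) := by
    have h6 : (6 : ℕ) ^ ℓ = 2 ^ ℓ * 3 ^ ℓ := by rw [← mul_pow]; norm_num
    have e1 : m = i + ℓ + (m - i - ℓ) := by omega
    have e2 : (3 : ℕ) ^ i = 3 ^ ℓ * 3 ^ (i - ℓ) := by rw [← pow_add]; congr 1; omega
    rw [h6]
    nth_rewrite 1 [e1]
    rw [pow_add, pow_add, e2]
    ring
  rw [h, Nat.add_mul_div_left _ _ (by positivity), Nat.add_mul_mod_self_left]

lemma e_hit {ℓ A W : ℕ} (hW : W < 6 ^ ℓ) (b : ℕ) :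
    ∃ t, t < 2 ^ (3 * ℓ) ∧ e ℓ (A + 2 * ℓ) (b + 2 ^ A * t) = W := by
  have h6 : (6 : ℕ) ^ ℓ = 2 ^ ℓ * 3 ^ ℓ := by rw [← mul_pow]; norm_num
  have h4 : (4 : ℕ) ^ ℓ = 2 ^ (2 * ℓ) := by rw [pow_mul]; norm_num
  obtain ⟨t, ht, ht2⟩ := window_hit (R := 2 ^ A * 3 ^ ℓ) (D := 2 ^ (A + 2 * ℓ)) (K := 6 ^ ℓ)
    (g := 3 * ℓ) (c := 3 ^ (A + ℓ)) (W := W) (by positivity)
    (by
      rw [pow_add, ← h4]
      exact Nat.mul_le_mul_left _ (Nat.pow_le_pow_left (by norm_num) _))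
    (by
      intro h
      have := (Nat.prime_two.dvd_of_dvd_pow h)
      omega)
    (by
      rw [h6, pow_add, show 3 * ℓ = 2 * ℓ + ℓ by ring, pow_add]
      ring)
    hW (b * 3 ^ (A + 2 * ℓ))
  refine ⟨t, ht, ?_⟩
  unfold e
  rw [← ht2]
  congr 2
  rw [show A + 2 * ℓ = (A + ℓ) + ℓ by ring, pow_add 3 (A + ℓ) ℓ]
  ring

/-- `b` has no hit at the first `s` stages. -/
def NoHit (ℓ A W s b : ℕ) : Prop := ∀ s', s' < s → e ℓ (A + s' * (3 * ℓ) + 2 * ℓ) b ≠ W

open Classical in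
/-- Residues modulo `2 ^ (A + s g)` without a hit, in a residue class modulo `2 ^ a`. -/
noncomputable def noHitSet (ℓ A W a N s : ℕ) : Finset ℕ :=
  (Finset.range (2 ^ (A + s * (3 * ℓ)))).filter (fun b => b % 2 ^ a = N % 2 ^ a ∧ NoHit ℓ A W s b)

lemma mem_noHitSet {ℓ A W a N s b : ℕ} : b ∈ noHitSet ℓ A W a N s ↔
    b < 2 ^ (A + s * (3 * ℓ)) ∧ b % 2 ^ a = N % 2 ^ a ∧ NoHit ℓ A W s b := by
  classical
  unfold noHitSet
  rw [Finset.mem_filter, Finset.mem_range]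

lemma noHitSet_card {ℓ A W a N : ℕ} (hW : W < 6 ^ ℓ) (ha : a ≤ A) (s : ℕ) :
    (noHitSet ℓ A W a N s).card ≤ 2 ^ (A - a) * (2 ^ (3 * ℓ) - 1) ^ s := by
  classical
  induction s with
  | zero =>
    have h : (noHitSet ℓ A W a N 0).card ≤ (Finset.range (2 ^ (A - a))).card := by
      apply Finset.card_le_card_of_injOn (fun b => b / 2 ^ a)
      · intro b hb
        rw [Finset.mem_coe, mem_noHitSet] at hb
        rw [Finset.mem_coe, Finset.mem_range, Nat.div_lt_iff_lt_mul (by positivity), ← pow_add]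
        have : A - a + a = A + 0 * (3 * ℓ) := by omega
        rw [this]
        exact hb.1
      · intro b1 hb1 b2 hb2 h
        rw [Finset.mem_coe, mem_noHitSet] at hb1 hb2
        simp only at h
        rw [← Nat.div_add_mod b1 (2 ^ a), ← Nat.div_add_mod b2 (2 ^ a), h, hb1.2.1, hb2.2.1]
    simpa using h
  | succ s ih =>
    choose hit hhit1 hhit2 using
      (fun b => e_hit (ℓ := ℓ) (A := A + s * (3 * ℓ)) (W := W) hW b)
    have hstep : (noHitSet ℓ A W a N (s + 1)).card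
        ≤ (noHitSet ℓ A W a N s).card * (2 ^ (3 * ℓ) - 1) := by
      apply tree_step (Q := 2 ^ (A + s * (3 * ℓ))) _ _ hit (fun z _ => hhit1 z)
      intro Z hZ
      rw [mem_noHitSet] at hZ
      obtain ⟨hZ1, hZ2, hZ3⟩ := hZ
      set Q := 2 ^ (A + s * (3 * ℓ)) with hQ
      have hQpos : 0 < Q := by positivity
      have hZdecomp : Z = Z % Q + Q * (Z / Q) := (Nat.mod_add_div Z Q).symm
      refine ⟨?_, ?_, ?_⟩
      · rw [Nat.div_lt_iff_lt_mul hQpos, hQ, ← pow_add]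
        refine lt_of_lt_of_eq hZ1 ?_
        congr 1
        ring
      · rw [mem_noHitSet]
        refine ⟨Nat.mod_lt _ hQpos, ?_, ?_⟩
        · rw [← hZ2, hQ]
          apply Nat.mod_mod_of_dvd
          exact pow_dvd_pow _ (by omega)
        · intro s' hs' heq
          apply hZ3 s' (by omega)
          rw [hZdecomp, hQ, e_periodic (by omega), heq]
          have : (s' + 1) * (3 * ℓ) ≤ s * (3 * ℓ) := Nat.mul_le_mul_right _ hs'
          have h2 : (s' + 1) * (3 * ℓ) = s' * (3 * ℓ) + 3 * ℓ := by ring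
          omega
      · intro heq
        apply hZ3 s (by omega)
        rw [hZdecomp, heq]
        exact hhit2 _
    calc (noHitSet ℓ A W a N (s + 1)).card
        ≤ (noHitSet ℓ A W a N s).card * (2 ^ (3 * ℓ) - 1) := hstep
      _ ≤ (2 ^ (A - a) * (2 ^ (3 * ℓ) - 1) ^ s) * (2 ^ (3 * ℓ) - 1) := Nat.mul_le_mul_right _ ih
      _ = 2 ^ (A - a) * (2 ^ (3 * ℓ) - 1) ^ (s + 1) := by ring

/-- The order of 9 modulo powers of two. -/
lemma nine_pow {m d : ℕ} (hd : 0 < d) (h : 2 ^ m ∣ 9 ^ d - 1) : 2 ^ (m - 3) ∣ d := by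
  have h1 := padicValNat.pow_two_sub_pow (x := 3) (y := 1) (n := 2 * d) (by norm_num)
    (by norm_num) (by norm_num) (by omega) ⟨d, by ring⟩
  have h4 : padicValNat 2 4 = 2 := by
    rw [show 4 = 2 ^ 2 by norm_num]; exact padicValNat.prime_pow 2
  rw [one_pow, pow_mul, show 3 ^ 2 = 9 by norm_num, show 3 + 1 = 4 by norm_num,
    show 3 - 1 = 2 by norm_num, h4, padicValNat_self, padicValNat.mul (by norm_num) (by omega),
    padicValNat_self] at h1
  have hne : 9 ^ d - 1 ≠ 0 := by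
    have : 9 ^ 1 ≤ 9 ^ d := Nat.pow_le_pow_right (by norm_num) hd
    omega
  have h5 : m ≤ padicValNat 2 (9 ^ d - 1) := (padicValNat_dvd_iff_le hne).mp h
  rw [padicValNat_dvd_iff_le (by omega)]
  omega

/-- In every window of `2 ^ (A + s g - a)` consecutive exponents there are few exponents without
a hit. -/
lemma right_window {ℓ A W ev N' s : ℕ} (hW : W < 6 ^ ℓ) (ha : ev + 3 ≤ A) (hN' : ¬ 2 ∣ N')
    (J : ℕ) :
    ({K : ℕ | NoHit ℓ A W s (2 ^ ev * N' * 9 ^ K)} ∩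
      Set.Ico J (J + 2 ^ (A + s * (3 * ℓ) - (ev + 3)))).ncard
      ≤ 2 ^ (A - (ev + 3)) * (2 ^ (3 * ℓ) - 1) ^ s := by
  classical
  refine le_trans ?_ (noHitSet_card (N := 2 ^ ev * N') hW ha s)
  rw [← Set.ncard_coe_finset]
  apply Set.ncard_le_ncard_of_injOn (fun K => (2 ^ ev * N' * 9 ^ K) % 2 ^ (A + s * (3 * ℓ)))
  · rintro K ⟨hK1, hK2⟩
    rw [Finset.mem_coe, mem_noHitSet]
    refine ⟨Nat.mod_lt _ (by positivity), ?_, ?_⟩
    · rw [Nat.mod_mod_of_dvd _ (pow_dvd_pow _ (by omega))]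
      have h8 : 9 ^ K ≡ 1 ^ K [MOD 8] := Nat.ModEq.pow K (by decide)
      rw [one_pow] at h8
      have h9 := Nat.ModEq.mul_left' (2 ^ ev) h8
      have h10 : 2 ^ ev * 9 ^ K ≡ 2 ^ ev * 1 [MOD 2 ^ (ev + 3)] := by
        rw [pow_add]; exact h9
      have h11 := Nat.ModEq.mul_right N' h10
      have e1 : 2 ^ ev * 9 ^ K * N' = 2 ^ ev * N' * 9 ^ K := by ring
      have e2 : 2 ^ ev * 1 * N' = 2 ^ ev * N' := by ring
      rw [e1, e2] at h11
      exact h11
    · intro s' hs' heq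
      apply hK1 s' hs'
      rw [← Nat.mod_add_div (2 ^ ev * N' * 9 ^ K) (2 ^ (A + s * (3 * ℓ))), e_periodic (by omega), heq]
      have : (s' + 1) * (3 * ℓ) ≤ s * (3 * ℓ) := Nat.mul_le_mul_right _ hs'
      have h2 : (s' + 1) * (3 * ℓ) = s' * (3 * ℓ) + 3 * ℓ := by ring
      omega
  · have key : ∀ K1 K2 : ℕ, K1 < K2 → K2 < K1 + 2 ^ (A + s * (3 * ℓ) - (ev + 3)) →
        (2 ^ ev * N' * 9 ^ K1) % 2 ^ (A + s * (3 * ℓ)) ≠
        (2 ^ ev * N' * 9 ^ K2) % 2 ^ (A + s * (3 * ℓ)) := by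
      intro K1 K2 h12 hlt heq
      have hdvd := (Nat.modEq_iff_dvd' (by
        exact Nat.mul_le_mul_left _ (Nat.pow_le_pow_right (by norm_num) h12.le))).mp heq
      have e1 : 2 ^ ev * N' * 9 ^ K2 - 2 ^ ev * N' * 9 ^ K1
          = 2 ^ ev * ((N' * 9 ^ K1) * (9 ^ (K2 - K1) - 1)) := by
        rw [Nat.mul_sub, mul_one, Nat.mul_sub]
        congr 1
        · have : 9 ^ K2 = 9 ^ K1 * 9 ^ (K2 - K1) := by rw [← pow_add]; congr 1; omega
          rw [this]; ring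
        · ring
      have e2 : 2 ^ (A + s * (3 * ℓ)) = 2 ^ ev * 2 ^ (A + s * (3 * ℓ) - ev) := by
        rw [← pow_add]; congr 1; omega
      rw [e1, e2] at hdvd
      have h3 := Nat.dvd_of_mul_dvd_mul_left (by positivity) hdvd
      have hcop : Nat.Coprime (2 ^ (A + s * (3 * ℓ) - ev)) (N' * 9 ^ K1) := by
        apply Nat.Coprime.pow_left
        apply Nat.Coprime.mul_right
        · exact (Nat.Prime.coprime_iff_not_dvd Nat.prime_two).mpr hN'
        · apply Nat.Coprime.pow_right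
          norm_num
      have h4 := hcop.dvd_of_dvd_mul_left h3
      have h5 := nine_pow (by omega) h4
      have h6 := Nat.le_of_dvd (by omega) h5
      have e3 : A + s * (3 * ℓ) - ev - 3 = A + s * (3 * ℓ) - (ev + 3) := by omega
      rw [e3] at h6
      omega
    rintro K1 ⟨_, hK1⟩ K2 ⟨_, hK2⟩ heq
    simp only [Set.mem_Ico] at hK1 hK2
    rcases lt_trichotomy K1 K2 with h | h | h
    · exact absurd heq (key K1 K2 h (by omega))
    · exact h
    · exact absurd heq.symm (key K2 K1 h (by omega))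

/-- Upper density at most `ε`, in a strong form. -/
def UD (B : Set ℕ) (ε : ℝ) : Prop := ∃ C : ℝ, ∀ X : ℕ, ((B ∩ Set.Iio X).ncard : ℝ) ≤ ε * X + C

lemma UD_of_window {B : Set ℕ} {Q S : ℕ} (hQ : 0 < Q)
    (h : ∀ J, (B ∩ Set.Ico J (J + Q)).ncard ≤ S) : UD B ((S : ℝ) / Q) := by
  have h1 : ∀ u : ℕ, (B ∩ Set.Iio (u * Q)).ncard ≤ u * S := by
    intro u
    induction u with
    | zero => simp
    | succ u ih =>
      have hsub : B ∩ Set.Iio ((u + 1) * Q) ⊆ (B ∩ Set.Iio (u * Q)) ∪ (B ∩ Set.Ico (u * Q) (u * Q + Q)) := by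
        rintro x ⟨hx1, hx2⟩
        rw [Set.mem_Iio] at hx2
        rcases lt_or_ge x (u * Q) with h3 | h3
        · left; exact ⟨hx1, h3⟩
        · right
          refine ⟨hx1, h3, ?_⟩
          calc x < (u + 1) * Q := hx2
            _ = u * Q + Q := by ring
      have hfin1 : (B ∩ Set.Iio (u * Q)).Finite := (Set.finite_Iio _).subset Set.inter_subset_right
      have hfin2 : (B ∩ Set.Ico (u * Q) (u * Q + Q)).Finite :=
        (Set.finite_Ico _ _).subset Set.inter_subset_right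
      calc (B ∩ Set.Iio ((u + 1) * Q)).ncard
          ≤ ((B ∩ Set.Iio (u * Q)) ∪ (B ∩ Set.Ico (u * Q) (u * Q + Q))).ncard :=
            Set.ncard_le_ncard hsub (hfin1.union hfin2)
        _ ≤ (B ∩ Set.Iio (u * Q)).ncard + (B ∩ Set.Ico (u * Q) (u * Q + Q)).ncard :=
            Set.ncard_union_le _ _
        _ ≤ u * S + S := add_le_add ih (h _)
        _ = (u + 1) * S := by ring
  refine ⟨S, fun X => ?_⟩
  have h2 : X < (X / Q + 1) * Q := by
    rw [mul_comm]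
    exact Nat.lt_mul_div_succ X hQ
  have h3 : (B ∩ Set.Iio X).ncard ≤ (X / Q + 1) * S := by
    refine le_trans (Set.ncard_le_ncard ?_ ((Set.finite_Iio _).subset Set.inter_subset_right)) (h1 _)
    exact Set.inter_subset_inter_right _ (Set.Iio_subset_Iio h2.le)
  have h4 : ((X / Q : ℕ) : ℝ) ≤ (X : ℝ) / Q := Nat.cast_div_le
  have h5 : ((B ∩ Set.Iio X).ncard : ℝ) ≤ (((X / Q : ℕ) : ℝ) + 1) * S := by exact_mod_cast h3
  calc ((B ∩ Set.Iio X).ncard : ℝ) ≤ (((X / Q : ℕ) : ℝ) + 1) * S := h5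
    _ ≤ ((X : ℝ) / Q + 1) * S := by
        apply mul_le_mul_of_nonneg_right _ (Nat.cast_nonneg S)
        linarith
    _ = (S : ℝ) / Q * X + S := by ring

lemma UD_mono_set {B B' : Set ℕ} {ε : ℝ} (h : B ⊆ B') (h' : UD B' ε) : UD B ε := by
  obtain ⟨C, hC⟩ := h'
  refine ⟨C, fun X => le_trans ?_ (hC X)⟩
  exact_mod_cast Set.ncard_le_ncard (Set.inter_subset_inter_left _ h)
    ((Set.finite_Iio _).subset Set.inter_subset_right)

lemma UD_mono {B : Set ℕ} {ε ε' : ℝ} (h : ε ≤ ε') (h' : UD B ε) : UD B ε' := by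
  obtain ⟨C, hC⟩ := h'
  refine ⟨C, fun X => le_trans (hC X) ?_⟩
  have : ε * X ≤ ε' * X := mul_le_mul_of_nonneg_right h (Nat.cast_nonneg X)
  linarith

lemma UD_union {B B' : Set ℕ} {ε ε' : ℝ} (h : UD B ε) (h' : UD B' ε') : UD (B ∪ B') (ε + ε') := by
  obtain ⟨C, hC⟩ := h
  obtain ⟨C', hC'⟩ := h'
  refine ⟨C + C', fun X => ?_⟩
  have h1 : ((B ∪ B') ∩ Set.Iio X).ncard ≤ (B ∩ Set.Iio X).ncard + (B' ∩ Set.Iio X).ncard := by
    rw [Set.union_inter_distrib_right]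
    exact Set.ncard_union_le _ _
  have h2 : (((B ∪ B') ∩ Set.Iio X).ncard : ℝ) ≤ (B ∩ Set.Iio X).ncard + (B' ∩ Set.Iio X).ncard := by
    exact_mod_cast h1
  have := hC X
  have := hC' X
  linarith

/-- Right side: from any time on, up to small density, there is a hit. -/
lemma right_block {ℓ W N : ℕ} (hℓ : 0 < ℓ) (hW : W < 6 ^ ℓ) (hN : 0 < N) (I : ℕ) (ε : ℝ) (hε : 0 < ε) :
    ∃ I' : ℕ, UD {K : ℕ | ∀ i, I ≤ i → i < I' → e ℓ i (N * 9 ^ K) ≠ W} ε := by
  obtain ⟨ev, N', hN', hNeq⟩ := Nat.exists_eq_two_pow_mul_odd hN.ne'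
  have hN'2 : ¬ 2 ∣ N' := by
    rw [← even_iff_two_dvd, Nat.not_even_iff_odd]
    exact hN'
  set A := ev + 3 + I with hA
  have h2g : (1 : ℕ) ≤ 2 ^ (3 * ℓ) := Nat.one_le_two_pow
  have h2gR : (1 : ℝ) < 2 ^ (3 * ℓ) := one_lt_pow₀ (by norm_num) (by omega)
  set q : ℝ := ((2 : ℝ) ^ (3 * ℓ) - 1) / 2 ^ (3 * ℓ) with hq
  have hq0 : 0 ≤ q := div_nonneg (by linarith) (by positivity)
  have hq1 : q < 1 := by
    rw [hq, div_lt_one (by positivity)]; linarith
  obtain ⟨s, hs⟩ := exists_pow_lt_of_lt_one hε hq1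
  refine ⟨A + s * (3 * ℓ) + 2 * ℓ, ?_⟩
  have hw := right_window (A := A) (s := s) hW (by omega : ev + 3 ≤ A) hN'2
  have h1 := UD_of_window (by positivity) hw
  refine UD_mono_set ?_ (UD_mono ?_ h1)
  · intro K hK s' hs'
    have h2 : s' * (3 * ℓ) < s * (3 * ℓ) := Nat.mul_lt_mul_of_pos_right hs' (by omega)
    have h3 := hK (A + s' * (3 * ℓ) + 2 * ℓ) (by omega) (by omega)
    rw [hNeq] at h3
    exact h3
  · refine le_trans (le_of_eq ?_) hs.le
    rw [hq, div_pow, Nat.cast_mul, Nat.cast_pow, Nat.cast_pow, Nat.cast_pow, Nat.cast_sub h2g]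
    push_cast
    have e1 : A + s * (3 * ℓ) - (ev + 3) = (A - (ev + 3)) + s * (3 * ℓ) := by omega
    rw [e1, pow_add, mul_comm s (3 * ℓ), pow_mul 2 (3 * ℓ) s]
    have hp1 : (2 : ℝ) ^ (A - (ev + 3)) ≠ 0 := by positivity
    have hp2 : ((2 : ℝ) ^ (3 * ℓ)) ^ s ≠ 0 := by positivity
    field_simp




/-- Visits of an irrational rotation to a closed set of small measure have small density. -/
lemma rotation_UD {ρ : ℝ} (hρ : Irrational ρ) (θ0 : AddCircle (1 : ℝ)) {V : Set (AddCircle (1 : ℝ))}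
    (hV : IsClosed V) {ε : ℝ} (hε : 0 < ε) (hvol : volume V < ENNReal.ofReal ε) :
    UD {J : ℕ | θ0 + (J : ℤ) • (ρ : AddCircle (1 : ℝ)) ∈ V} ε := by
  have hT := tendsto_measure_cthickening_of_isCompact (μ := (volume : Measure (AddCircle (1 : ℝ))))
    hV.isCompact
  have hev : ∀ᶠ r in 𝓝 (0 : ℝ), volume (cthickening r V) < ENNReal.ofReal ε :=
    hT.eventually_lt_const hvol
  obtain ⟨δ, hδpos, hδ⟩ : ∃ δ : ℝ, 0 < δ ∧ volume (cthickening δ V) < ENNReal.ofReal ε := by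
    have h1 : ∀ᶠ r in 𝓝[>] (0 : ℝ), volume (cthickening r V) < ENNReal.ofReal ε :=
      hev.filter_mono nhdsWithin_le_nhds
    obtain ⟨δ, hδ1, hδ2⟩ := (h1.and self_mem_nhdsWithin).exists
    exact ⟨δ, hδ2, hδ1⟩
  set a : AddCircle (1 : ℝ) := (ρ : AddCircle (1 : ℝ)) with ha
  have hdense : DenseRange (fun n : ℤ => n • a) :=
    AddCircle.denseRange_zsmul_coe_iff.mpr (by simpa using hρ)
  have hcover : (Set.univ : Set (AddCircle (1 : ℝ))) ⊆ ⋃ s : ℤ, ball (s • a) δ := by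
    intro y _
    obtain ⟨s, hs⟩ := hdense.exists_dist_lt y hδpos
    exact Set.mem_iUnion.mpr ⟨s, hs⟩
  obtain ⟨t, ht⟩ := isCompact_univ.elim_finite_subcover _ (fun s => isOpen_ball) hcover
  obtain ⟨R, hR⟩ : ∃ R : ℕ, ∀ s ∈ t, |s| ≤ R := by
    obtain ⟨b, hb⟩ := (t.image (fun i : ℤ => |i|)).bddAbove
    refine ⟨b.toNat, fun i hi => ?_⟩
    have : |i| ≤ b := hb (by simpa using ⟨i, hi, rfl⟩)
    have h2 := Int.self_le_toNat b
    omega
  refine ⟨ε * (2 * R), fun X => ?_⟩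
  set N := ({J : ℕ | θ0 + (J : ℤ) • a ∈ V} ∩ Set.Iio X).ncard with hN
  set Vδ := cthickening δ V with hVδ
  have hVδm : MeasurableSet Vδ := isClosed_cthickening.measurableSet
  -- pointwise lower bound
  have hpt : ∀ θ' : AddCircle (1 : ℝ), (N : ENNReal) ≤
      ∑ k ∈ Finset.Ico (-(R : ℤ)) (X + R), Vδ.indicator (fun _ => (1 : ENNReal)) (k • a + θ') := by
    intro θ'
    have hmem := ht (Set.mem_univ (θ' - θ0))
    simp only [Set.mem_iUnion] at hmem
    obtain ⟨s, hst, hs⟩ := hmem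
    have hsR := hR s hst
    rw [abs_le] at hsR
    classical
    have hle : N ≤ ((Finset.Ico (-(R : ℤ)) (X + R)).filter (fun k => k • a + θ' ∈ Vδ)).card := by
      rw [← Set.ncard_coe_finset]
      apply Set.ncard_le_ncard_of_injOn (fun J : ℕ => (J : ℤ) - s)
      · rintro J ⟨hJ1, hJ2⟩
        simp only [Set.mem_Iio] at hJ2
        simp only [Finset.coe_filter, Finset.mem_Ico, Set.mem_ofPred_eq]
        refine ⟨⟨by omega, by omega⟩, ?_⟩
        apply mem_cthickening_of_dist_le _ (θ0 + (J : ℤ) • a) _ _ hJ1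
        have h1 : ((J : ℤ) - s) • a + θ' - (θ0 + (J : ℤ) • a) = (θ' - θ0) - s • a := by
          rw [sub_smul]; abel
        rw [dist_eq_norm, h1, ← dist_eq_norm]
        exact (mem_ball.mp hs).le
      · intro J1 _ J2 _ h
        simp only at h
        omega
    calc (N : ENNReal) ≤ (((Finset.Ico (-(R : ℤ)) (X + R)).filter (fun k => k • a + θ' ∈ Vδ)).card : ENNReal) := by
          exact_mod_cast hle
      _ = ∑ k ∈ Finset.Ico (-(R : ℤ)) (X + R), Vδ.indicator (fun _ => (1 : ENNReal)) (k • a + θ') := by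
          rw [Finset.card_filter]
          push_cast
          apply Finset.sum_congr rfl
          intro k _
          by_cases hk : k • a + θ' ∈ Vδ
          · simp [hk]
          · simp [hk]
  have hint : (N : ENNReal) ≤ ((X + 2 * R : ℕ) : ENNReal) * volume Vδ := by
    calc (N : ENNReal) = ∫⁻ _θ' : AddCircle (1 : ℝ), (N : ENNReal) := by
          rw [lintegral_const, AddCircle.measure_univ]; simp
      _ ≤ ∫⁻ θ' : AddCircle (1 : ℝ), ∑ k ∈ Finset.Ico (-(R : ℤ)) (X + R),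
            Vδ.indicator (fun _ => (1 : ENNReal)) (k • a + θ') := lintegral_mono hpt
      _ = ∑ k ∈ Finset.Ico (-(R : ℤ)) (X + R), ∫⁻ θ' : AddCircle (1 : ℝ),
            Vδ.indicator (fun _ => (1 : ENNReal)) (k • a + θ') := by
          apply lintegral_finsetSum
          intro k _
          exact (measurable_const.indicator hVδm).comp (measurable_const_add _)
      _ = ∑ k ∈ Finset.Ico (-(R : ℤ)) (X + R), volume Vδ := by
          apply Finset.sum_congr rfl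
          intro k _
          rw [lintegral_add_left_eq_self (fun θ => Vδ.indicator (fun _ => (1 : ENNReal)) θ) (k • a)]
          rw [lintegral_indicator hVδm]
          simp
      _ = ((X + 2 * R : ℕ) : ENNReal) * volume Vδ := by
          rw [Finset.sum_const, Int.card_Ico, nsmul_eq_mul]
          congr 2
          omega
  have hint2 : (N : ENNReal) ≤ ENNReal.ofReal (((X + 2 * R : ℕ) : ℝ) * ε) := by
    refine hint.trans ?_
    rw [ENNReal.ofReal_mul (Nat.cast_nonneg _), ENNReal.ofReal_natCast]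
    gcongr
  have hfin : (N : ℝ) ≤ ((X + 2 * R : ℕ) : ℝ) * ε := by
    rw [← ENNReal.ofReal_natCast N] at hint2
    exact (ENNReal.ofReal_le_ofReal_iff (by positivity)).mp hint2
  push_cast at hfin
  linarith

/-- Real numbers whose integer part is congruent to `W` modulo `6 ^ ℓ` (open version). -/
def O (ℓ W : ℕ) : Set ℝ := ⋃ N' : {N' : ℕ // N' % 6 ^ ℓ = W}, Set.Ioo (N'.1 : ℝ) (N'.1 + 1)

lemma isOpen_O (ℓ W : ℕ) : IsOpen (O ℓ W) := isOpen_iUnion fun _ => isOpen_Ioo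

lemma floor_of_mem_O {ℓ W : ℕ} {y : ℝ} (hy : y ∈ O ℓ W) : ⌊y⌋₊ % 6 ^ ℓ = W := by
  unfold O at hy
  rw [Set.mem_iUnion] at hy
  obtain ⟨⟨N', hN'⟩, h1, h2⟩ := hy
  have : ⌊y⌋₊ = N' := by
    rw [Nat.floor_eq_iff (le_trans (Nat.cast_nonneg _) h1.le)]
    exact ⟨h1.le, h2⟩
  rw [this, hN']

/-- Reals that never hit from time `I` on. -/
def Tbad (ℓ W I : ℕ) : Set ℝ :=
  {t | 1 ≤ t ∧ ∀ i, I ≤ i → t * (3 / 2) ^ i ∉ O ℓ W}

lemma isClosed_Tbad (ℓ W I : ℕ) : IsClosed (Tbad ℓ W I) := by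
  have : Tbad ℓ W I = Set.Ici 1 ∩ ⋂ i : ℕ, ⋂ _ : I ≤ i, (fun t : ℝ => t * (3 / 2) ^ i) ⁻¹' (O ℓ W)ᶜ := by
    ext t
    simp [Tbad]
  rw [this]
  apply isClosed_Ici.inter
  apply isClosed_iInter
  intro i
  apply isClosed_iInter
  intro _
  exact (isOpen_O ℓ W).isClosed_compl.preimage (by fun_prop)

lemma Tbad_null {ℓ W : ℕ} (hW : W < 6 ^ ℓ) (I : ℕ) : volume (Tbad ℓ W I) = 0 := by
  set S := Tbad ℓ W I with hS
  have hSm : MeasurableSet S := (isClosed_Tbad ℓ W I).measurableSet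
  have h6 : (0 : ℝ) < 6 ^ ℓ := by positivity
  have hae := IsUnifLocDoublingMeasure.ae_tendsto_measure_inter_div (μ := (volume : Measure ℝ)) S 1
  have hmem : ∀ᵐ x ∂((volume : Measure ℝ).restrict S), x ∈ S := ae_restrict_mem hSm
  have hfalse : ∀ᵐ x ∂((volume : Measure ℝ).restrict S), False := by
    filter_upwards [hae, hmem] with x hx hxS
    set δ : ℕ → ℝ := fun i => 6 ^ ℓ * (2 / 3) ^ i with hδ
    have hδpos : ∀ i, 0 < δ i := fun i => by rw [hδ]; positivity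
    have hδlim : Tendsto δ atTop (𝓝[>] 0) := by
      rw [tendsto_nhdsWithin_iff]
      constructor
      · have := (tendsto_pow_atTop_nhds_zero_of_lt_one (r := (2 / 3 : ℝ)) (by norm_num) (by norm_num)).const_mul ((6 : ℝ) ^ ℓ)
        simpa using this
      · exact Eventually.of_forall hδpos
    have hlim := hx (fun _ : ℕ => x) δ hδlim (Eventually.of_forall fun i => by
      rw [mem_closedBall, dist_self]
      have := hδpos i
      linarith)
    -- but the ratio is bounded away from 1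
    have hbound : ∀ᶠ i in atTop, volume (S ∩ closedBall x (δ i)) / volume (closedBall x (δ i))
        ≤ ENNReal.ofReal (1 - 1 / (2 * 6 ^ ℓ)) := by
      filter_upwards [eventually_ge_atTop I] with i hi
      have h32 : (0 : ℝ) < (3 / 2) ^ i := by positivity
      have h23 : (0 : ℝ) < (2 / 3) ^ i := by positivity
      have hprod : (3 / 2 : ℝ) ^ i * (2 / 3) ^ i = 1 := by rw [← mul_pow]; norm_num
      set y : ℝ := x * (3 / 2) ^ i with hy
      have hy0 : 0 ≤ y := mul_nonneg (by linarith [hxS.1]) h32.le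
      set k : ℕ := ⌊y / 6 ^ ℓ⌋₊ with hk
      have hk1 : (k : ℝ) * 6 ^ ℓ ≤ y := by
        have := Nat.floor_le (show 0 ≤ y / 6 ^ ℓ by positivity)
        rwa [le_div_iff₀ h6] at this
      have hk2 : y < (k + 1) * 6 ^ ℓ := by
        have := Nat.lt_floor_add_one (y / 6 ^ ℓ)
        rwa [div_lt_iff₀ h6] at this
      set N' : ℕ := W + 6 ^ ℓ * k with hN'
      have hN'mod : N' % 6 ^ ℓ = W := by
        rw [hN', Nat.add_mul_mod_self_left, Nat.mod_eq_of_lt hW]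
      have hWr : (W : ℝ) + 1 ≤ 6 ^ ℓ := by exact_mod_cast hW
      have hW0 : (0 : ℝ) ≤ W := Nat.cast_nonneg _
      have hN'r : (N' : ℝ) = W + 6 ^ ℓ * k := by rw [hN']; push_cast; ring
      set U : Set ℝ := Set.Ioo ((N' : ℝ) * (2 / 3) ^ i) (((N' : ℝ) + 1) * (2 / 3) ^ i) with hU
      have hUball : U ⊆ closedBall x (δ i) := by
        intro u hu
        rw [Real.closedBall_eq_Icc]
        have hx' : x = y * (2 / 3) ^ i := by
          rw [hy, mul_assoc, hprod, mul_one]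
        have h1 : y * (2 / 3) ^ i - 6 ^ ℓ * (2 / 3) ^ i ≤ (N' : ℝ) * (2 / 3) ^ i := by
          rw [← sub_mul]
          apply mul_le_mul_of_nonneg_right _ h23.le
          rw [hN'r]
          nlinarith
        have h2 : ((N' : ℝ) + 1) * (2 / 3) ^ i ≤ y * (2 / 3) ^ i + 6 ^ ℓ * (2 / 3) ^ i := by
          rw [← add_mul]
          apply mul_le_mul_of_nonneg_right _ h23.le
          rw [hN'r]
          nlinarith
        have hu1 := hu.1
        have hu2 := hu.2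
        constructor
        · simp only [hδ]; rw [hx']; linarith
        · simp only [hδ]; rw [hx']; linarith
      have hUS : Disjoint (S ∩ closedBall x (δ i)) U := by
        rw [Set.disjoint_left]
        rintro u ⟨huS, _⟩ huU
        apply huS.2 i hi
        unfold O
        rw [Set.mem_iUnion]
        refine ⟨⟨N', hN'mod⟩, ?_, ?_⟩
        · have := mul_lt_mul_of_pos_right huU.1 h32
          rw [mul_assoc, mul_comm ((2 / 3 : ℝ) ^ i), hprod, mul_one] at this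
          exact this
        · have := mul_lt_mul_of_pos_right huU.2 h32
          rw [mul_assoc, mul_comm ((2 / 3 : ℝ) ^ i), hprod, mul_one] at this
          exact this
      have hvolU : volume U = ENNReal.ofReal ((2 / 3) ^ i) := by
        rw [hU, Real.volume_Ioo]
        congr 1
        ring
      have hvolB : volume (closedBall x (δ i)) = ENNReal.ofReal (2 * δ i) := Real.volume_closedBall x _
      have hsum : volume (S ∩ closedBall x (δ i)) + volume U ≤ volume (closedBall x (δ i)) := by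
        rw [← measure_union hUS measurableSet_Ioo]
        exact measure_mono (Set.union_subset Set.inter_subset_right hUball)
      have hle : volume (S ∩ closedBall x (δ i)) ≤ ENNReal.ofReal (2 * δ i - (2 / 3) ^ i) := by
        rw [hvolU, hvolB] at hsum
        rw [ENNReal.ofReal_sub _ h23.le]
        exact ENNReal.le_sub_of_add_le_right ENNReal.ofReal_ne_top hsum
      rw [ENNReal.div_le_iff (by rw [hvolB]; simp [hδpos i]) (by rw [hvolB]; exact ENNReal.ofReal_ne_top), hvolB,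
        ← ENNReal.ofReal_mul (by
          have : (1 : ℝ) ≤ 6 ^ ℓ := one_le_pow₀ (by norm_num)
          rw [sub_nonneg, div_le_one (by positivity)]
          linarith)]
      refine hle.trans (ENNReal.ofReal_le_ofReal (le_of_eq ?_))
      simp only [hδ]
      field_simp
    have hle := le_of_tendsto hlim hbound
    have hlt : ENNReal.ofReal (1 - 1 / (2 * 6 ^ ℓ)) < 1 := by
      rw [← ENNReal.ofReal_one]
      apply (ENNReal.ofReal_lt_ofReal_iff one_pos).mpr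
      have : (0 : ℝ) < 1 / (2 * 6 ^ ℓ) := by positivity
      linarith
    exact absurd hle (not_le.mpr hlt)
  have h0 : (volume : Measure ℝ).restrict S = 0 := by
    rw [← ae_eq_bot]
    exact Filter.eventually_false_iff_eq_bot.mp hfalse
  exact Measure.restrict_eq_zero.mp h0


/-- The bad set in the logarithmic coordinate. -/
def Vbad (ℓ W I I' : ℕ) : Set ℝ :=
  {θ | θ ∈ Set.Icc (0 : ℝ) 1 ∧ ∀ i : ℕ, I ≤ i → i < I' → (3 / 2 : ℝ) ^ θ * (3 / 2) ^ i ∉ O ℓ W}

lemma isClosed_Vbad (ℓ W I I' : ℕ) : IsClosed (Vbad ℓ W I I') := by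
  have : Vbad ℓ W I I' = Set.Icc 0 1 ∩ ⋂ i : ℕ, ⋂ _ : I ≤ i, ⋂ _ : i < I',
      (fun θ : ℝ => (3 / 2 : ℝ) ^ θ * (3 / 2) ^ i) ⁻¹' (O ℓ W)ᶜ := by
    ext t
    simp [Vbad]
  rw [this]
  apply isClosed_Icc.inter
  apply isClosed_iInter
  intro i
  apply isClosed_iInter
  intro _
  apply isClosed_iInter
  intro _
  refine (isOpen_O ℓ W).isClosed_compl.preimage ?_
  exact (Real.continuous_const_rpow (by norm_num)).mul continuous_const

lemma Vbad_small {ℓ W : ℕ} (hW : W < 6 ^ ℓ) (I : ℕ) {ε : ENNReal} (hε : 0 < ε) :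
    ∃ I', volume (Vbad ℓ W I I') < ε := by
  have hanti : Antitone (Vbad ℓ W I) := by
    intro a b hab θ hθ
    exact ⟨hθ.1, fun i h1 h2 => hθ.2 i h1 (lt_of_lt_of_le h2 hab)⟩
  have hlim := tendsto_measure_iInter_atTop (μ := (volume : Measure ℝ)) (s := Vbad ℓ W I)
    (fun i => (isClosed_Vbad ℓ W I i).measurableSet.nullMeasurableSet) hanti
    ⟨0, by
      have h1 : volume (Vbad ℓ W I 0) ≤ volume (Set.Icc (0 : ℝ) 1) := measure_mono fun θ hθ => hθ.1
      refine ne_top_of_le_ne_top ?_ h1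
      rw [Real.volume_Icc]
      exact ENNReal.ofReal_ne_top⟩
  have hnull : volume (⋂ n, Vbad ℓ W I n) = 0 := by
    have hsub : (⋂ n, Vbad ℓ W I n) ⊆ (Real.logb (3 / 2)) '' (Tbad ℓ W I) := by
      intro θ hθ
      rw [Set.mem_iInter] at hθ
      refine ⟨(3 / 2 : ℝ) ^ θ, ⟨?_, ?_⟩, ?_⟩
      · exact Real.one_le_rpow (by norm_num) (hθ 0).1.1
      · intro i hi
        exact (hθ (i + 1)).2 i hi (Nat.lt_succ_self i)
      · exact Real.logb_rpow (by norm_num) (by norm_num)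
    refine measure_mono_null hsub ?_
    apply addHaar_image_eq_zero_of_differentiableOn_of_addHaar_eq_zero (μ := (volume : Measure ℝ))
    · intro t ht
      have ht1 : (1 : ℝ) ≤ t := ht.1
      apply DifferentiableAt.differentiableWithinAt
      unfold Real.logb
      apply DifferentiableAt.div_const
      exact Real.differentiableAt_log (by linarith)
    · exact Tbad_null hW I
  rw [hnull] at hlim
  obtain ⟨I', hI'⟩ := (hlim.eventually_lt_const hε).exists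
  exact ⟨I', hI'⟩

/-- `log 6 / log (3/2)` is irrational. -/
lemma irrational_rho : Irrational (Real.logb (3 / 2) 6) := by
  rw [irrational_iff_ne_rational]
  intro a b hb h
  have hlog : 0 < Real.log (3 / 2) := Real.log_pos (by norm_num)
  have hlog6 : 0 < Real.log 6 := Real.log_pos (by norm_num)
  have hpos : 0 < Real.logb (3 / 2) 6 := div_pos hlog6 hlog
  -- reduce to positive integers
  have h1 : (b : ℝ) * Real.log 6 = a * Real.log (3 / 2) := by
    have hbR : (b : ℝ) ≠ 0 := by exact_mod_cast hb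
    rw [Real.logb, div_eq_div_iff hlog.ne' hbR] at h
    linarith
  obtain ⟨m, n, hm, hn, hmn⟩ : ∃ m n : ℕ, 0 < m ∧ 0 < n ∧ (n : ℝ) * Real.log 6 = m * Real.log (3 / 2) := by
    refine ⟨a.natAbs, b.natAbs, ?_, ?_, ?_⟩
    · rw [Int.natAbs_pos]
      rintro rfl
      have hbR : (b : ℝ) ≠ 0 := by exact_mod_cast hb
      simp at h1
      rcases h1 with h1 | h1
      · exact hb h1
      · norm_num at h1
    · exact Int.natAbs_pos.mpr hb
    · have h2 : |(b : ℝ) * Real.log 6| = |(a : ℝ) * Real.log (3 / 2)| := by rw [h1]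
      rw [abs_mul, abs_mul, abs_of_pos hlog, abs_of_pos hlog6] at h2
      rw [Nat.cast_natAbs, Nat.cast_natAbs, Int.cast_abs, Int.cast_abs]
      exact h2
  have h3 : Real.log ((6 : ℝ) ^ n) = Real.log ((3 / 2) ^ m) := by
    rw [Real.log_pow, Real.log_pow]; exact hmn
  have h4 : (6 : ℝ) ^ n = (3 / 2) ^ m :=
    Real.log_injOn_pos (Set.mem_Ioi.mpr (by positivity)) (Set.mem_Ioi.mpr (by positivity)) h3
  have h5 : (6 : ℝ) ^ n * 2 ^ m = 3 ^ m := by
    rw [h4, div_pow]; field_simp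
  have h6 : 6 ^ n * 2 ^ m = 3 ^ m := by exact_mod_cast h5
  have h7 : 2 ∣ 3 ^ m := by
    rw [← h6]
    exact Dvd.dvd.mul_left (dvd_pow_self 2 hm.ne') _
  have h8 := Nat.prime_two.dvd_of_dvd_pow h7
  omega

/-- The time at which the leading digit of `c (3/2)^n / 6^J` reaches the origin. -/
noncomputable def n0 (c : ℝ) (J : ℕ) : ℕ := (-⌊Real.logb (3 / 2) (c / 6 ^ J)⌋).toNat

/-- Left side: from any time after the arrival of the leading digit on, up to small density, there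
is a hit. -/
lemma left_block {ℓ W : ℕ} (hW : W < 6 ^ ℓ) {c : ℝ} (hc : 0 < c) (I : ℕ) (ε : ℝ) (hε : 0 < ε) :
    ∃ I' : ℕ, UD {J : ℕ | ∀ i, I ≤ i → i < I' →
      ⌊c / 6 ^ J * (3 / 2) ^ (n0 c J + i)⌋₊ % 6 ^ ℓ ≠ W} ε := by
  obtain ⟨I', hI'⟩ := Vbad_small hW I (ε := ENNReal.ofReal ε) (ENNReal.ofReal_pos.mpr hε)
  refine ⟨I', ?_⟩
  set V : Set (AddCircle (1 : ℝ)) := (fun θ : ℝ => (θ : AddCircle (1 : ℝ))) '' (Vbad ℓ W I I') with hV
  have hcomp : IsCompact (Vbad ℓ W I I') :=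
    isCompact_Icc.of_isClosed_subset (isClosed_Vbad ℓ W I I') (fun θ hθ => hθ.1)
  have hVclosed : IsClosed V := by
    apply IsCompact.isClosed
    exact hcomp.image (AddCircle.continuous_mk' 1)
  have hVvol : volume V < ENNReal.ofReal ε := by
    refine lt_of_le_of_lt ?_ hI'
    have hmp := AddCircle.measurePreserving_mk (1 : ℝ) 0
    rw [← hmp.measure_preimage hVclosed.measurableSet.nullMeasurableSet]
    rw [Measure.restrict_apply' measurableSet_Ioc]
    have hsub : (fun θ : ℝ => (θ : AddCircle (1 : ℝ))) ⁻¹' V ∩ Set.Ioc 0 (0 + 1)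
        ⊆ Vbad ℓ W I I' ∪ {1} := by
      rintro θ ⟨⟨θ', hθ', heq⟩, hθ⟩
      rw [zero_add] at hθ
      have h1 : (θ' : AddCircle (1 : ℝ)) = (θ : AddCircle (1 : ℝ)) := heq
      rcases eq_or_lt_of_le hθ'.1.1 with h0 | h0
      · right
        rw [← h0] at h1
        have h2 : ((0 : ℝ) : AddCircle (1 : ℝ)) = ((1 : ℝ) : AddCircle (1 : ℝ)) := by
          rw [AddCircle.coe_period, AddCircle.coe_zero]
        rw [h2, AddCircle.coe_eq_coe_iff_of_mem_Ioc (a := 0)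
          (by rw [zero_add]; exact ⟨one_pos, le_rfl⟩) (by rw [zero_add]; exact hθ)] at h1
        exact h1.symm
      · left
        rw [AddCircle.coe_eq_coe_iff_of_mem_Ioc (a := 0)
          (by rw [zero_add]; exact ⟨h0, hθ'.1.2⟩) (by rw [zero_add]; exact hθ)] at h1
        rw [← h1]
        exact hθ'
    refine (measure_mono hsub).trans ?_
    refine (measure_union_le _ _).trans ?_
    simp
  have hrot := rotation_UD (ρ := -Real.logb (3 / 2) 6) irrational_rho.neg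
    ((Real.logb (3 / 2) c : ℝ) : AddCircle (1 : ℝ)) hVclosed hε hVvol
  obtain ⟨C, hC⟩ := hrot
  -- all but finitely many `J` have `c / 6 ^ J < 1`
  obtain ⟨J0, hJ0⟩ : ∃ J0 : ℕ, c < 6 ^ J0 := pow_unbounded_of_one_lt c (by norm_num)
  refine ⟨C + J0, fun X => ?_⟩
  have hsub : {J : ℕ | ∀ i, I ≤ i → i < I' →
      ⌊c / 6 ^ J * (3 / 2) ^ (n0 c J + i)⌋₊ % 6 ^ ℓ ≠ W} ∩ Set.Iio X ⊆
      ({J : ℕ | ((Real.logb (3 / 2) c : ℝ) : AddCircle (1 : ℝ)) +
        (J : ℤ) • ((-Real.logb (3 / 2) 6 : ℝ) : AddCircle (1 : ℝ)) ∈ V} ∩ Set.Iio X) ∪ Set.Iio J0 := by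
    rintro J ⟨hJ, hJX⟩
    rcases lt_or_ge J J0 with hlt | hge
    · right; exact hlt
    · left
      refine ⟨?_, hJX⟩
      have h6J : (0 : ℝ) < 6 ^ J := by positivity
      have hcJ : c / 6 ^ J < 1 := by
        rw [div_lt_one h6J]
        exact lt_of_lt_of_le hJ0 (pow_le_pow_right₀ (by norm_num) hge)
      have hcJ0 : 0 < c / 6 ^ J := by positivity
      set lam := Real.logb (3 / 2) (c / 6 ^ J) with hlam
      have hlamneg : lam < 0 := Real.logb_neg (by norm_num) hcJ0 hcJ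
      have hfl : ⌊lam⌋ ≤ 0 := by
        have : (⌊lam⌋ : ℝ) ≤ lam := Int.floor_le lam
        have h2 : (⌊lam⌋ : ℝ) < 0 := by linarith
        have : ⌊lam⌋ < 0 := by exact_mod_cast h2
        omega
      have hn0 : ((n0 c J : ℕ) : ℤ) = -⌊lam⌋ := by
        have h1 : n0 c J = (-⌊lam⌋).toNat := rfl
        rw [h1, Int.toNat_of_nonneg (by omega)]
      have hlam2 : lam = Real.logb (3 / 2) c - J * Real.logb (3 / 2) 6 := by
        rw [hlam, Real.logb_div hc.ne' h6J.ne', Real.logb_pow]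
      have hval : ∀ i : ℕ, c / 6 ^ J * (3 / 2) ^ (n0 c J + i) = (3 / 2 : ℝ) ^ (Int.fract lam) * (3 / 2) ^ i := by
        intro i
        have h1 : c / 6 ^ J = (3 / 2 : ℝ) ^ lam := (Real.rpow_logb (by norm_num) (by norm_num) hcJ0).symm
        rw [h1, pow_add, ← mul_assoc]
        congr 1
        rw [← Real.rpow_natCast, ← Real.rpow_add (by norm_num)]
        congr 1
        have h2 : ((n0 c J : ℕ) : ℝ) = -(⌊lam⌋ : ℝ) := by exact_mod_cast hn0
        rw [h2, Int.fract]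
        ring
      refine ⟨Int.fract lam, ⟨⟨Int.fract_nonneg _, (Int.fract_lt_one _).le⟩, ?_⟩, ?_⟩
      · intro i hi1 hi2 hmem
        apply hJ i hi1 hi2
        rw [hval]
        exact floor_of_mem_O hmem
      · have h1 : ((Real.logb (3 / 2) c : ℝ) : AddCircle (1 : ℝ)) +
            (J : ℤ) • ((-Real.logb (3 / 2) 6 : ℝ) : AddCircle (1 : ℝ)) = ((lam : ℝ) : AddCircle (1 : ℝ)) := by
          rw [hlam2, ← AddCircle.coe_zsmul, ← AddCircle.coe_add]
          congr 1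
          simp
          ring
        rw [h1]
        have h2 : lam = Int.fract lam + ⌊lam⌋ := (Int.fract_add_floor lam).symm
        conv_rhs => rw [h2]
        rw [AddCircle.coe_add]
        have h3 : (((⌊lam⌋ : ℤ) : ℝ) : AddCircle (1 : ℝ)) = 0 := by
          rw [AddCircle.coe_eq_zero_iff]
          exact ⟨⌊lam⌋, by simp⟩
        rw [h3, add_zero]
  have h1 := Set.ncard_le_ncard hsub
    (((Set.finite_Iio X).subset Set.inter_subset_right).union (Set.finite_Iio J0))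
  have h2 := h1.trans (Set.ncard_union_le _ _)
  have h3 : (Set.Iio J0).ncard = J0 := Set.ncard_Iio_nat J0
  rw [h3] at h2
  have h4 := hC X
  have h5 : (({J : ℕ | ∀ i, I ≤ i → i < I' →
      ⌊c / 6 ^ J * (3 / 2) ^ (n0 c J + i)⌋₊ % 6 ^ ℓ ≠ W} ∩ Set.Iio X).ncard : ℝ) ≤
      ({J : ℕ | ((Real.logb (3 / 2) c : ℝ) : AddCircle (1 : ℝ)) +
        (J : ℤ) • ((-Real.logb (3 / 2) 6 : ℝ) : AddCircle (1 : ℝ)) ∈ V} ∩ Set.Iio X).ncard + J0 := by
    exact_mod_cast h2
  linarith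


/-! ### Assembling -/

lemma UD_empty {ε : ℝ} (hε : 0 ≤ ε) : UD ∅ ε :=
  ⟨0, fun X => by simp; positivity⟩

/-- If blocks without hits are rare then few hits are rare. -/
lemma many_hits (H : ℕ → ℕ → Prop)
    (hblock : ∀ (I : ℕ) (ε : ℝ), 0 < ε → ∃ I' : ℕ, UD {J : ℕ | ∀ i, I ≤ i → i < I' → ¬ H i J} ε)
    (M : ℕ) : ∀ ε : ℝ, 0 < ε → ∃ I' : ℕ, UD {J : ℕ | {i : ℕ | i < I' ∧ H i J}.ncard < M} ε := by
  induction M with
  | zero =>
    intro ε hε
    refine ⟨0, UD_mono_set (fun J hJ => ?_) (UD_empty hε.le)⟩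
    exact absurd hJ (Nat.not_lt_zero _)
  | succ M ih =>
    intro ε hε
    obtain ⟨I1, h1⟩ := ih (ε / 2) (by linarith)
    obtain ⟨I2, h2⟩ := hblock I1 (ε / 2) (by linarith)
    refine ⟨max I1 I2, ?_⟩
    have h3 := UD_union h1 h2
    rw [add_halves] at h3
    refine UD_mono_set (fun J hJ => ?_) h3
    by_contra hcon
    simp only [Set.mem_union, Set.mem_ofPred_eq, not_or, not_lt, not_forall, not_not] at hcon
    obtain ⟨hA, i, hi1, hi2, hi3⟩ := hcon
    have hsub : insert i {i : ℕ | i < I1 ∧ H i J} ⊆ {i : ℕ | i < max I1 I2 ∧ H i J} := by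
      intro k hk
      rcases hk with rfl | hk
      · exact ⟨lt_of_lt_of_le hi2 (le_max_right _ _), hi3⟩
      · exact ⟨lt_of_lt_of_le hk.1 (le_max_left _ _), hk.2⟩
    have hfin : {i : ℕ | i < max I1 I2 ∧ H i J}.Finite :=
      (Set.finite_Iio (max I1 I2)).subset fun k hk => hk.1
    have hfin1 : {i : ℕ | i < I1 ∧ H i J}.Finite :=
      (Set.finite_Iio I1).subset fun k hk => hk.1
    have hni : i ∉ {i : ℕ | i < I1 ∧ H i J} := fun hk => absurd hk.1 (not_lt.mpr hi1)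
    have h4 := Set.ncard_le_ncard hsub hfin
    rw [Set.ncard_insert_of_notMem hni hfin1] at h4
    have h5 : {i : ℕ | i < max I1 I2 ∧ H i J}.ncard < M + 1 := hJ
    omega

lemma few_encard (H : ℕ → ℕ → Prop)
    (hblock : ∀ (I : ℕ) (ε : ℝ), 0 < ε → ∃ I' : ℕ, UD {J : ℕ | ∀ i, I ≤ i → i < I' → ¬ H i J} ε)
    (M : ℕ) (ε : ℝ) (hε : 0 < ε) : UD {J : ℕ | {i : ℕ | H i J}.encard < M} ε := by
  obtain ⟨I', h⟩ := many_hits H hblock M ε hε
  refine UD_mono_set (fun J hJ => ?_) h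
  have hfin : {i : ℕ | i < I' ∧ H i J}.Finite := (Set.finite_Iio I').subset fun k hk => hk.1
  have h1 : {i : ℕ | i < I' ∧ H i J}.encard ≤ {i : ℕ | H i J}.encard :=
    Set.encard_le_encard fun k hk => hk.2
  have h2 : ({i : ℕ | i < I' ∧ H i J}.ncard : ℕ∞) < M := by
    rw [hfin.cast_ncard_eq]
    exact lt_of_le_of_lt h1 hJ
  have h3 : {i : ℕ | i < I' ∧ H i J}.ncard < M := by exact_mod_cast h2
  exact h3

/-- The number whose base-6 digits are the letters of `w`. -/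
lemma exists_code {ℓ : ℕ} (w : Fin ℓ → Fin 6) :
    ∃ W : ℕ, W < 6 ^ ℓ ∧ ∀ i : Fin ℓ, W / 6 ^ (ℓ - 1 - (i : ℕ)) % 6 = (w i : ℕ) := by
  obtain ⟨W, hW, h⟩ := exists_digits
    (fun k => if hk : k < ℓ then w ⟨ℓ - 1 - k, by omega⟩ else 0) ℓ
  refine ⟨W, hW, fun i => ?_⟩
  have hi := i.isLt
  rw [h (ℓ - 1 - i) (by omega)]
  rw [dif_pos (by omega)]
  congr 2
  apply Fin.ext
  simp only
  omega

lemma shows_of_floor {ℓ W : ℕ} {w : Fin ℓ → Fin 6}
    (hW : ∀ i : Fin ℓ, W / 6 ^ (ℓ - 1 - (i : ℕ)) % 6 = (w i : ℕ)) {y : ℝ} {j : ℤ}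
    (h : ⌊(6 : ℝ) ^ (j + ℓ - 1) * y⌋₊ % 6 ^ ℓ = W) : Shows (dig y) j w := by
  intro i
  apply Fin.ext
  have hi := i.isLt
  unfold dig
  simp only
  set k := ℓ - 1 - (i : ℕ) with hk
  have h1 : ⌊(6 : ℝ) ^ (j + i) * y⌋₊ = ⌊(6 : ℝ) ^ (j + ℓ - 1) * y⌋₊ / 6 ^ k := by
    have h2 : (6 : ℝ) ^ (j + i) * y = (6 : ℝ) ^ (j + ℓ - 1) * y / ((6 ^ k : ℕ) : ℝ) := by
      have hi2 : j + i = (j + ℓ - 1) - (k : ℤ) := by omega
      rw [hi2, zpow_sub₀ (by norm_num : (6 : ℝ) ≠ 0) _ (k : ℤ), zpow_natCast]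
      push_cast
      ring
    rw [h2, Nat.floor_div_natCast]
  rw [h1, ← hW i, ← h]
  have h3 : (6 : ℕ) ^ ℓ = 6 ^ k * 6 * 6 ^ (ℓ - 1 - k) := by
    rw [← pow_succ, ← pow_add]
    congr 1
    omega
  rw [← Nat.mod_mul_right_div_self, ← Nat.mod_mul_right_div_self (_ % 6 ^ ℓ), h3,
    Nat.mod_mul_right_mod]

/-- Positions where the word `w` occurs fewer than `M` times. -/
def Rare {ℓ : ℕ} (x : Config) (w : Fin ℓ → Fin 6) (M : ℕ) : Set ℤ :=
  {j : ℤ | {n : ℕ | Shows (F^[n] x) j w}.encard < M}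

lemma rare_right {ℓ : ℕ} (hℓ : 0 < ℓ) {N r : ℕ} (hN : 0 < N) (w : Fin ℓ → Fin 6) (M : ℕ) (ε : ℝ)
    (hε : 0 < ε) : UD {K : ℕ | ((K : ℤ) + r - ℓ + 1) ∈ Rare (dig ((N : ℝ) / 6 ^ r)) w M} ε := by
  obtain ⟨W, hW, hWd⟩ := exists_code w
  have h := few_encard (fun i K => e ℓ i (N * 9 ^ K) = W)
    (fun I ε hε => right_block hℓ hW hN I ε hε) M ε hε
  refine UD_mono_set (fun K hK => ?_) h
  have hK' : {n : ℕ | Shows (F^[n] (dig ((N : ℝ) / 6 ^ r))) ((K : ℤ) + r - ℓ + 1) w}.encard < M := hK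
  refine lt_of_le_of_lt ?_ hK'
  have hinj : Function.Injective (fun i : ℕ => K + i) := fun a b h => by simpa using h
  rw [← hinj.encard_image]
  apply Set.encard_le_encard
  rintro _ ⟨i, hi, rfl⟩
  have hi' : e ℓ i (N * 9 ^ K) = W := hi
  change Shows (F^[K + i] (dig ((N : ℝ) / 6 ^ r))) ((K : ℤ) + r - ℓ + 1) w
  rw [iter_F_dig]
  apply shows_of_floor hWd
  rw [← hi']
  unfold e
  congr 1
  have h1 : (K : ℤ) + r - ℓ + 1 + ℓ - 1 = ((K + r : ℕ) : ℤ) := by push_cast; ring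
  rw [h1, zpow_natCast]
  have h2 : (6 : ℝ) ^ (K + r) * ((N : ℝ) / 6 ^ r * (3 / 2) ^ (K + i))
      = ((N * 9 ^ K * 3 ^ i : ℕ) : ℝ) / ((2 ^ i : ℕ) : ℝ) := by
    have h69 : (6 : ℝ) ^ K * (3 / 2) ^ K = 9 ^ K := by rw [← mul_pow]; norm_num
    push_cast
    rw [pow_add, pow_add, ← h69]
    field_simp
    rw [← mul_pow (3 / 2 : ℝ) 2 i]
    norm_num
  rw [h2, Nat.floor_div_natCast, Nat.floor_natCast]

lemma rare_left {ℓ : ℕ} (hℓ : 0 < ℓ) {z : ℝ} (hz : 0 < z) (w : Fin ℓ → Fin 6) (M : ℕ) (ε : ℝ)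
    (hε : 0 < ε) : UD {J : ℕ | (-(J : ℤ)) ∈ Rare (dig z) w M} ε := by
  obtain ⟨W, hW, hWd⟩ := exists_code w
  set c : ℝ := z * 6 ^ (ℓ - 1) with hc
  have hc0 : 0 < c := by positivity
  have h := few_encard (fun i J => ⌊c / 6 ^ J * (3 / 2) ^ (n0 c J + i)⌋₊ % 6 ^ ℓ = W)
    (fun I ε hε => left_block hW hc0 I ε hε) M ε hε
  refine UD_mono_set (fun J hJ => ?_) h
  have hJ' : {n : ℕ | Shows (F^[n] (dig z)) (-(J : ℤ)) w}.encard < M := hJ
  refine lt_of_le_of_lt ?_ hJ'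
  have hinj : Function.Injective (fun i : ℕ => n0 c J + i) := fun a b h => by simpa using h
  rw [← hinj.encard_image]
  apply Set.encard_le_encard
  rintro _ ⟨i, hi, rfl⟩
  have hi' : ⌊c / 6 ^ J * (3 / 2) ^ (n0 c J + i)⌋₊ % 6 ^ ℓ = W := hi
  change Shows (F^[n0 c J + i] (dig z)) (-(J : ℤ)) w
  rw [iter_F_dig]
  apply shows_of_floor hWd
  rw [← hi']
  congr 2
  have h1 : (-(J : ℤ)) + ℓ - 1 = ((ℓ - 1 : ℕ) : ℤ) - J := by omega
  rw [h1, zpow_sub₀ (by norm_num : (6 : ℝ) ≠ 0), zpow_natCast, zpow_natCast, hc]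
  ring

lemma UD_shift {B : Set ℤ} {ε : ℝ} (s : ℤ) (h : UD {K : ℕ | ((K : ℤ) + s) ∈ B} ε) :
    UD {j : ℕ | (j : ℤ) ∈ B} ε := by
  obtain ⟨C, hC⟩ := h
  set a : ℕ := s.natAbs with ha
  refine ⟨ε * a + C + a, fun X => ?_⟩
  have hcard : ({j : ℕ | (j : ℤ) ∈ B} ∩ Set.Iio X).ncard
      ≤ ({K : ℕ | ((K : ℤ) + s) ∈ B} ∩ Set.Iio (X + a)).ncard + a := by
    have hsub : {j : ℕ | (j : ℤ) ∈ B} ∩ Set.Iio X ⊆
        ((fun K : ℕ => ((K : ℤ) + s).toNat) '' ({K : ℕ | ((K : ℤ) + s) ∈ B} ∩ Set.Iio (X + a))) ∪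
          Set.Iio a := by
      rintro j ⟨hj, hjX⟩
      rw [Set.mem_Iio] at hjX
      rcases lt_or_ge j a with hja | hja
      · right; exact hja
      · left
        refine ⟨((j : ℤ) - s).toNat, ⟨?_, ?_⟩, ?_⟩
        · have h1 : ((((j : ℤ) - s).toNat : ℕ) : ℤ) + s = j := by omega
          rw [Set.mem_ofPred_eq, h1]
          exact hj
        · rw [Set.mem_Iio]; omega
        · simp only
          omega
    have hfin : ({K : ℕ | ((K : ℤ) + s) ∈ B} ∩ Set.Iio (X + a)).Finite :=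
      (Set.finite_Iio _).subset Set.inter_subset_right
    refine (Set.ncard_le_ncard hsub ((hfin.image _).union (Set.finite_Iio a))).trans ?_
    refine (Set.ncard_union_le _ _).trans ?_
    rw [Set.ncard_Iio_nat]
    exact Nat.add_le_add_right (Set.ncard_image_le hfin) _
  have h1 := hC (X + a)
  have h2 : (({j : ℕ | (j : ℤ) ∈ B} ∩ Set.Iio X).ncard : ℝ)
      ≤ ({K : ℕ | ((K : ℤ) + s) ∈ B} ∩ Set.Iio (X + a)).ncard + a := by exact_mod_cast hcard
  push_cast at h1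
  linarith

/-- Density in `ℤ`. -/
def UDZ (B : Set ℤ) (ε : ℝ) : Prop :=
  ∃ C : ℝ, ∀ X : ℕ, ((B ∩ {j : ℤ | |j| ≤ X}).ncard : ℝ) ≤ ε * (2 * X + 1) + C

lemma finite_abs_le (X : ℕ) : {j : ℤ | |j| ≤ X}.Finite := by
  apply (Set.finite_Icc (-(X : ℤ)) X).subset
  intro j hj
  exact abs_le.mp hj

lemma ncard_abs_le (X : ℕ) : {j : ℤ | |j| ≤ X}.ncard = 2 * X + 1 := by
  have : {j : ℤ | |j| ≤ X} = ((Finset.Icc (-(X : ℤ)) X : Finset ℤ) : Set ℤ) := by
    ext j
    simp [abs_le]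
  rw [this, Set.ncard_coe_finset, Int.card_Icc]
  omega

lemma UDZ_of_sides {B : Set ℤ} {ε : ℝ} (h1 : UD {j : ℕ | (j : ℤ) ∈ B} ε)
    (h2 : UD {J : ℕ | (-(J : ℤ)) ∈ B} ε) : UDZ B ε := by
  obtain ⟨C1, hC1⟩ := h1
  obtain ⟨C2, hC2⟩ := h2
  refine ⟨|ε| + C1 + C2, fun X => ?_⟩
  have hsub : B ∩ {j : ℤ | |j| ≤ X} ⊆
      ((fun j : ℕ => (j : ℤ)) '' ({j : ℕ | (j : ℤ) ∈ B} ∩ Set.Iio (X + 1))) ∪
      ((fun j : ℕ => -(j : ℤ)) '' ({J : ℕ | (-(J : ℤ)) ∈ B} ∩ Set.Iio (X + 1))) := by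
    rintro j ⟨hj, hjX⟩
    have hjX' : |j| ≤ X := hjX
    rw [abs_le] at hjX'
    rcases le_total 0 j with h0 | h0
    · left
      refine ⟨j.toNat, ⟨?_, ?_⟩, ?_⟩
      · rw [Set.mem_ofPred_eq, Int.toNat_of_nonneg h0]; exact hj
      · rw [Set.mem_Iio]; omega
      · exact Int.toNat_of_nonneg h0
    · right
      refine ⟨(-j).toNat, ⟨?_, ?_⟩, ?_⟩
      · rw [Set.mem_ofPred_eq, Int.toNat_of_nonneg (by omega), neg_neg]; exact hj
      · rw [Set.mem_Iio]; omega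
      · simp only
        rw [Int.toNat_of_nonneg (by omega), neg_neg]
  have hf1 : ({j : ℕ | (j : ℤ) ∈ B} ∩ Set.Iio (X + 1)).Finite :=
    (Set.finite_Iio _).subset Set.inter_subset_right
  have hf2 : ({J : ℕ | (-(J : ℤ)) ∈ B} ∩ Set.Iio (X + 1)).Finite :=
    (Set.finite_Iio _).subset Set.inter_subset_right
  have h3 := (Set.ncard_le_ncard hsub ((hf1.image _).union (hf2.image _))).trans
    ((Set.ncard_union_le _ _).trans (add_le_add (Set.ncard_image_le hf1) (Set.ncard_image_le hf2)))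
  have h4 := hC1 (X + 1)
  have h5 := hC2 (X + 1)
  have h6 : ((B ∩ {j : ℤ | |j| ≤ X}).ncard : ℝ) ≤
      ({j : ℕ | (j : ℤ) ∈ B} ∩ Set.Iio (X + 1)).ncard +
      ({J : ℕ | (-(J : ℤ)) ∈ B} ∩ Set.Iio (X + 1)).ncard := by exact_mod_cast h3
  push_cast at h4 h5
  have := le_abs_self ε
  linarith

lemma UDZ_iUnion {ι : Type} (s : Finset ι) (B : ι → Set ℤ) (ε : ℝ)
    (h : ∀ w, UDZ (B w) ε) : UDZ (⋃ w ∈ s, B w) (s.card * ε) := by
  classical
  induction s using Finset.induction_on with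
  | empty => exact ⟨0, fun X => by simp⟩
  | insert a s ha ih =>
    obtain ⟨C, hC⟩ := ih
    obtain ⟨C', hC'⟩ := h a
    refine ⟨C + C', fun X => ?_⟩
    rw [Finset.set_biUnion_insert, Set.union_inter_distrib_right]
    have h1 : (((B a ∩ {j : ℤ | |j| ≤ X}) ∪ ((⋃ w ∈ s, B w) ∩ {j : ℤ | |j| ≤ X})).ncard : ℝ)
        ≤ (B a ∩ {j : ℤ | |j| ≤ X}).ncard + ((⋃ w ∈ s, B w) ∩ {j : ℤ | |j| ≤ X}).ncard := by
      exact_mod_cast Set.ncard_union_le _ _
    have h2 := hC X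
    have h3 := hC' X
    rw [Finset.card_insert_of_notMem ha]
    push_cast
    linarith

lemma rare_UDZ {x : Config} (hx : IsFin x) (hne : x ≠ 0) {ℓ : ℕ} (w : Fin ℓ → Fin 6) (M : ℕ)
    (ε : ℝ) (hε : 0 < ε) : UDZ (Rare x w M) ε := by
  obtain ⟨N, r, rfl⟩ := fin_eq_dig hx
  have hN : N ≠ 0 := by
    rintro rfl
    apply hne
    funext i
    apply Fin.ext
    simp [dig]
  have hN0 : 0 < N := Nat.pos_of_ne_zero hN
  rcases Nat.eq_zero_or_pos ℓ with hℓ | hℓ
  · subst hℓ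
    have hempty : Rare (dig ((N : ℝ) / 6 ^ r)) w M = ∅ := by
      rw [Set.eq_empty_iff_forall_notMem]
      intro j hj
      have h1 : {n : ℕ | Shows (F^[n] (dig ((N : ℝ) / 6 ^ r))) j w}.encard < M := hj
      have h2 : {n : ℕ | Shows (F^[n] (dig ((N : ℝ) / 6 ^ r))) j w} = Set.univ := by
        rw [Set.eq_univ_iff_forall]
        intro n i
        exact i.elim0
      rw [h2, Set.encard_eq_top (Set.infinite_univ)] at h1
      exact absurd h1 (not_lt.mpr le_top)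
    rw [hempty]
    exact ⟨0, fun X => by simp; positivity⟩
  · apply UDZ_of_sides
    · apply UD_shift ((r : ℤ) - ℓ + 1)
      have h := rare_right hℓ (r := r) hN0 w M ε hε
      refine UD_mono_set (fun K hK => ?_) h
      have e1 : (K : ℤ) + ((r : ℤ) - ℓ + 1) = (K : ℤ) + r - ℓ + 1 := by ring
      rw [Set.mem_ofPred_eq] at hK ⊢
      rw [← e1]
      exact hK
    · exact rare_left hℓ (by positivity) w M ε hε

/-- **Main theorem.** Let `x` be a finite configuration other than the all-zero one.  For all `ℓ`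
and `M`, the set of positions `j ∈ ℤ` such that every word `w` of length `ℓ` is shown by `F^n(x)`
starting at the position `j` for at least `M` values of `n ≥ 0` has natural density one. -/
theorem result (x : Config) (hx : IsFin x) (hne : x ≠ 0) (ℓ M : ℕ) :
    Tendsto (fun X : ℕ =>
      (Set.ncard {j : ℤ | |j| ≤ X ∧
        ∀ w : Fin ℓ → Fin 6, (M : ℕ∞) ≤ Set.encard {n : ℕ | Shows (F^[n] x) j w}} : ℝ)
        / (2 * X + 1)) atTop (𝓝 1) := by
  classical
  set G : ℕ → Set ℤ := fun X => {j : ℤ | |j| ≤ X ∧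
        ∀ w : Fin ℓ → Fin 6, (M : ℕ∞) ≤ Set.encard {n : ℕ | Shows (F^[n] x) j w}} with hG
  set Bad : Set ℤ := ⋃ w ∈ (Finset.univ : Finset (Fin ℓ → Fin 6)), Rare x w M with hBad
  have hsplit : ∀ X : ℕ, G X = {j : ℤ | |j| ≤ X} \ (Bad ∩ {j : ℤ | |j| ≤ X}) := by
    intro X
    ext j
    simp only [hG, hBad, Rare, Set.mem_ofPred_eq, Set.mem_sdiff, Set.mem_inter_iff, Set.mem_iUnion,
      Finset.mem_univ, exists_prop, true_and, not_and]
    constructor
    · rintro ⟨h1, h2⟩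
      refine ⟨h1, fun h3 => ?_⟩
      obtain ⟨w, hw⟩ := h3
      exact absurd hw (not_lt.mpr (h2 w))
    · rintro ⟨h1, h2⟩
      refine ⟨h1, fun w => ?_⟩
      by_contra hcon
      exact h2 ⟨w, not_le.mp hcon⟩ h1
  have hcard : ∀ X : ℕ, ((G X).ncard : ℝ) = (2 * X + 1) - (Bad ∩ {j : ℤ | |j| ≤ X}).ncard := by
    intro X
    rw [hsplit X]
    have h1 := Set.ncard_sdiff_add_ncard_of_subset
      (Set.inter_subset_right : (Bad ∩ {j : ℤ | |j| ≤ X}) ⊆ {j : ℤ | |j| ≤ X}) (finite_abs_le X)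
    rw [ncard_abs_le] at h1
    have h2 : ((({j : ℤ | |j| ≤ X} \ (Bad ∩ {j : ℤ | |j| ≤ X})).ncard : ℕ) : ℝ) +
        ((Bad ∩ {j : ℤ | |j| ≤ X}).ncard : ℝ) = 2 * X + 1 := by exact_mod_cast h1
    linarith
  change Tendsto (fun X : ℕ => ((G X).ncard : ℝ) / (2 * X + 1)) atTop (𝓝 1)
  rw [Metric.tendsto_atTop]
  intro η hη
  set m : ℕ := (Finset.univ : Finset (Fin ℓ → Fin 6)).card with hm
  set ε : ℝ := η / (2 * (m + 1)) with hεdef
  have hε : 0 < ε := by positivity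
  obtain ⟨C, hC⟩ := UDZ_iUnion (Finset.univ : Finset (Fin ℓ → Fin 6)) (fun w => Rare x w M) ε
    (fun w => rare_UDZ hx hne w M ε hε)
  obtain ⟨X0, hX0⟩ := exists_nat_gt (|C| / (η / 4))
  refine ⟨X0, fun X hX => ?_⟩
  have hXpos : (0 : ℝ) < 2 * X + 1 := by positivity
  have h1 := hC X
  rw [Real.dist_eq, hcard X, sub_div, div_self hXpos.ne', sub_sub_cancel_left, abs_neg, abs_of_nonneg (by positivity)]
  rw [div_lt_iff₀ hXpos]
  have hmε : (m : ℝ) * ε ≤ η / 2 := by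
    rw [hεdef]
    rw [mul_div_assoc', div_le_div_iff₀ (by positivity) (by norm_num)]
    nlinarith [Nat.cast_nonneg (α := ℝ) m]
  have hCX : C ≤ η / 4 * X := by
    have h2 : |C| / (η / 4) < X := lt_of_lt_of_le hX0 (by exact_mod_cast hX)
    rw [div_lt_iff₀ (by positivity)] at h2
    have := le_abs_self C
    linarith
  have h3 : (m : ℝ) * ε * (2 * X + 1) ≤ η / 2 * (2 * X + 1) :=
    mul_le_mul_of_nonneg_right hmε hXpos.le
  have hX0' : (0 : ℝ) ≤ X := Nat.cast_nonneg X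
  calc ((Bad ∩ {j : ℤ | |j| ≤ X}).ncard : ℝ) ≤ m * ε * (2 * X + 1) + C := h1
    _ ≤ η / 2 * (2 * X + 1) + η / 4 * X := by linarith
    _ < η * (2 * X + 1) := by nlinarith

end Pool.Agent.Results.MP_cc0c1a_nt.AlmostAllPositions
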