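import Mathlib
import Pool.Agent.Lib.MP_cc0c1a_nt.Core

set_option autoImplicit false

open Filter Topology

open Pool.Agent.Lib.MP_cc0c1a_nt (T Seq Gd Esc core exists_rep coe_int nsmul_coe norm_coe_le)

namespace Pool.Agent.Results.MP_cc0c1a_nt.DensityOnePositions

/-- A configuration: a two-sided infinite word over the alphabet `{0,...,5}`, with the product
topology of the discrete topology. -/
abbrev Config : Type := ℤ → Fin 6

/-- The local rule `f(s,t) = (3 s mod 6) + ⌊3 t / 6⌋`. -/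
def localRule (s t : Fin 6) : Fin 6 :=
  ⟨(3 * s.val) % 6 + (3 * t.val) / 6, by omega⟩

/-- The automaton `F_{×3}`. -/
def Fx3 (x : Config) : Config := fun i => localRule (x i) (x (i + 1))

/-- The right shift `σ⁻¹`. -/
def rightShift (x : Config) : Config := fun i => x (i - 1)

/-- The automaton `F = F_{×3} ∘ F_{×3} ∘ σ⁻¹`. -/
def F (x : Config) : Config := Fx3 (Fx3 (rightShift x))

/-- Finite configurations: only finitely many nonzero digits. -/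
def IsFin (x : Config) : Prop := {i : ℤ | x i ≠ 0}.Finite

/-- The configuration `y` shows the word `w` of length `ℓ` starting at the position `j`. -/
def Shows {ℓ : ℕ} (y : Config) (j : ℤ) (w : Fin ℓ → Fin 6) : Prop := ∀ i : Fin ℓ, y (j + i) = w i

/-! ### The configuration of digits of a real number -/

/-- Digit configuration of a nonnegative real number. -/
noncomputable def dig (z : ℝ) : Config :=
  fun i => ⟨⌊(6 : ℝ) ^ i * z⌋₊ % 6, Nat.mod_lt _ (by norm_num)⟩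

lemma rightShift_dig (z : ℝ) : rightShift (dig z) = dig (z / 6) := by
  funext i
  unfold rightShift dig
  apply Fin.ext
  simp only
  congr 2
  rw [zpow_sub_one₀ (by norm_num : (6:ℝ) ≠ 0)]
  ring

lemma Fx3_dig (z : ℝ) : Fx3 (dig z) = dig (3 * z) := by
  funext i
  unfold Fx3 dig localRule
  apply Fin.ext
  simp only
  set u := ⌊(6 : ℝ) ^ (i + 1) * z⌋₊ with hu
  have h1 : ⌊(6 : ℝ) ^ i * z⌋₊ = u / 6 := by
    rw [hu, ← Nat.floor_div_natCast]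
    congr 1
    rw [zpow_add_one₀ (by norm_num : (6:ℝ) ≠ 0)]
    push_cast
    ring
  have h2 : ⌊(6 : ℝ) ^ i * (3 * z)⌋₊ = u / 2 := by
    rw [hu, ← Nat.floor_div_natCast]
    congr 1
    rw [zpow_add_one₀ (by norm_num : (6:ℝ) ≠ 0)]
    push_cast
    ring
  rw [h1, h2]
  omega

lemma F_dig (z : ℝ) : F (dig z) = dig (z * (3 / 2)) := by
  unfold F
  rw [rightShift_dig, Fx3_dig, Fx3_dig]
  congr 1
  ring

lemma iter_F_dig (z : ℝ) (n : ℕ) : F^[n] (dig z) = dig (z * (3 / 2) ^ n) := by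
  induction n with
  | zero => simp
  | succ n ih =>
    rw [Function.iterate_succ_apply', ih, F_dig]
    congr 1
    ring

/-- Every word is the word of base-6 digits of a natural number. -/
lemma exists_digits (a : ℕ → Fin 6) (n : ℕ) :
    ∃ N : ℕ, N < 6 ^ n ∧ ∀ k, k < n → N / 6 ^ k % 6 = (a k : ℕ) := by
  induction n with
  | zero => exact ⟨0, by simp, by intro k hk; omega⟩
  | succ n ih =>
    obtain ⟨N, hN, h⟩ := ih
    refine ⟨N + 6 ^ n * (a n : ℕ), ?_, ?_⟩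
    · have := (a n).isLt
      calc N + 6 ^ n * (a n : ℕ) < 6 ^ n + 6 ^ n * (a n : ℕ) := by omega
        _ = 6 ^ n * ((a n : ℕ) + 1) := by ring
        _ ≤ 6 ^ n * 6 := Nat.mul_le_mul_left _ (by omega)
        _ = 6 ^ (n + 1) := by ring
    · intro k hk
      rcases Nat.lt_succ_iff_lt_or_eq.mp hk with hk' | rfl
      · rw [← h k hk']
        have : 6 ^ n = 6 ^ k * (6 * 6 ^ (n - k - 1)) := by
          rw [← pow_succ', ← pow_add]
          congr 1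
          omega
        rw [this, mul_assoc, Nat.add_mul_div_left _ _ (by positivity), mul_assoc,
          Nat.add_mul_mod_self_left]
      · rw [Nat.add_mul_div_left _ _ (by positivity), Nat.div_eq_of_lt hN, zero_add,
          Nat.mod_eq_of_lt (a k).isLt]

lemma floor_zpow_neg (N : ℕ) (k : ℕ) : ⌊(6 : ℝ) ^ (-(k : ℤ)) * N⌋₊ = N / 6 ^ k := by
  have : (6 : ℝ) ^ (-(k : ℤ)) * N = (N : ℝ) / ((6 ^ k : ℕ) : ℝ) := by
    rw [zpow_neg, zpow_natCast]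
    push_cast
    field_simp
  rw [this, Nat.floor_div_natCast, Nat.floor_natCast]

/-- Every finite configuration is the digit configuration of some `N / 6 ^ r`. -/
lemma fin_eq_dig {x : Config} (hx : IsFin x) : ∃ N r : ℕ, x = dig ((N : ℝ) / 6 ^ r) := by
  obtain ⟨B, hB⟩ : ∃ B : ℕ, ∀ i : ℤ, x i ≠ 0 → |i| ≤ B := by
    obtain ⟨b, hb⟩ := (hx.image (fun i : ℤ => |i|)).bddAbove
    refine ⟨b.toNat, fun i hi => ?_⟩
    have : |i| ≤ b := hb ⟨i, hi, rfl⟩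
    have h2 := Int.self_le_toNat b
    omega
  obtain ⟨N, hN, h⟩ := exists_digits (fun k => x ((B : ℤ) - k)) (2 * B + 1)
  refine ⟨N, B, ?_⟩
  funext i
  apply Fin.ext
  unfold dig
  simp only
  have hre : (6 : ℝ) ^ i * ((N : ℝ) / 6 ^ B) = (6 : ℝ) ^ (i - B) * N := by
    rw [zpow_sub₀ (by norm_num : (6:ℝ) ≠ 0), zpow_natCast]
    ring
  rw [hre]
  rcases le_or_gt i B with hi | hi
  · obtain ⟨k, hk⟩ : ∃ k : ℕ, (B : ℤ) - i = k := ⟨((B : ℤ) - i).toNat, by omega⟩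
    have hi' : i - B = -(k : ℤ) := by omega
    rw [hi', floor_zpow_neg]
    rcases lt_or_ge k (2 * B + 1) with hk2 | hk2
    · rw [h k hk2]
      congr 2
      omega
    · have h0 : x i = 0 := by
        by_contra hne
        have := hB i hne
        rw [abs_le] at this
        omega
      rw [h0, Nat.div_eq_of_lt (lt_of_lt_of_le hN (Nat.pow_le_pow_right (by norm_num) hk2))]
      rfl
  · have h0 : x i = 0 := by
      by_contra hne
      have := hB i hne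
      rw [abs_le] at this
      omega
    obtain ⟨k, hk⟩ : ∃ k : ℕ, i - (B : ℤ) = (k : ℤ) + 1 := ⟨(i - (B : ℤ) - 1).toNat, by omega⟩
    rw [hk, h0]
    have : (6 : ℝ) ^ ((k : ℤ) + 1) * N = ((6 * (6 ^ k * N) : ℕ) : ℝ) := by
      rw [zpow_add_one₀ (by norm_num : (6:ℝ) ≠ 0), zpow_natCast]
      push_cast
      ring
    rw [this, Nat.floor_natCast, Nat.mul_mod_right]
    rfl

/-- The number whose base-6 digits are the letters of `w`. -/
lemma exists_code {ℓ : ℕ} (w : Fin ℓ → Fin 6) :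
    ∃ W : ℕ, W < 6 ^ ℓ ∧ ∀ i : Fin ℓ, W / 6 ^ (ℓ - 1 - (i : ℕ)) % 6 = (w i : ℕ) := by
  obtain ⟨W, hW, h⟩ := exists_digits
    (fun k => if hk : k < ℓ then w ⟨ℓ - 1 - k, by omega⟩ else 0) ℓ
  refine ⟨W, hW, fun i => ?_⟩
  have hi := i.isLt
  rw [h (ℓ - 1 - i) (by omega)]
  rw [dif_pos (by omega)]
  congr 2
  apply Fin.ext
  simp only
  omega

lemma shows_of_floor {ℓ W : ℕ} {w : Fin ℓ → Fin 6}
    (hW : ∀ i : Fin ℓ, W / 6 ^ (ℓ - 1 - (i : ℕ)) % 6 = (w i : ℕ)) {y : ℝ} {j : ℤ}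
    (h : ⌊(6 : ℝ) ^ (j + ℓ - 1) * y⌋₊ % 6 ^ ℓ = W) : Shows (dig y) j w := by
  intro i
  apply Fin.ext
  have hi := i.isLt
  unfold dig
  simp only
  set k := ℓ - 1 - (i : ℕ) with hk
  have h1 : ⌊(6 : ℝ) ^ (j + i) * y⌋₊ = ⌊(6 : ℝ) ^ (j + ℓ - 1) * y⌋₊ / 6 ^ k := by
    have h2 : (6 : ℝ) ^ (j + i) * y = (6 : ℝ) ^ (j + ℓ - 1) * y / ((6 ^ k : ℕ) : ℝ) := by
      have hi2 : j + i = (j + ℓ - 1) - (k : ℤ) := by omega
      rw [hi2, zpow_sub₀ (by norm_num : (6 : ℝ) ≠ 0) _ (k : ℤ), zpow_natCast]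
      push_cast
      ring
    rw [h2, Nat.floor_div_natCast]
  rw [h1, ← hW i, ← h]
  have h3 : (6 : ℕ) ^ ℓ = 6 ^ k * 6 * 6 ^ (ℓ - 1 - k) := by
    rw [← pow_succ, ← pow_add]
    congr 1
    omega
  rw [← Nat.mod_mul_right_div_self, ← Nat.mod_mul_right_div_self (_ % 6 ^ ℓ), h3,
    Nat.mod_mul_right_mod]


/-- The open arc `(c/L, (c+1)/L)`. -/
def arc (L c : ℕ) : Set T := (fun r : ℝ => (r : T)) '' Set.Ioo ((c : ℝ) / L) ((c + 1) / L)

/-! ### The array of points of the circle attached to a real number -/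

/-- `ξ (3/2)^n 6^(j-1)` modulo one. Its base-6 digits after the point are the digits of
`F^n` of the configuration of `ξ` from the position `j` on. -/
noncomputable def Y (ξ : ℝ) (n : ℕ) (j : ℤ) : T := ((ξ * (3 / 2) ^ n * (6 : ℝ) ^ (j - 1) : ℝ) : T)

lemma Y_mul (ξ : ℝ) (n : ℕ) (j : ℤ) {a : ℕ} (ha : a ≤ n) (b : ℕ) :
    (4 ^ a * 9 ^ b) • Y ξ n j = Y ξ (n - a + b) (j + (a + b : ℕ)) := by
  obtain ⟨m, rfl⟩ := Nat.exists_eq_add_of_le ha
  unfold Y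
  rw [nsmul_coe]
  congr 1
  have h1 : a + m - a + b = m + b := by omega
  have h2 : j + ((a + b : ℕ) : ℤ) - 1 = (j - 1) + ((a + b : ℕ) : ℤ) := by ring
  have h3 : (6 : ℝ) ^ (j - 1 + ((a + b : ℕ) : ℤ)) = 6 ^ (j - 1) * (6 ^ a * 6 ^ b) := by
    rw [zpow_add₀ (by norm_num : (6 : ℝ) ≠ 0), zpow_natCast, pow_add]
  have h4 : (4 : ℝ) ^ a * (3 / 2) ^ a = 6 ^ a := by rw [← mul_pow]; norm_num
  have h5 : (3 / 2 : ℝ) ^ b * 6 ^ b = 9 ^ b := by rw [← mul_pow]; norm_num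
  rw [h1, h2, h3, pow_add, pow_add, ← h4]
  push_cast
  rw [← h5]
  ring

lemma Y_next (ξ : ℝ) (n : ℕ) (j : ℤ) : 2 • Y ξ (n + 1) j = 3 • Y ξ n j := by
  unfold Y
  rw [nsmul_coe, nsmul_coe]
  congr 1
  push_cast
  ring

lemma shows_of_arc {ℓ W : ℕ} {w : Fin ℓ → Fin 6}
    (hW : ∀ i : Fin ℓ, W / 6 ^ (ℓ - 1 - (i : ℕ)) % 6 = (w i : ℕ)) (hWlt : W < 6 ^ ℓ) {ξ : ℝ}
    (hξ : 0 < ξ) {n : ℕ} {j : ℤ} (h : Y ξ n j ∈ arc (6 ^ ℓ) W) :
    Shows (F^[n] (dig ξ)) j w := by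
  rw [iter_F_dig]
  apply shows_of_floor hW
  obtain ⟨r, ⟨hr1, hr2⟩, hr⟩ := h
  have hr' : ((r : ℝ) : T) = ((ξ * (3 / 2) ^ n * (6 : ℝ) ^ (j - 1) : ℝ) : T) := hr
  have h0 : ((ξ * (3 / 2) ^ n * (6 : ℝ) ^ (j - 1) - r : ℝ) : T) = 0 := by
    rw [AddCircle.coe_sub, hr', sub_self]
  rw [AddCircle.coe_eq_zero_iff] at h0
  obtain ⟨m, hm⟩ := h0
  have hm' : ξ * (3 / 2) ^ n * (6 : ℝ) ^ (j - 1) = m + r := by
    have : ((m : ℤ) : ℝ) = ξ * (3 / 2) ^ n * (6 : ℝ) ^ (j - 1) - r := by simpa using hm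
    linarith
  have hL : (0 : ℝ) < ((6 ^ ℓ : ℕ) : ℝ) := by positivity
  rw [div_lt_iff₀ hL] at hr1
  rw [lt_div_iff₀ hL] at hr2
  have hpos : 0 < ξ * (3 / 2) ^ n * (6 : ℝ) ^ (j - 1) := by positivity
  have hr3 : r < 1 := by
    have h1 : (W : ℝ) + 1 ≤ ((6 ^ ℓ : ℕ) : ℝ) := by exact_mod_cast hWlt
    by_contra hcon
    push Not at hcon
    nlinarith
  have hm0 : 0 ≤ m := by
    by_contra hcon
    push Not at hcon
    have h2 : (m : ℝ) ≤ -1 := by exact_mod_cast (by omega : m ≤ -1)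
    linarith
  obtain ⟨M, rfl⟩ := Int.eq_ofNat_of_zero_le hm0
  have h6 : (6 : ℝ) ^ (j + ℓ - 1) * (ξ * (3 / 2) ^ n) = ((6 ^ ℓ * M : ℕ) : ℝ) + r * ((6 ^ ℓ : ℕ) : ℝ) := by
    have h7 : j + (ℓ : ℤ) - 1 = (j - 1) + (ℓ : ℤ) := by ring
    rw [h7, zpow_add₀ (by norm_num : (6 : ℝ) ≠ 0), zpow_natCast]
    have h8 : (6 : ℝ) ^ (j - 1) * 6 ^ ℓ * (ξ * (3 / 2) ^ n)
        = (ξ * (3 / 2) ^ n * (6 : ℝ) ^ (j - 1)) * 6 ^ ℓ := by ring
    rw [h8, hm']
    push_cast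
    ring
  have h9 : ⌊(6 : ℝ) ^ (j + ℓ - 1) * (ξ * (3 / 2) ^ n)⌋₊ = 6 ^ ℓ * M + W := by
    rw [h6, Nat.floor_eq_iff (by
      have : (0 : ℝ) ≤ W := Nat.cast_nonneg W
      have : (0 : ℝ) ≤ ((6 ^ ℓ * M : ℕ) : ℝ) := Nat.cast_nonneg _
      linarith)]
    constructor
    · push_cast at hr1 ⊢
      linarith
    · push_cast at hr2 ⊢
      linarith
  rw [h9, Nat.mul_add_mod, Nat.mod_eq_of_lt hWlt]

lemma norm_div_two_pow {A m : ℕ} (h : ¬ 2 ^ m ∣ A) :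
    1 / (2 : ℝ) ^ m ≤ ‖(((A : ℝ) / 2 ^ m : ℝ) : T)‖ := by
  rw [UnitAddCircle.norm_eq]
  set k := round ((A : ℝ) / 2 ^ m) with hk
  have h2 : (0 : ℝ) < 2 ^ m := by positivity
  have h1 : (A : ℝ) / 2 ^ m - k = ((A : ℤ) - k * 2 ^ m : ℤ) / 2 ^ m := by
    push_cast
    field_simp
  rw [h1, abs_div, abs_of_pos h2]
  apply div_le_div_of_nonneg_right _ h2.le
  have h3 : ((A : ℤ) - k * 2 ^ m : ℤ) ≠ 0 := by
    intro h4
    apply h
    have h5 : (A : ℤ) = k * 2 ^ m := by linarith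
    have h6 : ((2 ^ m : ℕ) : ℤ) ∣ (A : ℤ) := by
      rw [h5]
      push_cast
      exact Dvd.intro_left k rfl
    exact Int.natCast_dvd_natCast.1 h6
  have h7 : (1 : ℤ) ≤ |(A : ℤ) - k * 2 ^ m| := Int.one_le_abs h3
  calc (1 : ℝ) ≤ ((|(A : ℤ) - k * 2 ^ m| : ℤ) : ℝ) := by exact_mod_cast h7
    _ = _ := by rw [Int.cast_abs]

/-- The points of the array are not too close to the points of order dividing `Q`. -/
lemma lower {N r Q : ℕ} (hN : 0 < N) (hQ : 0 < Q) {n : ℕ} {j : ℤ} {t m : ℕ}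
    (ht : (t : ℤ) = n + j - 1 - r) (hm : (m : ℤ) = n + 1 + r - j) (hbig : Q * N < 2 ^ m) :
    1 / (2 : ℝ) ^ m ≤ ‖Q • Y ((N : ℝ) / 6 ^ r) n j‖ := by
  have h1 : Q • Y ((N : ℝ) / 6 ^ r) n j = ((((Q * N * 3 ^ t : ℕ) : ℝ) / 2 ^ m : ℝ) : T) := by
    unfold Y
    rw [nsmul_coe]
    congr 1
    have h6 : (6 : ℝ) ^ (j - 1) = 3 ^ (j - 1) * 2 ^ (j - 1) := by
      rw [← mul_zpow]; norm_num
    have h6' : (6 : ℝ) ^ r = 3 ^ (r : ℤ) * 2 ^ (r : ℤ) := by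
      rw [zpow_natCast, zpow_natCast, ← mul_pow]; norm_num
    have h32 : (3 / 2 : ℝ) ^ n = 3 ^ (n : ℤ) / 2 ^ (n : ℤ) := by
      rw [zpow_natCast, zpow_natCast, div_pow]
    have ht' : (3 : ℝ) ^ t = 3 ^ (n : ℤ) * 3 ^ (j - 1) / 3 ^ (r : ℤ) := by
      rw [← zpow_natCast (3 : ℝ) t, ht, ← zpow_add₀ (by norm_num : (3 : ℝ) ≠ 0),
        ← zpow_sub₀ (by norm_num : (3 : ℝ) ≠ 0)]
      congr 1
      ring
    have hm' : (2 : ℝ) ^ m = 2 ^ (n : ℤ) * 2 ^ (r : ℤ) / 2 ^ (j - 1) := by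
      rw [← zpow_natCast (2 : ℝ) m, hm, ← zpow_add₀ (by norm_num : (2 : ℝ) ≠ 0),
        ← zpow_sub₀ (by norm_num : (2 : ℝ) ≠ 0)]
      congr 1
      ring
    push_cast
    rw [ht', hm', h6, h6', h32]
    have a1 : (3 : ℝ) ^ (r : ℤ) ≠ 0 := by positivity
    have a2 : (2 : ℝ) ^ (r : ℤ) ≠ 0 := by positivity
    have a3 : (2 : ℝ) ^ (n : ℤ) ≠ 0 := by positivity
    have a4 : (2 : ℝ) ^ (j - 1) ≠ 0 := by positivity
    field_simp
  rw [h1]
  apply norm_div_two_pow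
  intro hdvd
  have hc : Nat.Coprime (2 ^ m) (3 ^ t) := Nat.Coprime.pow _ _ (by norm_num)
  have h2 : 2 ^ m ∣ Q * N := hc.dvd_of_dvd_mul_right hdvd
  have h3 := Nat.le_of_dvd (Nat.mul_pos hQ hN) h2
  omega


/-! ### Positions and times -/

lemma Y_shift (ξ : ℝ) (n : ℕ) (j : ℤ) {l : ℕ} (hl : l ≤ n) :
    4 ^ l • Y ξ n j = Y ξ (n - l) (j + l) := by
  have h := Y_mul ξ n j hl 0
  simpa using h

lemma mem_arc {L c : ℕ} (hL : 0 < L) {y : T}
    (h : ‖y - (((c + 1 / 2 : ℝ) / L : ℝ) : T)‖ < 1 / (2 * L)) : y ∈ arc L c := by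
  obtain ⟨r, hr, hr2, -⟩ := exists_rep (y - (((c + 1 / 2 : ℝ) / L : ℝ) : T))
  rw [← hr2, abs_lt] at h
  have hL' : (0 : ℝ) < L := by exact_mod_cast hL
  refine ⟨r + (c + 1 / 2 : ℝ) / L, ⟨?_, ?_⟩, ?_⟩
  · have : (c : ℝ) / L = (c + 1 / 2 : ℝ) / L - 1 / (2 * L) := by field_simp; ring
    rw [this]
    linarith [h.1]
  · have : ((c : ℝ) + 1) / L = (c + 1 / 2 : ℝ) / L + 1 / (2 * L) := by field_simp; ring
    rw [this]
    linarith [h.2]
  · simp only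
    rw [AddCircle.coe_add, hr]
    abel

/-- The main estimate: time windows `[N, 3N]`. -/
lemma windows (ℓ : ℕ) {θ : ℝ} (hθ : 0 < θ) : ∃ B₀ : ℕ, ∀ x : Config, IsFin x → x ≠ 0 →
    ∃ N₀ : ℕ, ∀ B : ℕ, B₀ ≤ B → ∀ N : ℕ, ∀ j₀ : ℤ, N₀ + 6 * |j₀| + 10 * B ≤ N →
      ∃ S : Finset ℕ, S ⊆ Finset.range B ∧ (1 - θ) * B ≤ (S.card : ℝ) ∧
        ∀ l ∈ S, ∀ w : Fin ℓ → Fin 6, ∃ n : ℕ, N ≤ n ∧ n ≤ 3 * N ∧
          Shows (F^[n] x) (j₀ + l) w := by
  classical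
  obtain ⟨B₀, C, hcore⟩ := core (ε := 1 / (2 * ((6 ^ ℓ : ℕ) : ℝ))) (by positivity) hθ
  refine ⟨B₀, fun x hx hne => ?_⟩
  obtain ⟨A, r, rfl⟩ := fin_eq_dig hx
  have hA : 0 < A := by
    rcases Nat.eq_zero_or_pos A with h | h
    · exfalso
      apply hne
      subst h
      funext i
      apply Fin.ext
      unfold dig
      simp
    · exact h
  have hξ : (0 : ℝ) < (A : ℝ) / 6 ^ r := by positivity
  set D : ℝ := C * (2 : ℝ) ^ (C + 1 + r) * (3 / 2) ^ (3 * C) with hD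
  obtain ⟨N1, hN1⟩ := pow_unbounded_of_one_lt D (by norm_num : (1 : ℝ) < 9 / 8)
  refine ⟨N1 + C * A + 3 * C + r + 1, fun B hB N j₀ hN' => ?_⟩
  set s : ℕ := j₀.natAbs with hs
  have hN : N1 + C * A + 3 * C + r + 1 + 6 * s + 10 * B ≤ N := by
    have : |j₀| = (s : ℤ) := by rw [hs]; exact Int.abs_eq_natAbs j₀
    rw [this] at hN'
    exact_mod_cast hN'
  set v : ℕ → T := fun n => Y ((A : ℝ) / 6 ^ r) n j₀ with hv
  have hseq : Seq v := fun n => Y_next _ _ _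
  have hesc : ∀ l < B, Esc C v (N + B) (3 * N - C) l := by
    intro l hl
    refine ⟨by omega, ?_⟩
    intro Q c hQ1 hQC hcC
    have hshift : 4 ^ l • v (N + B + c) = Y ((A : ℝ) / 6 ^ r) (N + B + c - l) (j₀ + l) :=
      Y_shift _ _ _ (by omega)
    rw [hshift]
    have hQA : Q * A ≤ C * A := Nat.mul_le_mul_right _ hQC
    obtain ⟨t, ht⟩ : ∃ t : ℕ, (t : ℤ) = ((N + B + c - l : ℕ) : ℤ) + (j₀ + l) - 1 - r :=
      ⟨(((N + B + c - l : ℕ) : ℤ) + (j₀ + l) - 1 - r).toNat, by omega⟩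
    obtain ⟨m, hm⟩ : ∃ m : ℕ, (m : ℤ) = ((N + B + c - l : ℕ) : ℤ) + 1 + r - (j₀ + l) :=
      ⟨(((N + B + c - l : ℕ) : ℤ) + 1 + r - (j₀ + l)).toNat, by omega⟩
    have hmle : m ≤ N + B + (C + 1 + r) + s := by omega
    have hmge : Q * A ≤ m := by omega
    have h2 := lower (Q := Q) hA (by omega) ht hm (lt_of_le_of_lt hmge Nat.lt_two_pow_self)
    refine lt_of_lt_of_le ?_ h2
    rw [lt_div_iff₀ (by positivity)]
    have hE : 3 * N - C - (N + B) - 2 * C = 2 * N - B - 3 * C := by omega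
    rw [hE]
    have h23 : (2 / 3 : ℝ) ^ (2 * N - B - 3 * C) * (3 / 2) ^ (2 * N - B - 3 * C) = 1 := by
      rw [← mul_pow]; norm_num
    have hpos : (0 : ℝ) < (3 / 2) ^ (2 * N - B - 3 * C) := by positivity
    suffices hs1 : (C : ℝ) * 2 ^ m < (3 / 2) ^ (2 * N - B - 3 * C) by
      calc (C : ℝ) * (2 / 3) ^ (2 * N - B - 3 * C) * 2 ^ m
          = (2 / 3 : ℝ) ^ (2 * N - B - 3 * C) * ((C : ℝ) * 2 ^ m) := by ring
        _ < (2 / 3 : ℝ) ^ (2 * N - B - 3 * C) * (3 / 2) ^ (2 * N - B - 3 * C) := by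
            gcongr
        _ = 1 := h23
    have h5 : (3 / 2 : ℝ) ^ (2 * N - B - 3 * C) * (3 / 2) ^ (B + 3 * C) = 2 ^ N * (9 / 8) ^ N := by
      have h6 : (2 : ℝ) * (9 / 8) = (3 / 2) ^ 2 := by norm_num
      rw [← mul_pow, h6, ← pow_mul, ← pow_add]
      congr 1
      omega
    have hpos2 : (0 : ℝ) < (3 / 2) ^ (B + 3 * C) := by positivity
    rw [← mul_lt_mul_iff_left₀ hpos2, h5]
    have h10 : (9 / 8 : ℝ) ^ (N1 + 6 * s + 10 * B) ≤ (9 / 8) ^ N :=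
      pow_le_pow_right₀ (by norm_num) (by omega)
    have h11 : (2 : ℝ) ^ s ≤ (9 / 8) ^ (6 * s) := by
      rw [pow_mul]
      exact pow_le_pow_left₀ (by norm_num) (by norm_num) s
    have h12 : (3 : ℝ) ^ B ≤ (9 / 8) ^ (10 * B) := by
      rw [pow_mul]
      exact pow_le_pow_left₀ (by norm_num) (by norm_num) B
    have h13 : D * 2 ^ s * 3 ^ B < (9 / 8 : ℝ) ^ N := by
      refine lt_of_lt_of_le ?_ h10
      rw [pow_add, pow_add]
      have hD0 : 0 ≤ D := by positivity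
      have : D * 2 ^ s < (9 / 8 : ℝ) ^ N1 * (9 / 8) ^ (6 * s) :=
        mul_lt_mul hN1 h11 (by positivity) (by positivity)
      exact mul_lt_mul this h12 (by positivity) (by positivity)
    calc (C : ℝ) * 2 ^ m * (3 / 2) ^ (B + 3 * C)
        ≤ C * 2 ^ (N + B + (C + 1 + r) + s) * (3 / 2) ^ (B + 3 * C) := by
          gcongr
          norm_num
      _ = 2 ^ N * (D * 2 ^ s * 3 ^ B) := by
          rw [hD]
          have : (3 : ℝ) ^ B = 2 ^ B * (3 / 2) ^ B := by rw [← mul_pow]; norm_num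
          rw [this]
          ring
      _ < 2 ^ N * (9 / 8) ^ N := by gcongr
  have hbad := hcore B hB v hseq (N + B) (3 * N - C) hesc
  set Bad := (Finset.range B).filter
    (fun l => ¬ Gd (1 / (2 * ((6 ^ ℓ : ℕ) : ℝ))) v (N + B) (3 * N - C + C) l) with hBad
  refine ⟨(Finset.range B) \ Bad, Finset.sdiff_subset, ?_, ?_⟩
  · have h1 : ((Finset.range B) \ Bad).card = B - Bad.card := by
      rw [Finset.card_sdiff_of_subset (Finset.filter_subset _ _), Finset.card_range]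
    have h2 : Bad.card ≤ B := by
      have := Finset.card_le_card (Finset.filter_subset
        (fun l => ¬ Gd (1 / (2 * ((6 ^ ℓ : ℕ) : ℝ))) v (N + B) (3 * N - C + C) l) (Finset.range B))
      rwa [Finset.card_range] at this
    rw [h1, Nat.cast_sub h2]
    have h3 : (Bad.card : ℝ) ≤ θ * B := by
      convert hbad
    linarith
  · intro l hl w
    rw [Finset.mem_sdiff] at hl
    have hlB : l < B := Finset.mem_range.1 hl.1
    have hgd : Gd (1 / (2 * ((6 ^ ℓ : ℕ) : ℝ))) v (N + B) (3 * N - C + C) l := by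
      by_contra hcon
      exact hl.2 (Finset.mem_filter.2 ⟨hl.1, hcon⟩)
    obtain ⟨W, hWlt, hW⟩ := exists_code w
    obtain ⟨n, hn1, hn2, hn⟩ := hgd ((((W : ℝ) + 1 / 2) / ((6 ^ ℓ : ℕ) : ℝ) : ℝ) : T)
    refine ⟨n - l, by omega, by omega, ?_⟩
    apply shows_of_arc hW hWlt hξ
    rw [← Y_shift _ _ _ (by omega)]
    exact mem_arc (by positivity) hn

/-- For every `ℓ` and `θ > 0` there is `B₀` such that for every finite configuration `x` other than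
the all-zero one: (1) in every block of `B ≥ B₀` consecutive positions, at least `(1 - θ) B`
positions `j` have the property that every word of length `ℓ` is shown by `F^n(x)` at `j` for
infinitely many `n`; (2) there is `N₀` such that for all `B ≥ B₀`, all `j₀` and all
`N ≥ N₀ + 6 |j₀| + 10 B`, at least `(1 - θ) B` of the positions `j₀ ≤ j < j₀ + B` have the property
that every word of length `ℓ` is shown by `F^n(x)` at `j` for some `n` with `N ≤ n ≤ 3 N`. -/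
theorem result (ℓ : ℕ) (θ : ℝ) (hθ : 0 < θ) : ∃ B₀ : ℕ, ∀ x : Config, IsFin x → x ≠ 0 →
    (∀ B : ℕ, B₀ ≤ B → ∀ j₀ : ℤ, (1 - θ) * B ≤
      (({j : ℤ | j₀ ≤ j ∧ j < j₀ + B ∧
        ∀ w : Fin ℓ → Fin 6, {n : ℕ | Shows (F^[n] x) j w}.Infinite}.ncard : ℕ) : ℝ)) ∧
    (∃ N₀ : ℕ, ∀ B : ℕ, B₀ ≤ B → ∀ N : ℕ, ∀ j₀ : ℤ, N₀ + 6 * |j₀| + 10 * B ≤ N → (1 - θ) * B ≤
      (({j : ℤ | j₀ ≤ j ∧ j < j₀ + B ∧
        ∀ w : Fin ℓ → Fin 6, ∃ n : ℕ, N ≤ n ∧ n ≤ 3 * N ∧ Shows (F^[n] x) j w}.ncard : ℕ) : ℝ)) := by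
  classical
  obtain ⟨B₀, hB₀⟩ := windows ℓ hθ
  have hfin : ∀ (B : ℕ) (j₀ : ℤ) (P : ℤ → Prop), {j : ℤ | j₀ ≤ j ∧ j < j₀ + B ∧ P j}.Finite := by
    intro B j₀ P
    exact (Set.finite_Ico j₀ (j₀ + B)).subset (fun j hj => ⟨hj.1, hj.2.1⟩)
  have hcard : ∀ (B : ℕ) (j₀ : ℤ) (P : ℤ → Prop) (S : Finset ℕ), S ⊆ Finset.range B →
      (∀ l ∈ S, P (j₀ + l)) → S.card ≤ {j : ℤ | j₀ ≤ j ∧ j < j₀ + B ∧ P j}.ncard := by
    intro B j₀ P S hS hP
    have h1 : (S.image (fun l : ℕ => j₀ + (l : ℤ))).card = S.card := by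
      apply Finset.card_image_of_injective
      intro a b hab
      simpa using hab
    rw [← h1, ← Set.ncard_coe_finset]
    apply Set.ncard_le_ncard _ (hfin B j₀ P)
    intro j hj
    rw [Finset.mem_coe, Finset.mem_image] at hj
    obtain ⟨l, hl, rfl⟩ := hj
    have := Finset.mem_range.1 (hS hl)
    exact ⟨by omega, by omega, hP l hl⟩
  refine ⟨B₀, fun x hx hne => ?_⟩
  obtain ⟨N₀, hN₀⟩ := hB₀ x hx hne
  constructor
  · intro B hB j₀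
    have h : ∀ k : ℕ, ∃ S : Finset ℕ, S ⊆ Finset.range B ∧ (1 - θ) * B ≤ (S.card : ℝ) ∧
        ∀ l ∈ S, ∀ w : Fin ℓ → Fin 6, ∃ n : ℕ, N₀ + 6 * j₀.natAbs + 10 * B + k ≤ n ∧
          Shows (F^[n] x) (j₀ + l) w := by
      intro k
      obtain ⟨S, h1, h2, h3⟩ := hN₀ B hB (N₀ + 6 * j₀.natAbs + 10 * B + k) j₀ (by
        rw [Int.abs_eq_natAbs]; push_cast; omega)
      refine ⟨S, h1, h2, fun l hl w => ?_⟩
      obtain ⟨n, hn1, -, hn⟩ := h3 l hl w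
      exact ⟨n, hn1, hn⟩
    choose S hS1 hS2 hS3 using h
    obtain ⟨S₀, hS₀⟩ := Finite.exists_infinite_fiber
      (fun k : ℕ => (⟨S k, Finset.mem_powerset.2 (hS1 k)⟩ : (Finset.range B).powerset))
    rw [Set.infinite_coe_iff] at hS₀
    have hS₀' : {k : ℕ | S k = (S₀ : Finset ℕ)}.Infinite := by
      refine hS₀.mono ?_
      intro k hk
      have : (⟨S k, Finset.mem_powerset.2 (hS1 k)⟩ : (Finset.range B).powerset) = S₀ := hk
      rw [Set.mem_ofPred_eq, ← this]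
    obtain ⟨k₀, hk₀⟩ := hS₀'.nonempty
    have hk₀' : S k₀ = (S₀ : Finset ℕ) := hk₀
    refine le_trans (hS2 k₀) (Nat.cast_le.2 (hcard B j₀ _ (S k₀) (hS1 k₀) ?_))
    intro l hl w
    rw [Set.infinite_iff_exists_gt]
    intro b
    obtain ⟨k, hk, hkb⟩ := hS₀'.exists_gt b
    have hk' : S k = (S₀ : Finset ℕ) := hk
    obtain ⟨n, hn1, hn⟩ := hS3 k l (by rw [hk', ← hk₀']; exact hl) w
    exact ⟨n, hn, by omega⟩
  · refine ⟨N₀, fun B hB N j₀ hN => ?_⟩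
    obtain ⟨S, h1, h2, h3⟩ := hN₀ B hB N j₀ hN
    exact le_trans h2 (Nat.cast_le.2 (hcard B j₀ _ S h1 h3))

end Pool.Agent.Results.MP_cc0c1a_nt.DensityOnePositions
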