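import Mathlib
import Pool.Agent.Lib.MP_cc0c1a_nt.Modif
import Pool.Agent.Lib.MP_cc0c1a_nt.ModifTime

set_option autoImplicit false

open Pool.Agent.Lib.MP_cc0c1a_nt.Modif (Bad card_bad good_time numerics)

namespace Pool.Agent.Results.MP_cc0c1a_nt.LocalModifications

/-- A configuration: a two-sided infinite word over the alphabet `{0,...,5}`, with the product
topology of the discrete topology. -/
abbrev Config : Type := ℤ → Fin 6

/-- The local rule `f(s,t) = (3 s mod 6) + ⌊3 t / 6⌋`. -/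
def localRule (s t : Fin 6) : Fin 6 :=
  ⟨(3 * s.val) % 6 + (3 * t.val) / 6, by omega⟩

/-- The automaton `F_{×3}`. -/
def Fx3 (x : Config) : Config := fun i => localRule (x i) (x (i + 1))

/-- The right shift `σ⁻¹`. -/
def rightShift (x : Config) : Config := fun i => x (i - 1)

/-- The automaton `F = F_{×3} ∘ F_{×3} ∘ σ⁻¹`. -/
def F (x : Config) : Config := Fx3 (Fx3 (rightShift x))

/-- Finite configurations: only finitely many nonzero digits. -/
def IsFin (x : Config) : Prop := {i : ℤ | x i ≠ 0}.Finite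

/-- The configuration `y` shows the word `w` of length `ℓ` starting at the position `j`. -/
def Shows {ℓ : ℕ} (y : Config) (j : ℤ) (w : Fin ℓ → Fin 6) : Prop := ∀ i : Fin ℓ, y (j + i) = w i

/-- The configuration `y` with the cells `p, p+1, ..., p+L-1` overwritten by the word `u`. -/
def overwrite {L : ℕ} (y : Config) (p : ℤ) (u : Fin L → Fin 6) : Config := fun i =>
  if h : p ≤ i ∧ i < p + L then u ⟨(i - p).toNat, by omega⟩ else y i

/-! ### The configuration of digits of a real number -/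

/-- Digit configuration of a nonnegative real number. -/
noncomputable def dig (z : ℝ) : Config :=
  fun i => ⟨⌊(6 : ℝ) ^ i * z⌋₊ % 6, Nat.mod_lt _ (by norm_num)⟩

lemma rightShift_dig (z : ℝ) : rightShift (dig z) = dig (z / 6) := by
  funext i
  unfold rightShift dig
  apply Fin.ext
  simp only
  congr 2
  rw [zpow_sub_one₀ (by norm_num : (6:ℝ) ≠ 0)]
  ring

lemma Fx3_dig (z : ℝ) : Fx3 (dig z) = dig (3 * z) := by
  funext i
  unfold Fx3 dig localRule
  apply Fin.ext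
  simp only
  set u := ⌊(6 : ℝ) ^ (i + 1) * z⌋₊ with hu
  have h1 : ⌊(6 : ℝ) ^ i * z⌋₊ = u / 6 := by
    rw [hu, ← Nat.floor_div_natCast]
    congr 1
    rw [zpow_add_one₀ (by norm_num : (6:ℝ) ≠ 0)]
    push_cast
    ring
  have h2 : ⌊(6 : ℝ) ^ i * (3 * z)⌋₊ = u / 2 := by
    rw [hu, ← Nat.floor_div_natCast]
    congr 1
    rw [zpow_add_one₀ (by norm_num : (6:ℝ) ≠ 0)]
    push_cast
    ring
  rw [h1, h2]
  omega

lemma F_dig (z : ℝ) : F (dig z) = dig (z * (3 / 2)) := by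
  unfold F
  rw [rightShift_dig, Fx3_dig, Fx3_dig]
  congr 1
  ring

lemma iter_F_dig (z : ℝ) (n : ℕ) : F^[n] (dig z) = dig (z * (3 / 2) ^ n) := by
  induction n with
  | zero => simp
  | succ n ih =>
    rw [Function.iterate_succ_apply', ih, F_dig]
    congr 1
    ring

/-- The natural number with the base-6 digits `a 0, a 1, ..., a (n-1)`. -/
def val (a : ℕ → Fin 6) (n : ℕ) : ℕ := ∑ k ∈ Finset.range n, (a k : ℕ) * 6 ^ k

lemma val_succ (a : ℕ → Fin 6) (n : ℕ) : val a (n + 1) = val a n + 6 ^ n * (a n : ℕ) := by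
  unfold val
  rw [Finset.sum_range_succ, mul_comm (6 ^ n)]

lemma val_lt (a : ℕ → Fin 6) (n : ℕ) : val a n < 6 ^ n := by
  induction n with
  | zero => simp [val]
  | succ n ih =>
    rw [val_succ]
    have := (a n).isLt
    calc val a n + 6 ^ n * (a n : ℕ) < 6 ^ n + 6 ^ n * (a n : ℕ) := by omega
      _ = 6 ^ n * ((a n : ℕ) + 1) := by ring
      _ ≤ 6 ^ n * 6 := Nat.mul_le_mul_left _ (by omega)
      _ = 6 ^ (n + 1) := by ring

lemma val_digit (a : ℕ → Fin 6) (n : ℕ) : ∀ k, k < n → val a n / 6 ^ k % 6 = (a k : ℕ) := by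
  induction n with
  | zero => intro k hk; omega
  | succ n ih =>
    intro k hk
    have hlt := val_lt a n
    rw [val_succ]
    rcases Nat.lt_succ_iff_lt_or_eq.mp hk with hk' | rfl
    · rw [← ih k hk']
      have : 6 ^ n = 6 ^ k * (6 * 6 ^ (n - k - 1)) := by
        rw [← pow_succ', ← pow_add]
        congr 1
        omega
      rw [this, mul_assoc, Nat.add_mul_div_left _ _ (by positivity), mul_assoc,
        Nat.add_mul_mod_self_left]
    · rw [Nat.add_mul_div_left _ _ (by positivity), Nat.div_eq_of_lt hlt, zero_add,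
        Nat.mod_eq_of_lt (a k).isLt]

lemma floor_zpow_neg (N : ℕ) (k : ℕ) : ⌊(6 : ℝ) ^ (-(k : ℤ)) * N⌋₊ = N / 6 ^ k := by
  have : (6 : ℝ) ^ (-(k : ℤ)) * N = (N : ℝ) / ((6 ^ k : ℕ) : ℝ) := by
    rw [zpow_neg, zpow_natCast]
    push_cast
    field_simp
  rw [this, Nat.floor_div_natCast, Nat.floor_natCast]

/-- A configuration supported in `[-B, B]` is the digit configuration of a rational. -/
lemma eq_dig_of_supp {x : Config} {B : ℕ} (hB : ∀ i : ℤ, x i ≠ 0 → |i| ≤ B) :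
    x = dig ((val (fun k => x ((B : ℤ) - k)) (2 * B + 1) : ℝ) / 6 ^ B) := by
  set N := val (fun k => x ((B : ℤ) - k)) (2 * B + 1) with hNdef
  have hN : N < 6 ^ (2 * B + 1) := val_lt _ _
  have h : ∀ k, k < 2 * B + 1 → N / 6 ^ k % 6 = (x ((B : ℤ) - k) : ℕ) := val_digit _ _
  funext i
  apply Fin.ext
  unfold dig
  simp only
  have hre : (6 : ℝ) ^ i * ((N : ℝ) / 6 ^ B) = (6 : ℝ) ^ (i - B) * N := by
    rw [zpow_sub₀ (by norm_num : (6:ℝ) ≠ 0), zpow_natCast]
    ring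
  rw [hre]
  rcases le_or_gt i B with hi | hi
  · obtain ⟨k, hk⟩ : ∃ k : ℕ, (B : ℤ) - i = k := ⟨((B : ℤ) - i).toNat, by omega⟩
    have hi' : i - B = -(k : ℤ) := by omega
    rw [hi', floor_zpow_neg]
    rcases lt_or_ge k (2 * B + 1) with hk2 | hk2
    · rw [h k hk2]
      congr 2
      omega
    · have h0 : x i = 0 := by
        by_contra hne
        have := hB i hne
        rw [abs_le] at this
        omega
      rw [h0, Nat.div_eq_of_lt (lt_of_lt_of_le hN (Nat.pow_le_pow_right (by norm_num) hk2))]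
      rfl
  · have h0 : x i = 0 := by
      by_contra hne
      have := hB i hne
      rw [abs_le] at this
      omega
    obtain ⟨k, hk⟩ : ∃ k : ℕ, i - (B : ℤ) = (k : ℤ) + 1 := ⟨(i - (B : ℤ) - 1).toNat, by omega⟩
    rw [hk, h0]
    have : (6 : ℝ) ^ ((k : ℤ) + 1) * N = ((6 * (6 ^ k * N) : ℕ) : ℝ) := by
      rw [zpow_add_one₀ (by norm_num : (6:ℝ) ≠ 0), zpow_natCast]
      push_cast
      ring
    rw [this, Nat.floor_natCast, Nat.mul_mod_right]
    rfl

/-- The digits of the code of `u`: the last letter is the units digit. -/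
def letters {L : ℕ} (u : Fin L → Fin 6) : ℕ → Fin 6 := fun k =>
  if h : k < L then u ⟨L - 1 - k, by omega⟩ else 0

/-- The number whose base-6 digits are the letters of `u`. -/
def code {L : ℕ} (u : Fin L → Fin 6) : ℕ := val (letters u) L

lemma code_lt {L : ℕ} (u : Fin L → Fin 6) : code u < 6 ^ L := val_lt _ _

lemma code_injective {L : ℕ} : Function.Injective (code : (Fin L → Fin 6) → ℕ) := by
  intro u v huv
  funext i
  have hi := i.isLt
  have h1 := val_digit (letters u) L (L - 1 - i) (by omega)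
  have h2 := val_digit (letters v) L (L - 1 - i) (by omega)
  have h3 : val (letters u) L = val (letters v) L := huv
  rw [h3, h2] at h1
  unfold letters at h1
  rw [dif_pos (by omega), dif_pos (by omega)] at h1
  have h4 : (⟨L - 1 - (L - 1 - (i : ℕ)), by omega⟩ : Fin L) = i := by
    apply Fin.ext
    simp only
    omega
  rw [h4] at h1
  exact (Fin.ext h1).symm

/-- The configurations obtained by overwriting are the progression `ξ₀ + code u * 6 ^ (-(p+L-1))`. -/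
lemma overwrite_eq {L : ℕ} {y : Config} (hy : IsFin y) (p : ℤ) : ∃ ξ₀ : ℝ, 0 ≤ ξ₀ ∧
    ∀ u : Fin L → Fin 6, overwrite y p u = dig (ξ₀ + (code u : ℝ) * (6 : ℝ) ^ (-(p + L - 1))) := by
  obtain ⟨B, hB, hBp⟩ : ∃ B : ℕ, (∀ i : ℤ, y i ≠ 0 → |i| ≤ B) ∧ |p| + L ≤ B := by
    obtain ⟨b, hb⟩ := (hy.image (fun i : ℤ => |i|)).bddAbove
    refine ⟨b.toNat + (|p| + L).toNat, fun i hi => ?_, ?_⟩
    · have : |i| ≤ b := hb ⟨i, hi, rfl⟩
      have h2 := Int.self_le_toNat b
      push_cast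
      omega
    · have := Int.self_le_toNat (|p| + L)
      push_cast
      omega
  -- the window in exponents: `[s, s + L)`
  have hp1 : -(B : ℤ) + L ≤ p := by
    have := neg_abs_le p
    omega
  have hp2 : p + L ≤ B := by
    have := le_abs_self p
    omega
  obtain ⟨s, hs⟩ : ∃ s : ℕ, (s : ℤ) = B - p - L + 1 := ⟨(B - p - L + 1 : ℤ).toNat, by omega⟩
  obtain ⟨m, hm⟩ : ∃ m : ℕ, 2 * B + 1 = s + L + m := ⟨2 * B + 1 - (s + L), by omega⟩
  set A : ℕ := (∑ k ∈ Finset.range s, (y ((B : ℤ) - k) : ℕ) * 6 ^ k) +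
    ∑ k ∈ Finset.range m, (y ((B : ℤ) - ((s + L + k : ℕ) : ℤ)) : ℕ) * 6 ^ (s + L + k) with hA
  refine ⟨(A : ℝ) / 6 ^ B, by positivity, fun u => ?_⟩
  have hsupp : ∀ i : ℤ, overwrite y p u i ≠ 0 → |i| ≤ B := by
    intro i hi
    unfold overwrite at hi
    by_cases h : p ≤ i ∧ i < p + L
    · rw [abs_le]
      omega
    · rw [dif_neg h] at hi
      exact hB i hi
  rw [eq_dig_of_supp hsupp]
  congr 1
  have hval : val (fun k => overwrite y p u ((B : ℤ) - k)) (2 * B + 1) = A + code u * 6 ^ s := by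
    unfold val
    rw [hm, Finset.sum_range_add, Finset.sum_range_add, hA]
    have h1 : ∑ k ∈ Finset.range s, (overwrite y p u ((B : ℤ) - k) : ℕ) * 6 ^ k =
        ∑ k ∈ Finset.range s, (y ((B : ℤ) - k) : ℕ) * 6 ^ k := by
      apply Finset.sum_congr rfl
      intro k hk
      rw [Finset.mem_range] at hk
      unfold overwrite
      rw [dif_neg (by omega)]
    have h2 : ∑ k ∈ Finset.range m, (overwrite y p u ((B : ℤ) - ((s + L + k : ℕ) : ℤ)) : ℕ) * 6 ^ (s + L + k) =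
        ∑ k ∈ Finset.range m, (y ((B : ℤ) - ((s + L + k : ℕ) : ℤ)) : ℕ) * 6 ^ (s + L + k) := by
      apply Finset.sum_congr rfl
      intro k hk
      unfold overwrite
      rw [dif_neg (by push_cast; omega)]
    have h3 : ∑ k ∈ Finset.range L, (overwrite y p u ((B : ℤ) - ((s + k : ℕ) : ℤ)) : ℕ) * 6 ^ (s + k) =
        code u * 6 ^ s := by
      unfold code val
      rw [Finset.sum_mul]
      apply Finset.sum_congr rfl
      intro k hk
      rw [Finset.mem_range] at hk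
      unfold overwrite letters
      rw [dif_pos (by push_cast; omega), dif_pos hk, pow_add]
      have h4 : (⟨((B : ℤ) - ((s + k : ℕ) : ℤ) - p).toNat, by omega⟩ : Fin L) = ⟨L - 1 - k, by omega⟩ := by
        apply Fin.ext
        simp only
        omega
      rw [h4]
      ring
    rw [h1, h2, h3]
    ring
  rw [hval]
  have h5 : (6 : ℝ) ^ (-(p + L - 1)) = 6 ^ s / 6 ^ B := by
    have h6 : -(p + (L : ℤ) - 1) = (s : ℤ) - (B : ℤ) := by omega
    rw [h6, zpow_sub₀ (by norm_num : (6 : ℝ) ≠ 0), zpow_natCast, zpow_natCast]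
  rw [h5]
  push_cast
  ring

lemma shows_of_floor {ℓ W : ℕ} {w : Fin ℓ → Fin 6}
    (hW : ∀ i : Fin ℓ, W / 6 ^ (ℓ - 1 - (i : ℕ)) % 6 = (w i : ℕ)) {y : ℝ} {j : ℤ}
    (h : ⌊(6 : ℝ) ^ (j + ℓ - 1) * y⌋₊ % 6 ^ ℓ = W) : Shows (dig y) j w := by
  intro i
  apply Fin.ext
  have hi := i.isLt
  unfold dig
  simp only
  set k := ℓ - 1 - (i : ℕ) with hk
  have h1 : ⌊(6 : ℝ) ^ (j + i) * y⌋₊ = ⌊(6 : ℝ) ^ (j + ℓ - 1) * y⌋₊ / 6 ^ k := by
    have h2 : (6 : ℝ) ^ (j + i) * y = (6 : ℝ) ^ (j + ℓ - 1) * y / ((6 ^ k : ℕ) : ℝ) := by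
      have hi2 : j + i = (j + ℓ - 1) - (k : ℤ) := by omega
      rw [hi2, zpow_sub₀ (by norm_num : (6 : ℝ) ≠ 0) _ (k : ℤ), zpow_natCast]
      push_cast
      ring
    rw [h2, Nat.floor_div_natCast]
  rw [h1, ← hW i, ← h]
  have h3 : (6 : ℕ) ^ ℓ = 6 ^ k * 6 * 6 ^ (ℓ - 1 - k) := by
    rw [← pow_succ, ← pow_add]
    congr 1
    omega
  rw [← Nat.mod_mul_right_div_self, ← Nat.mod_mul_right_div_self (_ % 6 ^ ℓ), h3,
    Nat.mod_mul_right_mod]



lemma code_digit {ℓ : ℕ} (w : Fin ℓ → Fin 6) (i : Fin ℓ) :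
    code w / 6 ^ (ℓ - 1 - (i : ℕ)) % 6 = (w i : ℕ) := by
  have hi := i.isLt
  have h1 := val_digit (letters w) ℓ (ℓ - 1 - i) (by omega)
  unfold code
  rw [h1]
  unfold letters
  rw [dif_pos (by omega)]
  congr 2
  apply Fin.ext
  simp only
  omega

/-! ### One word at one position -/

/-- The words `u` for which `w` is not shown at `j` in the window of times `[N, 8N/5]`. -/
def miss {L ℓ : ℕ} (y : Config) (p j : ℤ) (w : Fin ℓ → Fin 6) (N : ℕ) : Set (Fin L → Fin 6) :=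
  {u | ¬ ∃ n : ℕ, N ≤ n ∧ 5 * n ≤ 8 * N ∧ Shows (F^[n] (overwrite y p u)) j w}

lemma time_identity (h K i ℓ n : ℕ) (hi : i ≤ K) (j r : ℤ) (ξ₀ a : ℝ) :
    ((6 ^ ℓ : ℕ) : ℝ) * (((2 ^ h : ℕ) : ℝ) ^ i * ((3 ^ h : ℕ) : ℝ) ^ (K - i) *
      ((6 : ℝ) ^ (j - 1) * ξ₀ * (3 / 2) ^ n / 2 ^ (h * K) +
        a * ((6 : ℝ) ^ (j - 1 + r) * (3 / 2) ^ n / 2 ^ (h * K)))) =
    (6 : ℝ) ^ (j + ℓ - 1) * ((ξ₀ + a * (6 : ℝ) ^ r) * (3 / 2) ^ (n + h * (K - i))) := by
  obtain ⟨k, rfl⟩ := Nat.exists_eq_add_of_le hi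
  have h1 : i + k - i = k := by omega
  rw [h1]
  have h2 : (6 : ℝ) ^ (j + ℓ - 1) = 6 ^ (j - 1) * 6 ^ ℓ := by
    have : j + (ℓ : ℤ) - 1 = (j - 1) + (ℓ : ℤ) := by ring
    rw [this, zpow_add₀ (by norm_num : (6 : ℝ) ≠ 0), zpow_natCast]
  have h3 : (6 : ℝ) ^ (j - 1 + r) = 6 ^ (j - 1) * 6 ^ r := zpow_add₀ (by norm_num) _ _
  have h4 : (3 / 2 : ℝ) ^ (n + h * k) = (3 / 2) ^ n * ((3 ^ h) ^ k / (2 ^ h) ^ k) := by
    rw [pow_add, pow_mul, ← div_pow, ← div_pow]
  have h5 : (2 : ℝ) ^ (h * (i + k)) = (2 ^ h) ^ i * (2 ^ h) ^ k := by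
    rw [mul_add, pow_add, pow_mul, pow_mul]
  rw [h2, h3, h4, h5]
  push_cast
  field_simp

/-- The count for one word at one position. -/
lemma miss_card {L ℓ : ℕ} {y : Config} (hy : IsFin y) (p j : ℤ) (w : Fin ℓ → Fin 6) {h K : ℕ}
    (hh : 3 * 6 ^ ℓ ≤ 3 ^ h) (hK : 5 * (6 * 6 ^ ℓ * (3 ^ h) ^ K) ≤ 6 ^ L + 1) :
    ∃ N₀ : ℕ, ∀ N ≥ N₀, (miss (L := L) y p j w N).ncard * (3 ^ h) ^ K ≤
      8 * 6 ^ L * (3 ^ h - 1) ^ K := by
  classical
  obtain ⟨ξ₀, hξ₀, hover⟩ := overwrite_eq (L := L) hy p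
  set r : ℤ := -(p + L - 1) with hr
  obtain ⟨N₀, hN₀⟩ := good_time (j - 1 + r) (h * K) (6 * 6 ^ ℓ * (3 ^ h) ^ K) (6 ^ L)
    (by positivity) hK
  refine ⟨N₀, fun N hN => ?_⟩
  obtain ⟨n, hn1, hn2, ρ, hρ1, hρ2, hρ3⟩ := hN₀ N hN
  have hfin : (miss (L := L) y p j w N).Finite := Set.toFinite _
  rw [Set.ncard_eq_toFinset_card _ hfin, ← Finset.card_image_of_injective _ code_injective]
  refine card_bad (G := 2 ^ h) (H := 3 ^ h) (Λ := 6 ^ ℓ) (W := code w) (K := K) (X := 6 ^ L)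
    (Nat.pow_le_pow_left (by norm_num) h) hh (code_lt w) (Nat.Coprime.pow _ _ (by norm_num))
    (by omega) ρ (z := (6 : ℝ) ^ (j - 1) * ξ₀ * (3 / 2) ^ n / 2 ^ (h * K))
    (w := (6 : ℝ) ^ (j - 1 + r) * (3 / 2) ^ n / 2 ^ (h * K)) (by positivity) (by positivity)
    (by push_cast at hρ1 ⊢; exact hρ1) hρ2 hρ3 _ ?_ ?_
  · intro a ha
    rw [Finset.mem_image] at ha
    obtain ⟨u, _, rfl⟩ := ha
    exact code_lt u
  · intro a ha
    rw [Finset.mem_image] at ha
    obtain ⟨u, hu, rfl⟩ := ha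
    rw [Set.Finite.mem_toFinset] at hu
    intro i hi hcon
    apply hu
    refine ⟨n + h * (K - i), by omega, ?_, ?_⟩
    · have : h * (K - i) ≤ h * K := Nat.mul_le_mul_left _ (Nat.sub_le _ _)
      omega
    · rw [hover u, iter_F_dig]
      apply shows_of_floor (code_digit w)
      rw [time_identity h K i ℓ n hi j r ξ₀ (code u : ℝ)] at hcon
      exact hcon

/-! ### The theorem -/

/-- **Local modifications.** Overwrite the `L` cells `p, ..., p+L-1` of a finite configuration in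
all `6 ^ L` ways, and let `J` be a set of at most `3 * 6 ^ e` positions, `e = ⌊L / (1000 * 7 ^ ℓ)⌋`
(for example the positions at distance at most `6 ^ e` from `p`). For all but at most `6 ^ (L - e)`
of the results, every word of length `ℓ` is shown at every position of `J` infinitely often.
Moreover, for all large `N`, all but at most `6 ^ (L - e)` of the results show all these words at all
these positions at times in `[N, 8N/5]`. -/
theorem result (ℓ L : ℕ) (y : Config) (hy : IsFin y) (p : ℤ) (J : Finset ℤ)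
    (hJ : J.card ≤ 3 * 6 ^ (L / (1000 * 7 ^ ℓ))) :
    {u : Fin L → Fin 6 | ¬ ∀ j ∈ J, ∀ w : Fin ℓ → Fin 6,
        {n : ℕ | Shows (F^[n] (overwrite y p u)) j w}.Infinite}.ncard
      ≤ 6 ^ (L - L / (1000 * 7 ^ ℓ)) ∧
    ∃ N₀ : ℕ, ∀ N ≥ N₀,
      {u : Fin L → Fin 6 | ¬ ∀ j ∈ J, ∀ w : Fin ℓ → Fin 6,
        ∃ n : ℕ, N ≤ n ∧ 5 * n ≤ 8 * N ∧ Shows (F^[n] (overwrite y p u)) j w}.ncard
      ≤ 6 ^ (L - L / (1000 * 7 ^ ℓ)) := by
  classical
  set e := L / (1000 * 7 ^ ℓ) with he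
  -- the second part
  have main : ∃ N₀ : ℕ, ∀ N ≥ N₀,
      {u : Fin L → Fin 6 | ¬ ∀ j ∈ J, ∀ w : Fin ℓ → Fin 6,
        ∃ n : ℕ, N ≤ n ∧ 5 * n ≤ 8 * N ∧ Shows (F^[n] (overwrite y p u)) j w}.ncard ≤ 6 ^ (L - e) := by
    rcases Nat.eq_zero_or_pos e with he0 | he0
    · refine ⟨0, fun N _ => ?_⟩
      rw [he0, Nat.sub_zero]
      calc _ ≤ (Set.univ : Set (Fin L → Fin 6)).ncard := Set.ncard_le_ncard (Set.subset_univ _)
        _ = 6 ^ L := by
            rw [Set.ncard_univ, Nat.card_eq_fintype_card, Fintype.card_fun, Fintype.card_fin,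
              Fintype.card_fin]
    · obtain ⟨h, K, hh, hK, hnum⟩ := numerics ℓ L e he he0
      choose N₀ hN₀ using fun (j : ℤ) (w : Fin ℓ → Fin 6) => miss_card (L := L) hy p j w hh hK
      refine ⟨J.sup fun j => Finset.univ.sup fun w => N₀ j w, fun N hN => ?_⟩
      have hN' : ∀ j ∈ J, ∀ w, N₀ j w ≤ N := by
        intro j hj w
        have h1 : N₀ j w ≤ Finset.univ.sup fun w => N₀ j w :=
          Finset.le_sup (f := fun w => N₀ j w) (Finset.mem_univ w)
        have h2 : (Finset.univ.sup fun w => N₀ j w) ≤ J.sup fun j => Finset.univ.sup fun w => N₀ j w :=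
          Finset.le_sup (f := fun j => Finset.univ.sup fun w => N₀ j w) hj
        omega
      set P : Finset (ℤ × (Fin ℓ → Fin 6)) := J ×ˢ Finset.univ with hP
      have hPcard : P.card ≤ 3 * 6 ^ e * 6 ^ ℓ := by
        rw [hP, Finset.card_product, Finset.card_univ, Fintype.card_fun, Fintype.card_fin,
          Fintype.card_fin]
        exact Nat.mul_le_mul_right _ hJ
      have hsub : {u : Fin L → Fin 6 | ¬ ∀ j ∈ J, ∀ w : Fin ℓ → Fin 6,
          ∃ n : ℕ, N ≤ n ∧ 5 * n ≤ 8 * N ∧ Shows (F^[n] (overwrite y p u)) j w} ⊆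
          ⋃ x ∈ P, miss y p x.1 x.2 N := by
        intro u hu
        rw [Set.mem_ofPred_eq] at hu
        push Not at hu
        obtain ⟨j, hj, w, hw⟩ := hu
        rw [Set.mem_iUnion₂]
        refine ⟨(j, w), ?_, ?_⟩
        · rw [hP, Finset.mem_product]
          exact ⟨hj, Finset.mem_univ _⟩
        · rintro ⟨n, h1, h2, h3⟩
          exact hw n h1 h2 h3
      have hU : (⋃ x ∈ P, miss (L := L) y p x.1 x.2 N).ncard ≤ ∑ x ∈ P, (miss (L := L) y p x.1 x.2 N).ncard := by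
        exact Finset.set_ncard_biUnion_le P fun x => miss y p x.1 x.2 N
      have hcard := (Set.ncard_le_ncard hsub (Set.toFinite _)).trans hU
      have hHK : 0 < (3 ^ h) ^ K := by positivity
      apply Nat.le_of_mul_le_mul_right _ hHK
      have hLe : 6 ^ L = 6 ^ (L - e) * 6 ^ e := by
        rw [← pow_add]
        congr 1
        have : e ≤ L := by
          rw [he]
          exact Nat.div_le_self _ _
        omega
      calc _ ≤ (∑ x ∈ P, (miss (L := L) y p x.1 x.2 N).ncard) * (3 ^ h) ^ K :=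
            Nat.mul_le_mul_right _ hcard
        _ = ∑ x ∈ P, (miss (L := L) y p x.1 x.2 N).ncard * (3 ^ h) ^ K := Finset.sum_mul _ _ _
        _ ≤ ∑ x ∈ P, 8 * 6 ^ L * (3 ^ h - 1) ^ K := by
            apply Finset.sum_le_sum
            intro x hx
            rw [hP, Finset.mem_product] at hx
            exact hN₀ x.1 x.2 N (hN' x.1 hx.1 x.2)
        _ = P.card * (8 * 6 ^ L * (3 ^ h - 1) ^ K) := by
            rw [Finset.sum_const, smul_eq_mul]
        _ ≤ (3 * 6 ^ e * 6 ^ ℓ) * (8 * 6 ^ L * (3 ^ h - 1) ^ K) := Nat.mul_le_mul_right _ hPcard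
        _ = 6 ^ (L - e) * ((3 * 6 ^ e) * 6 ^ ℓ * (8 * 6 ^ e) * (3 ^ h - 1) ^ K) := by
            rw [hLe]
            ring
        _ ≤ 6 ^ (L - e) * (3 ^ h) ^ K := Nat.mul_le_mul_left _ hnum
  refine ⟨?_, main⟩
  -- the first part
  obtain ⟨N₀, hN₀⟩ := main
  -- for `u` failing the first property a time after which a word is never shown
  have hM : ∀ u : Fin L → Fin 6, ∃ M : ℕ, (¬ ∀ j ∈ J, ∀ w : Fin ℓ → Fin 6,
      {n : ℕ | Shows (F^[n] (overwrite y p u)) j w}.Infinite) → ∀ N ≥ M,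
      ¬ ∀ j ∈ J, ∀ w : Fin ℓ → Fin 6,
        ∃ n : ℕ, N ≤ n ∧ 5 * n ≤ 8 * N ∧ Shows (F^[n] (overwrite y p u)) j w := by
    intro u
    by_cases hgood : ∀ j ∈ J, ∀ w : Fin ℓ → Fin 6,
        {n : ℕ | Shows (F^[n] (overwrite y p u)) j w}.Infinite
    · exact ⟨0, fun hcon => absurd hgood hcon⟩
    · push Not at hgood
      obtain ⟨j, hj, w, hw⟩ := hgood
      obtain ⟨M, hM⟩ := hw.bddAbove
      refine ⟨M + 1, fun _ N hN hall => ?_⟩
      obtain ⟨n, h1, _, h3⟩ := hall j hj w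
      have := hM (show n ∈ {n : ℕ | Shows (F^[n] (overwrite y p u)) j w} from h3)
      omega
  choose M hM' using hM
  set N := max N₀ (Finset.univ.sup M) with hN
  refine le_trans (Set.ncard_le_ncard ?_ (Set.toFinite _)) (hN₀ N (le_max_left _ _))
  intro u hu
  refine hM' u hu N ?_
  exact (Finset.le_sup (f := M) (Finset.mem_univ u)).trans (le_max_right _ _)

end Pool.Agent.Results.MP_cc0c1a_nt.LocalModifications
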