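import Mathlib
import Pool.Agent.Lib.MP_cc0c1a_nt.Tri2.Final

set_option autoImplicit false

/-!
# MP_cc0c1a_nt: every word occurs at least `c H^(2-ε)` times in every space-time window

The proof looks at the array `g 3^b / 2^a` modulo one. The cells close to an integer form disjoint
triangles of one orientation and one shape. The Subspace theorem bounds the sum of the sizes of the
triangles of size at least `w` which meet a triangle of size `M w` by `(1 + o(1)) M w`; so the
triangles of every large scale cover only a small proportion of the cells which are left free by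
the larger ones.
-/

namespace Pool.Agent.Results.MP_cc0c1a_nt.NearFullCount

/-- A configuration: a two-sided infinite word over the alphabet `{0,...,5}`. -/
abbrev Config : Type := ℤ → Fin 6

/-- The local rule `f(s,t) = (3 s mod 6) + ⌊3 t / 6⌋`. -/
def localRule (s t : Fin 6) : Fin 6 :=
  ⟨(3 * s.val) % 6 + (3 * t.val) / 6, by omega⟩

/-- The automaton `F_{×3}`. -/
def Fx3 (x : Config) : Config := fun i => localRule (x i) (x (i + 1))

/-- The right shift `σ⁻¹`. -/
def rightShift (x : Config) : Config := fun i => x (i - 1)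

/-- The automaton `F = F_{×3} ∘ F_{×3} ∘ σ⁻¹`. -/
def F (x : Config) : Config := Fx3 (Fx3 (rightShift x))

/-- Finite configurations: only finitely many nonzero digits. -/
def IsFin (x : Config) : Prop := {i : ℤ | x i ≠ 0}.Finite

/-- The configuration `y` shows the word `w` of length `ℓ` starting at the position `j`. -/
def Shows {ℓ : ℕ} (y : Config) (j : ℤ) (w : Fin ℓ → Fin 6) : Prop := ∀ i : Fin ℓ, y (j + i) = w i

/-- For every `ℓ` and every `ε > 0` there are `c > 0` and `H₀` such that for every finite
configuration `x` other than the all-zero one there is `N₀` with the following property. In every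
time window `n₀ ≤ n < n₀ + H` with `n₀ ≥ N₀` and `H ≥ H₀`, every word `w` of length `ℓ` is shown
by `F^n(x)` at the position `j` for at least `c H^(2-ε)` pairs `(n, j)`, all with
`|n - j| ≤ N₀ + H`. -/
theorem result (ℓ : ℕ) (ε : ℝ) (hε : 0 < ε) : ∃ c : ℝ, 0 < c ∧ ∃ H₀ : ℕ, ∀ x : Config,
    IsFin x → x ≠ 0 → ∃ N₀ : ℕ, ∀ n₀ H : ℕ, N₀ ≤ n₀ → H₀ ≤ H → ∀ w : Fin ℓ → Fin 6,
      ∃ S : Finset (ℕ × ℤ), c * (H : ℝ) ^ (2 - ε) ≤ (S.card : ℝ) ∧
        ∀ p ∈ S, n₀ ≤ p.1 ∧ p.1 < n₀ + H ∧ |(p.1 : ℤ) - p.2| ≤ N₀ + H ∧
          Shows (F^[p.1] x) p.2 w :=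
  MPcc0Tri2.final ℓ ε hε

end Pool.Agent.Results.MP_cc0c1a_nt.NearFullCount
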