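import Mathlib
import Pool.Agent.Lib.MP_cc0c1a_nt.Tri3.Final4

set_option autoImplicit false

/-!
# MP_cc0c1a_nt: every macroscopic path in the space-time diagram has a point around which all words
occur often, at all scales

The proof looks at the array `g 3^b / 2^a` modulo one. The cells close to an integer form disjoint
triangles of one orientation and one shape. By the Subspace theorem the triangles inside the support
are small compared with the time, and the sum of the sizes of the triangles of size at least `w` which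
meet a triangle of size `M w` is at most `(1 + o(1)) M w`; so the triangles of every large scale cover
only a small proportion of the cells which are left free by the larger ones. Between two
neighbouring triangles there are free cells.
-/

namespace Pool.Agent.Results.MP_cc0c1a_nt.RichPaths

/-- A configuration: a two-sided infinite word over the alphabet `{0,...,5}`. -/
abbrev Config : Type := ℤ → Fin 6

/-- The local rule `f(s,t) = (3 s mod 6) + ⌊3 t / 6⌋`. -/
def localRule (s t : Fin 6) : Fin 6 :=
  ⟨(3 * s.val) % 6 + (3 * t.val) / 6, by omega⟩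

/-- The automaton `F_{×3}`. -/
def Fx3 (x : Config) : Config := fun i => localRule (x i) (x (i + 1))

/-- The right shift `σ⁻¹`. -/
def rightShift (x : Config) : Config := fun i => x (i - 1)

/-- The automaton `F = F_{×3} ∘ F_{×3} ∘ σ⁻¹`. -/
def F (x : Config) : Config := Fx3 (Fx3 (rightShift x))

/-- Finite configurations: only finitely many nonzero digits. -/
def IsFin (x : Config) : Prop := {i : ℤ | x i ≠ 0}.Finite

/-- The configuration `y` shows the word `w` of length `ℓ` starting at the position `j`. -/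
def Shows {ℓ : ℕ} (y : Config) (j : ℤ) (w : Fin ℓ → Fin 6) : Prop := ∀ i : Fin ℓ, y (j + i) = w i

/-- The position `j` lies between two nonzero digits of `F^n(x)` (or is one of them). -/
def Inside (x : Config) (n : ℕ) (j : ℤ) : Prop :=
  (∃ i ≤ j, F^[n] x i ≠ 0) ∧ ∃ i, j ≤ i ∧ F^[n] x i ≠ 0

/-- `q(0), ..., q(T)` is a path in space-time: consecutive points differ by at most one in each
coordinate. -/
def IsPath (T : ℕ) (q : ℕ → ℕ × ℤ) : Prop :=
  ∀ t < T, |((q (t + 1)).1 : ℤ) - (q t).1| ≤ 1 ∧ |(q (t + 1)).2 - (q t).2| ≤ 1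

/-- Around the point `(n, j)` all words of length `ℓ` occur often, at all scales
`H₀ ≤ H ≤ n₀ / 5`. -/
def Rich (x : Config) (ℓ : ℕ) (ε c : ℝ) (H₀ n₀ : ℕ) (n : ℕ) (j : ℤ) : Prop :=
  ∀ H : ℕ, H₀ ≤ H → 5 * H ≤ n₀ → ∀ w : Fin ℓ → Fin 6,
    ∃ S : Finset (ℕ × ℤ), c * (H : ℝ) ^ (2 - ε) ≤ (S.card : ℝ) ∧
      ∀ p ∈ S, |(p.1 : ℤ) - n| ≤ H ∧ |p.2 - j| ≤ H ∧ Shows (F^[p.1] x) p.2 w

/-- For every `ℓ` and every `ε > 0` there are `c > 0` and `H₀` such that for every finite
configuration `x` other than the all-zero one and every `η > 0` there is `N₀` with the following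
property. Every path `q(0), ..., q(T)` which starts at a time `n₀ ≥ N₀` inside the support of
`F^{n₀}(x)` (between two nonzero digits) and which either ends outside the support or ends at a
distance at least `η n₀` from its start, has a point `q(t)` such that, for all `H` with
`H₀ ≤ H ≤ n₀ / 5`, every word of length `ℓ` occurs at least `c H^(2-ε)` times within distance `H`
of `q(t)`. -/
theorem result (ℓ : ℕ) (ε : ℝ) (hε : 0 < ε) : ∃ c : ℝ, 0 < c ∧ ∃ H₀ : ℕ, ∀ x : Config,
    IsFin x → x ≠ 0 → ∀ η : ℝ, 0 < η → ∃ N₀ : ℕ, ∀ (T : ℕ) (q : ℕ → ℕ × ℤ), N₀ ≤ (q 0).1 →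
      IsPath T q → Inside x (q 0).1 (q 0).2 →
      (¬ Inside x (q T).1 (q T).2 ∨
        η * (q 0).1 ≤ |((q T).1 : ℝ) - (q 0).1| ∨ η * (q 0).1 ≤ |((q T).2 : ℝ) - (q 0).2|) →
      ∃ t ≤ T, Rich x ℓ ε c H₀ (q 0).1 (q t).1 (q t).2 :=
  MPcc0Tri3.final_rich ℓ ε hε

end Pool.Agent.Results.MP_cc0c1a_nt.RichPaths
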