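import Mathlib
import Pool.Agent.Lib.MP_cc0c1a_nt.Tri.Core

set_option autoImplicit false

/-!
# MP_cc0c1a_nt: every word occurs at least `c H^(7/5)` times in every space-time window

The proof looks at the array `g 3^b / 2^a` modulo one. The cells close to an integer form disjoint
triangles of one orientation and one shape; a potential argument bounds from below the number of
cells between the triangles.
-/

namespace Pool.Agent.Results.MP_cc0c1a_nt.SpaceTimeCount

/-- A configuration: a two-sided infinite word over the alphabet `{0,...,5}`. -/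
abbrev Config : Type := ℤ → Fin 6

/-- The local rule `f(s,t) = (3 s mod 6) + ⌊3 t / 6⌋`. -/
def localRule (s t : Fin 6) : Fin 6 :=
  ⟨(3 * s.val) % 6 + (3 * t.val) / 6, by omega⟩

/-- The automaton `F_{×3}`. -/
def Fx3 (x : Config) : Config := fun i => localRule (x i) (x (i + 1))

/-- The right shift `σ⁻¹`. -/
def rightShift (x : Config) : Config := fun i => x (i - 1)

/-- The automaton `F = F_{×3} ∘ F_{×3} ∘ σ⁻¹`. -/
def F (x : Config) : Config := Fx3 (Fx3 (rightShift x))

/-- Finite configurations: only finitely many nonzero digits. -/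
def IsFin (x : Config) : Prop := {i : ℤ | x i ≠ 0}.Finite

/-- The configuration `y` shows the word `w` of length `ℓ` starting at the position `j`. -/
def Shows {ℓ : ℕ} (y : Config) (j : ℤ) (w : Fin ℓ → Fin 6) : Prop := ∀ i : Fin ℓ, y (j + i) = w i

/-- For every `ℓ` there are `c > 0` and `H₀` such that for every finite configuration `x` other
than the all-zero one there is `N₀` with the following property. In every time window
`n₀ ≤ n < n₀ + H` with `n₀ ≥ N₀` and `H ≥ H₀`, every word `w` of length `ℓ` is shown by `F^n(x)`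
at the position `j` for at least `c H^(7/5)` pairs `(n, j)`, all with `|n - j| ≤ N₀ + H`. -/
theorem result (ℓ : ℕ) : ∃ c : ℝ, 0 < c ∧ ∃ H₀ : ℕ, ∀ x : Config, IsFin x → x ≠ 0 →
    ∃ N₀ : ℕ, ∀ n₀ H : ℕ, N₀ ≤ n₀ → H₀ ≤ H → ∀ w : Fin ℓ → Fin 6,
      ∃ S : Finset (ℕ × ℤ), c * (H : ℝ) ^ (7 / 5 : ℝ) ≤ (S.card : ℝ) ∧
        ∀ p ∈ S, n₀ ≤ p.1 ∧ p.1 < n₀ + H ∧ |(p.1 : ℤ) - p.2| ≤ N₀ + H ∧
          Shows (F^[p.1] x) p.2 w :=
  MPcc0Tri.core ℓ

end Pool.Agent.Results.MP_cc0c1a_nt.SpaceTimeCount
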