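import Mathlib

set_option autoImplicit false

open Filter Topology

namespace Pool.Agent.Results.MP_cc0c1a_nt.SyndeticPositions

/-- A configuration: a two-sided infinite word over the alphabet `{0,...,5}`, with the product
topology of the discrete topology. -/
abbrev Config : Type := ℤ → Fin 6

/-- The local rule `f(s,t) = (3 s mod 6) + ⌊3 t / 6⌋`. -/
def localRule (s t : Fin 6) : Fin 6 :=
  ⟨(3 * s.val) % 6 + (3 * t.val) / 6, by omega⟩

/-- The automaton `F_{×3}`. -/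
def Fx3 (x : Config) : Config := fun i => localRule (x i) (x (i + 1))

/-- The right shift `σ⁻¹`. -/
def rightShift (x : Config) : Config := fun i => x (i - 1)

/-- The automaton `F = F_{×3} ∘ F_{×3} ∘ σ⁻¹`. -/
def F (x : Config) : Config := Fx3 (Fx3 (rightShift x))

/-- Finite configurations: only finitely many nonzero digits. -/
def IsFin (x : Config) : Prop := {i : ℤ | x i ≠ 0}.Finite

/-- The configuration `y` shows the word `w` of length `ℓ` starting at the position `j`. -/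
def Shows {ℓ : ℕ} (y : Config) (j : ℤ) (w : Fin ℓ → Fin 6) : Prop := ∀ i : Fin ℓ, y (j + i) = w i

/-! ### The configuration of digits of a real number -/

/-- Digit configuration of a nonnegative real number. -/
noncomputable def dig (z : ℝ) : Config :=
  fun i => ⟨⌊(6 : ℝ) ^ i * z⌋₊ % 6, Nat.mod_lt _ (by norm_num)⟩

lemma rightShift_dig (z : ℝ) : rightShift (dig z) = dig (z / 6) := by
  funext i
  unfold rightShift dig
  apply Fin.ext
  simp only
  congr 2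
  rw [zpow_sub_one₀ (by norm_num : (6:ℝ) ≠ 0)]
  ring

lemma Fx3_dig (z : ℝ) : Fx3 (dig z) = dig (3 * z) := by
  funext i
  unfold Fx3 dig localRule
  apply Fin.ext
  simp only
  set u := ⌊(6 : ℝ) ^ (i + 1) * z⌋₊ with hu
  have h1 : ⌊(6 : ℝ) ^ i * z⌋₊ = u / 6 := by
    rw [hu, ← Nat.floor_div_natCast]
    congr 1
    rw [zpow_add_one₀ (by norm_num : (6:ℝ) ≠ 0)]
    push_cast
    ring
  have h2 : ⌊(6 : ℝ) ^ i * (3 * z)⌋₊ = u / 2 := by
    rw [hu, ← Nat.floor_div_natCast]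
    congr 1
    rw [zpow_add_one₀ (by norm_num : (6:ℝ) ≠ 0)]
    push_cast
    ring
  rw [h1, h2]
  omega

lemma F_dig (z : ℝ) : F (dig z) = dig (z * (3 / 2)) := by
  unfold F
  rw [rightShift_dig, Fx3_dig, Fx3_dig]
  congr 1
  ring

lemma iter_F_dig (z : ℝ) (n : ℕ) : F^[n] (dig z) = dig (z * (3 / 2) ^ n) := by
  induction n with
  | zero => simp
  | succ n ih =>
    rw [Function.iterate_succ_apply', ih, F_dig]
    congr 1
    ring

/-- Every word is the word of base-6 digits of a natural number. -/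
lemma exists_digits (a : ℕ → Fin 6) (n : ℕ) :
    ∃ N : ℕ, N < 6 ^ n ∧ ∀ k, k < n → N / 6 ^ k % 6 = (a k : ℕ) := by
  induction n with
  | zero => exact ⟨0, by simp, by intro k hk; omega⟩
  | succ n ih =>
    obtain ⟨N, hN, h⟩ := ih
    refine ⟨N + 6 ^ n * (a n : ℕ), ?_, ?_⟩
    · have := (a n).isLt
      calc N + 6 ^ n * (a n : ℕ) < 6 ^ n + 6 ^ n * (a n : ℕ) := by omega
        _ = 6 ^ n * ((a n : ℕ) + 1) := by ring
        _ ≤ 6 ^ n * 6 := Nat.mul_le_mul_left _ (by omega)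
        _ = 6 ^ (n + 1) := by ring
    · intro k hk
      rcases Nat.lt_succ_iff_lt_or_eq.mp hk with hk' | rfl
      · rw [← h k hk']
        have : 6 ^ n = 6 ^ k * (6 * 6 ^ (n - k - 1)) := by
          rw [← pow_succ', ← pow_add]
          congr 1
          omega
        rw [this, mul_assoc, Nat.add_mul_div_left _ _ (by positivity), mul_assoc,
          Nat.add_mul_mod_self_left]
      · rw [Nat.add_mul_div_left _ _ (by positivity), Nat.div_eq_of_lt hN, zero_add,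
          Nat.mod_eq_of_lt (a k).isLt]

lemma floor_zpow_neg (N : ℕ) (k : ℕ) : ⌊(6 : ℝ) ^ (-(k : ℤ)) * N⌋₊ = N / 6 ^ k := by
  have : (6 : ℝ) ^ (-(k : ℤ)) * N = (N : ℝ) / ((6 ^ k : ℕ) : ℝ) := by
    rw [zpow_neg, zpow_natCast]
    push_cast
    field_simp
  rw [this, Nat.floor_div_natCast, Nat.floor_natCast]

/-- Every finite configuration is the digit configuration of some `N / 6 ^ r`. -/
lemma fin_eq_dig {x : Config} (hx : IsFin x) : ∃ N r : ℕ, x = dig ((N : ℝ) / 6 ^ r) := by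
  obtain ⟨B, hB⟩ : ∃ B : ℕ, ∀ i : ℤ, x i ≠ 0 → |i| ≤ B := by
    obtain ⟨b, hb⟩ := (hx.image (fun i : ℤ => |i|)).bddAbove
    refine ⟨b.toNat, fun i hi => ?_⟩
    have : |i| ≤ b := hb ⟨i, hi, rfl⟩
    have h2 := Int.self_le_toNat b
    omega
  obtain ⟨N, hN, h⟩ := exists_digits (fun k => x ((B : ℤ) - k)) (2 * B + 1)
  refine ⟨N, B, ?_⟩
  funext i
  apply Fin.ext
  unfold dig
  simp only
  have hre : (6 : ℝ) ^ i * ((N : ℝ) / 6 ^ B) = (6 : ℝ) ^ (i - B) * N := by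
    rw [zpow_sub₀ (by norm_num : (6:ℝ) ≠ 0), zpow_natCast]
    ring
  rw [hre]
  rcases le_or_gt i B with hi | hi
  · obtain ⟨k, hk⟩ : ∃ k : ℕ, (B : ℤ) - i = k := ⟨((B : ℤ) - i).toNat, by omega⟩
    have hi' : i - B = -(k : ℤ) := by omega
    rw [hi', floor_zpow_neg]
    rcases lt_or_ge k (2 * B + 1) with hk2 | hk2
    · rw [h k hk2]
      congr 2
      omega
    · have h0 : x i = 0 := by
        by_contra hne
        have := hB i hne
        rw [abs_le] at this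
        omega
      rw [h0, Nat.div_eq_of_lt (lt_of_lt_of_le hN (Nat.pow_le_pow_right (by norm_num) hk2))]
      rfl
  · have h0 : x i = 0 := by
      by_contra hne
      have := hB i hne
      rw [abs_le] at this
      omega
    obtain ⟨k, hk⟩ : ∃ k : ℕ, i - (B : ℤ) = (k : ℤ) + 1 := ⟨(i - (B : ℤ) - 1).toNat, by omega⟩
    rw [hk, h0]
    have : (6 : ℝ) ^ ((k : ℤ) + 1) * N = ((6 * (6 ^ k * N) : ℕ) : ℝ) := by
      rw [zpow_add_one₀ (by norm_num : (6:ℝ) ≠ 0), zpow_natCast]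
      push_cast
      ring
    rw [this, Nat.floor_natCast, Nat.mul_mod_right]
    rfl

/-- The number whose base-6 digits are the letters of `w`. -/
lemma exists_code {ℓ : ℕ} (w : Fin ℓ → Fin 6) :
    ∃ W : ℕ, W < 6 ^ ℓ ∧ ∀ i : Fin ℓ, W / 6 ^ (ℓ - 1 - (i : ℕ)) % 6 = (w i : ℕ) := by
  obtain ⟨W, hW, h⟩ := exists_digits
    (fun k => if hk : k < ℓ then w ⟨ℓ - 1 - k, by omega⟩ else 0) ℓ
  refine ⟨W, hW, fun i => ?_⟩
  have hi := i.isLt
  rw [h (ℓ - 1 - i) (by omega)]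
  rw [dif_pos (by omega)]
  congr 2
  apply Fin.ext
  simp only
  omega

lemma shows_of_floor {ℓ W : ℕ} {w : Fin ℓ → Fin 6}
    (hW : ∀ i : Fin ℓ, W / 6 ^ (ℓ - 1 - (i : ℕ)) % 6 = (w i : ℕ)) {y : ℝ} {j : ℤ}
    (h : ⌊(6 : ℝ) ^ (j + ℓ - 1) * y⌋₊ % 6 ^ ℓ = W) : Shows (dig y) j w := by
  intro i
  apply Fin.ext
  have hi := i.isLt
  unfold dig
  simp only
  set k := ℓ - 1 - (i : ℕ) with hk
  have h1 : ⌊(6 : ℝ) ^ (j + i) * y⌋₊ = ⌊(6 : ℝ) ^ (j + ℓ - 1) * y⌋₊ / 6 ^ k := by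
    have h2 : (6 : ℝ) ^ (j + i) * y = (6 : ℝ) ^ (j + ℓ - 1) * y / ((6 ^ k : ℕ) : ℝ) := by
      have hi2 : j + i = (j + ℓ - 1) - (k : ℤ) := by omega
      rw [hi2, zpow_sub₀ (by norm_num : (6 : ℝ) ≠ 0) _ (k : ℤ), zpow_natCast]
      push_cast
      ring
    rw [h2, Nat.floor_div_natCast]
  rw [h1, ← hW i, ← h]
  have h3 : (6 : ℕ) ^ ℓ = 6 ^ k * 6 * 6 ^ (ℓ - 1 - k) := by
    rw [← pow_succ, ← pow_add]
    congr 1
    omega
  rw [← Nat.mod_mul_right_div_self, ← Nat.mod_mul_right_div_self (_ % 6 ^ ℓ), h3,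
    Nat.mod_mul_right_mod]


/-! ### Non-lacunarity -/

/-- One-sided approximation: a small positive combination `u a - v b` lets us reach every large
`s` up to `ε`. -/
lemma reach {a b ε : ℝ} (hb : 0 < b) {u v : ℕ} (hε : ε = u * a - v * b)
    (hε0 : 0 < ε) : ∃ S : ℝ, ∀ s : ℝ, S ≤ s → ∃ m n : ℕ, s ≤ m * a + n * b ∧ m * a + n * b ≤ s + ε := by
  set k0 : ℕ := ⌈b / ε⌉₊ with hk0
  refine ⟨(k0 * v + 1) * b, fun s hs => ?_⟩
  have hs0 : 0 ≤ s := le_trans (by positivity) hs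
  set n0 : ℕ := ⌊s / b⌋₊ with hn0
  have h1 : (n0 : ℝ) * b ≤ s := by
    have := Nat.floor_le (div_nonneg hs0 hb.le)
    rwa [le_div_iff₀ hb] at this
  have h2 : s < (n0 + 1) * b := by
    have := Nat.lt_floor_add_one (s / b)
    rwa [div_lt_iff₀ hb] at this
  set k : ℕ := ⌈(s - n0 * b) / ε⌉₊ with hk
  have hk1 : s ≤ n0 * b + k * ε := by
    have := Nat.le_ceil ((s - n0 * b) / ε)
    rw [div_le_iff₀ hε0] at this
    linarith
  have hk2 : n0 * b + k * ε ≤ s + ε := by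
    have := Nat.ceil_lt_add_one (div_nonneg (sub_nonneg.2 h1) hε0.le)
    rw [← hk] at this
    have h3 : (k : ℝ) * ε < ((s - n0 * b) / ε + 1) * ε := by
      apply mul_lt_mul_of_pos_right this hε0
    rw [add_mul, div_mul_cancel₀ _ hε0.ne'] at h3
    linarith
  have hkk : k ≤ k0 := by
    apply Nat.ceil_le_ceil
    apply div_le_div_of_nonneg_right _ hε0.le
    linarith
  have hn : k0 * v ≤ n0 := by
    rw [hn0]
    apply Nat.le_floor
    rw [le_div_iff₀ hb]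
    push_cast
    nlinarith
  have hn' : k * v ≤ n0 := le_trans (Nat.mul_le_mul_right _ hkk) hn
  refine ⟨k * u, n0 - k * v, ?_, ?_⟩
  · rw [Nat.cast_sub hn']
    push_cast
    have : (k : ℝ) * u * a + (n0 - k * v) * b = n0 * b + k * ε := by rw [hε]; ring
    linarith
  · rw [Nat.cast_sub hn']
    push_cast
    have : (k : ℝ) * u * a + (n0 - k * v) * b = n0 * b + k * ε := by rw [hε]; ring
    linarith

lemma log_ne {p q : ℕ} (hp : 1 < p) (hq : 1 < q) (hpq : Nat.Coprime p q) (k : ℕ) (hk : 0 < k)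
    (j : ℕ) : (k : ℝ) * Real.log p ≠ j * Real.log q := by
  intro h
  rw [← Real.log_pow, ← Real.log_pow] at h
  have hp0 : (0 : ℝ) < (p : ℝ) ^ k := by positivity
  have hq0 : (0 : ℝ) < (q : ℝ) ^ j := by positivity
  have h1 := Real.log_injOn_pos (Set.mem_Ioi.2 hp0) (Set.mem_Ioi.2 hq0) h
  have h2 : p ^ k = q ^ j := by exact_mod_cast h1
  have h3 : Nat.Coprime (p ^ k) (q ^ j) := Nat.Coprime.pow _ _ hpq
  rw [← h2, Nat.coprime_self] at h3
  have h4 : 1 < p ^ k := Nat.one_lt_pow hk.ne' hp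
  omega

lemma small_comb {p q : ℕ} (hp : 1 < p) (hq : 1 < q) (hpq : Nat.Coprime p q) {δ : ℝ}
    (hδ : 0 < δ) : ∃ u v : ℕ, (u : ℝ) * Real.log p - v * Real.log q ≠ 0 ∧
      |(u : ℝ) * Real.log p - v * Real.log q| ≤ δ := by
  have hlp : 0 < Real.log p := Real.log_pos (by exact_mod_cast hp)
  have hlq : 0 < Real.log q := Real.log_pos (by exact_mod_cast hq)
  set n : ℕ := ⌈Real.log q / δ⌉₊ + 1 with hn
  have hn0 : 0 < n := by omega
  obtain ⟨j, k, hk0, -, hjk⟩ := Real.exists_int_int_abs_mul_sub_le (Real.log p / Real.log q) hn0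
  have hnpos : (0 : ℝ) < (n : ℝ) := by exact_mod_cast hn0
  have hlt1 : (1 : ℝ) / (n + 1) < 1 := by
    rw [div_lt_one (by positivity)]
    linarith
  have hj0 : 0 ≤ j := by
    by_contra hneg
    push Not at hneg
    have h1 : (j : ℝ) ≤ -1 := by exact_mod_cast (by omega : j ≤ -1)
    have h2 : (0 : ℝ) < k * (Real.log p / Real.log q) := by
      have : (0 : ℝ) < k := by exact_mod_cast hk0
      positivity
    have h3 := le_abs_self ((k : ℝ) * (Real.log p / Real.log q) - j)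
    linarith
  obtain ⟨u, rfl⟩ := Int.eq_ofNat_of_zero_le hk0.le
  obtain ⟨v, rfl⟩ := Int.eq_ofNat_of_zero_le hj0
  refine ⟨u, v, ?_, ?_⟩
  · rw [sub_ne_zero]
    exact log_ne hp hq hpq u (by exact_mod_cast hk0) v
  · have h4 : (u : ℝ) * Real.log p - v * Real.log q
        = ((u : ℝ) * (Real.log p / Real.log q) - v) * Real.log q := by
      field_simp
    rw [h4, abs_mul, abs_of_pos hlq]
    push_cast at hjk
    calc _ ≤ 1 / ((n : ℝ) + 1) * Real.log q := mul_le_mul_of_nonneg_right hjk hlq.le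
      _ ≤ δ := by
        rw [div_mul_eq_mul_div, one_mul, div_le_iff₀ (by positivity)]
        have h5 := Nat.le_ceil (Real.log q / δ)
        rw [div_le_iff₀ hδ] at h5
        have h6 : (n : ℝ) = ⌈Real.log q / δ⌉₊ + 1 := by rw [hn]; push_cast; ring
        rw [h6]
        nlinarith

/-- The semigroup generated by two coprime numbers is not lacunary. -/
lemma nonlac {p q : ℕ} (hp : 1 < p) (hq : 1 < q) (hpq : Nat.Coprime p q) {δ : ℝ} (hδ : 0 < δ) :
    ∃ K : ℝ, ∀ t : ℝ, K ≤ t → ∃ m n : ℕ, t ≤ (p : ℝ) ^ m * (q : ℝ) ^ n ∧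
      (p : ℝ) ^ m * (q : ℝ) ^ n ≤ (1 + δ) * t := by
  have hlp : 0 < Real.log p := Real.log_pos (by exact_mod_cast hp)
  have hlq : 0 < Real.log q := Real.log_pos (by exact_mod_cast hq)
  have hδ' : 0 < Real.log (1 + δ) := Real.log_pos (by linarith)
  obtain ⟨u, v, hne, hle⟩ := small_comb hp hq hpq hδ'
  have key : ∃ S : ℝ, ∀ s : ℝ, S ≤ s → ∃ m n : ℕ, s ≤ m * Real.log p + n * Real.log q ∧
      m * Real.log p + n * Real.log q ≤ s + Real.log (1 + δ) := by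
    rcases lt_or_gt_of_ne hne with h | h
    · obtain ⟨S, hS⟩ := reach hlp (ε := (v : ℝ) * Real.log q - u * Real.log p) rfl
        (by linarith)
      refine ⟨S, fun s hs => ?_⟩
      obtain ⟨m, n, h1, h2⟩ := hS s hs
      refine ⟨n, m, by linarith, ?_⟩
      rw [abs_of_neg h] at hle
      linarith
    · obtain ⟨S, hS⟩ := reach hlq (ε := (u : ℝ) * Real.log p - v * Real.log q) rfl h
      refine ⟨S, fun s hs => ?_⟩
      obtain ⟨m, n, h1, h2⟩ := hS s hs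
      refine ⟨m, n, h1, ?_⟩
      rw [abs_of_pos h] at hle
      linarith
  obtain ⟨S, hS⟩ := key
  refine ⟨Real.exp S, fun t ht => ?_⟩
  have ht0 : 0 < t := lt_of_lt_of_le (Real.exp_pos S) ht
  obtain ⟨m, n, h1, h2⟩ := hS (Real.log t) ((Real.le_log_iff_exp_le ht0).2 ht)
  have hval : (p : ℝ) ^ m * (q : ℝ) ^ n = Real.exp (m * Real.log p + n * Real.log q) := by
    rw [Real.exp_add, ← Real.log_pow, ← Real.log_pow, Real.exp_log (by positivity),
      Real.exp_log (by positivity)]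
  refine ⟨m, n, ?_, ?_⟩
  · rw [hval, ← Real.log_le_iff_le_exp ht0]
    exact h1
  · rw [hval]
    calc _ ≤ Real.exp (Real.log t + Real.log (1 + δ)) := Real.exp_le_exp.2 h2
      _ = (1 + δ) * t := by
        rw [Real.exp_add, Real.exp_log ht0, Real.exp_log (by linarith)]
        ring


/-! ### Furstenberg's theorem for the semigroup generated by 4 and 9 -/

/-- The circle `ℝ/ℤ`. -/
abbrev T : Type := AddCircle (1 : ℝ)

lemma coe_int (m : ℤ) : ((m : ℝ) : T) = 0 := by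
  rw [AddCircle.coe_eq_zero_iff]
  exact ⟨m, by simp⟩

lemma exists_rep (x : T) : ∃ r : ℝ, (r : T) = x ∧ |r| = ‖x‖ ∧ |r| ≤ 1 / 2 := by
  obtain ⟨s, rfl⟩ := QuotientAddGroup.mk_surjective x
  refine ⟨s - round s, ?_, ?_, abs_sub_round s⟩
  · rw [AddCircle.coe_sub, coe_int, sub_zero]
  · exact (UnitAddCircle.norm_eq (x := s)).symm

lemma norm_coe_le (r : ℝ) : ‖(r : T)‖ ≤ |r| := by
  rw [UnitAddCircle.norm_eq]
  simpa using round_le r 0

lemma nsmul_coe (k : ℕ) (r : ℝ) : k • (r : T) = ((k * r : ℝ) : T) := by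
  rw [← AddCircle.coe_nsmul, nsmul_eq_mul]

lemma norm_coe_small {r : ℝ} (h : |r| ≤ 1 / 2) : ‖(r : T)‖ = |r| := by
  rw [AddCircle.norm_coe_eq_abs_iff (1 : ℝ) one_ne_zero]
  simpa using h

lemma norm_nsmul_small {x : T} {k : ℕ} (h : k * ‖x‖ ≤ 1 / 2) : ‖k • x‖ = k * ‖x‖ := by
  obtain ⟨r, rfl, hr, -⟩ := exists_rep x
  have h1 : |(k : ℝ) * r| = k * ‖(r : T)‖ := by
    rw [abs_mul, Nat.abs_cast, hr]
  rw [nsmul_coe, norm_coe_small (by rw [h1]; exact h), h1]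

lemma pow_smul_mem {D : Set T} {p : ℕ} (h : ∀ x ∈ D, p • x ∈ D) (m : ℕ) :
    ∀ x ∈ D, p ^ m • x ∈ D := by
  induction m with
  | zero => intro x hx; simpa using hx
  | succ m ih =>
    intro x hx
    rw [pow_succ, mul_nsmul]
    exact h _ (ih x hx)

lemma L0 {p q : ℕ} (hp : 1 < p) (hq : 1 < q) (hpq : Nat.Coprime p q) {D : Set T}
    (hD : IsClosed D) (hDp : ∀ x ∈ D, p • x ∈ D) (hDq : ∀ x ∈ D, q • x ∈ D)
    (hsm : ∀ η : ℝ, 0 < η → ∃ x ∈ D, x ≠ 0 ∧ ‖x‖ < η) : D = Set.univ := by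
  apply Set.eq_univ_of_forall
  intro y
  rw [← hD.closure_eq, Metric.mem_closure_iff]
  intro ε hε
  obtain ⟨K, hK⟩ := nonlac hp hq hpq (δ := ε / 4) (by positivity)
  have hM : 0 < max K 1 := lt_of_lt_of_le one_pos (le_max_right _ _)
  obtain ⟨x, hxD, hx0, hx⟩ := hsm (1 / max K 1) (by positivity)
  obtain ⟨r, rfl, hr, -⟩ := exists_rep x
  obtain ⟨y0, rfl, -, hy0⟩ := exists_rep y
  have hrpos : 0 < |r| := by rw [hr]; exact norm_pos_iff.2 hx0
  have hr0 : r ≠ 0 := abs_pos.1 hrpos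
  obtain ⟨y', hy', ht, h1, h2⟩ : ∃ y' : ℝ, ((y' : ℝ) : T) = (y0 : T) ∧ 0 < y' / r ∧
      1 ≤ |y'| ∧ |y'| ≤ 5 / 2 := by
    obtain ⟨h3, h4⟩ := abs_le.1 hy0
    rcases lt_or_gt_of_ne hr0 with h | h
    · refine ⟨y0 - 2, ?_, ?_, ?_, ?_⟩
      · have := coe_int 2
        push_cast at this
        rw [AddCircle.coe_sub, this, sub_zero]
      · exact div_pos_of_neg_of_neg (by linarith) h
      · rw [le_abs]; right; linarith
      · rw [abs_le]; constructor <;> linarith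
    · refine ⟨y0 + 2, ?_, ?_, ?_, ?_⟩
      · have := coe_int 2
        push_cast at this
        rw [AddCircle.coe_add, this, add_zero]
      · exact div_pos (by linarith) h
      · rw [le_abs]; left; linarith
      · rw [abs_le]; constructor <;> linarith
  have habs : y' / r = |y'| / |r| := by
    rw [← abs_div, abs_of_pos ht]
  have hKt : K ≤ y' / r := by
    rw [habs, le_div_iff₀ hrpos]
    rw [← hr] at hx
    rw [lt_div_iff₀ hM] at hx
    calc K * |r| ≤ max K 1 * |r| := mul_le_mul_of_nonneg_right (le_max_left _ _) hrpos.le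
      _ = |r| * max K 1 := mul_comm _ _
      _ ≤ 1 := hx.le
      _ ≤ |y'| := h1
  obtain ⟨m, n, h5, h6⟩ := hK _ hKt
  refine ⟨(p ^ m * q ^ n) • (r : T), ?_, ?_⟩
  · rw [mul_nsmul]
    exact pow_smul_mem hDq n _ (pow_smul_mem hDp m _ hxD)
  · rw [← hy', nsmul_coe, dist_eq_norm, ← AddCircle.coe_sub]
    refine lt_of_le_of_lt (norm_coe_le _) ?_
    push_cast
    set P : ℝ := (p : ℝ) ^ m * (q : ℝ) ^ n with hP
    have h7 : y' - P * r = -((P - y' / r) * r) := by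
      field_simp
      ring
    rw [h7, abs_neg, abs_mul, abs_of_nonneg (by linarith)]
    calc (P - y' / r) * |r| ≤ (ε / 4 * (y' / r)) * |r| := by
          apply mul_le_mul_of_nonneg_right _ hrpos.le
          linarith
      _ = ε / 4 * |y'| := by
          rw [habs]
          field_simp
      _ ≤ ε / 4 * (5 / 2) := by
          apply mul_le_mul_of_nonneg_left h2 (by positivity)
      _ < ε := by linarith

lemma mem_derived {A : Set T} {x : T} :
    x ∈ derivedSet A ↔ ∀ η : ℝ, 0 < η → ∃ y ∈ A, y ≠ x ∧ ‖y - x‖ < η := by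
  rw [mem_derivedSet, accPt_iff_nhds]
  constructor
  · intro h η hη
    obtain ⟨y, ⟨hy1, hy2⟩, hy3⟩ := h _ (Metric.ball_mem_nhds x hη)
    refine ⟨y, hy2, hy3, ?_⟩
    rwa [Metric.mem_ball, dist_eq_norm] at hy1
  · intro h U hU
    obtain ⟨η, hη, hηU⟩ := Metric.mem_nhds_iff.1 hU
    obtain ⟨y, hy1, hy2, hy3⟩ := h η hη
    refine ⟨y, ⟨hηU ?_, hy1⟩, hy2⟩
    rwa [Metric.mem_ball, dist_eq_norm]

lemma derived_inv {A : Set T} {p : ℕ} (hp : 0 < p) (h : ∀ x ∈ A, p • x ∈ A) :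
    ∀ x ∈ derivedSet A, p • x ∈ derivedSet A := by
  intro x hx
  rw [mem_derived] at hx ⊢
  intro η hη
  have hp' : (0 : ℝ) < p := by exact_mod_cast hp
  obtain ⟨y, hyA, hyx, hy⟩ := hx (min (η / p) (1 / (2 * p))) (by positivity)
  have h1 : ‖y - x‖ < η / p := lt_of_lt_of_le hy (min_le_left _ _)
  have h2 : ‖y - x‖ < 1 / (2 * p) := lt_of_lt_of_le hy (min_le_right _ _)
  rw [lt_div_iff₀ hp'] at h1
  rw [lt_div_iff₀ (by positivity)] at h2
  have h3 : ‖p • (y - x)‖ = p * ‖y - x‖ := norm_nsmul_small (by nlinarith)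
  refine ⟨p • y, h y hyA, ?_, ?_⟩
  · intro h4
    rw [nsmul_sub, h4, sub_self, norm_zero] at h3
    have h5 : 0 < ‖y - x‖ := norm_pos_iff.2 (sub_ne_zero.2 hyx)
    nlinarith
  · rw [← nsmul_sub, h3]
    linarith

/-- Differences of a closed infinite invariant set. -/
lemma diff_all {p q : ℕ} (hp : 1 < p) (hq : 1 < q) (hpq : Nat.Coprime p q) {B : Set T}
    (hB : IsClosed B) (hBp : ∀ x ∈ B, p • x ∈ B) (hBq : ∀ x ∈ B, q • x ∈ B)
    (hinf : B.Infinite) (θ : T) : ∃ b ∈ B, b + θ ∈ B := by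
  set D : Set T := (fun z : T × T => z.1 - z.2) '' (B ×ˢ B) with hDdef
  have hDc : IsClosed D := by
    have h1 : IsCompact (B ×ˢ B) := hB.isCompact.prod hB.isCompact
    exact (h1.image continuous_sub).isClosed
  have hinv : ∀ k : ℕ, (∀ x ∈ B, k • x ∈ B) → ∀ x ∈ D, k • x ∈ D := by
    rintro k hk _ ⟨⟨a, b⟩, ⟨ha, hb⟩, rfl⟩
    refine ⟨(k • a, k • b), ⟨hk a ha, hk b hb⟩, ?_⟩
    simp only
    rw [nsmul_sub]
  have hsm : ∀ η : ℝ, 0 < η → ∃ x ∈ D, x ≠ 0 ∧ ‖x‖ < η := by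
    intro η hη
    obtain ⟨x0, hx0⟩ := hinf.exists_accPt_principal
    rw [← mem_derivedSet, mem_derived] at hx0
    obtain ⟨y1, hy1, hy1x, h1⟩ := hx0 (η / 2) (by positivity)
    have h0 : 0 < ‖y1 - x0‖ := norm_pos_iff.2 (sub_ne_zero.2 hy1x)
    obtain ⟨y2, hy2, hy2x, h2⟩ := hx0 ‖y1 - x0‖ h0
    refine ⟨y1 - y2, ⟨(y1, y2), ⟨hy1, hy2⟩, rfl⟩, ?_, ?_⟩
    · rw [sub_ne_zero]
      rintro rfl
      exact lt_irrefl _ h2
    · have h3 : y1 - y2 = (y1 - x0) - (y2 - x0) := by abel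
      rw [h3]
      refine lt_of_le_of_lt (norm_sub_le _ _) ?_
      linarith
  have hD := L0 hp hq hpq hDc (hinv p hBp) (hinv q hBq) hsm
  have hθ : θ ∈ D := by rw [hD]; trivial
  obtain ⟨⟨a, b⟩, ⟨ha, hb⟩, hab⟩ := hθ
  refine ⟨b, hb, ?_⟩
  simp only at hab
  rw [← hab]
  simpa using ha

lemma infinite_of_inv {p : ℕ} (hp : 1 < p) {B : Set T} (hBp : ∀ x ∈ B, p • x ∈ B)
    (hne : B.Nonempty) (hnt : ∀ x ∈ B, ∀ k : ℕ, 0 < k → k • x ≠ 0) : B.Infinite := by
  obtain ⟨x, hx⟩ := hne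
  have hinj : Function.Injective (fun n : ℕ => p ^ n • x) := by
    intro a b hab
    simp only at hab
    wlog hlt : a < b generalizing a b
    · rcases Nat.lt_trichotomy a b with h | h | h
      · exact this hab h
      · exact h
      · exact (this hab.symm h).symm
    exfalso
    have h1 : p ^ a < p ^ b := Nat.pow_lt_pow_right hp hlt
    apply hnt x hx (p ^ b - p ^ a) (by omega)
    have h2 : (p ^ b - p ^ a) • x + p ^ a • x = p ^ b • x := by
      rw [← add_nsmul]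
      congr 1
      omega
    rw [hab] at h2
    simpa using h2
  refine Set.infinite_of_injective_forall_mem hinj (fun n => pow_smul_mem hBp n x hx)

lemma build {p q : ℕ} (hp : 1 < p) (hq : 1 < q) (hpq : Nat.Coprime p q) {A : Set T}
    (hA : IsClosed A) (hAp : ∀ x ∈ A, p • x ∈ A) (hAq : ∀ x ∈ A, q • x ∈ A) (hne : A.Nonempty)
    (hnt : ∀ x ∈ A, ∀ k : ℕ, 0 < k → k • x ≠ 0) (θ : T) (hpθ : p • θ = θ) (hqθ : q • θ = θ)
    (j : ℕ) : ∃ B : Set T, IsClosed B ∧ B.Nonempty ∧ (∀ x ∈ B, p • x ∈ B) ∧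
      (∀ x ∈ B, q • x ∈ B) ∧ ∀ x ∈ B, ∀ i : ℕ, i ≤ j → x + i • θ ∈ A := by
  induction j with
  | zero =>
    refine ⟨A, hA, hne, hAp, hAq, fun x hx i hi => ?_⟩
    obtain rfl : i = 0 := by omega
    simpa using hx
  | succ j ih =>
    obtain ⟨B, hBc, hBne, hBp, hBq, hB⟩ := ih
    have hBA : B ⊆ A := fun x hx => by simpa using hB x hx 0 (Nat.zero_le _)
    have hinf := infinite_of_inv hp hBp hBne (fun x hx => hnt x (hBA hx))
    obtain ⟨b, hb, hbθ⟩ := diff_all hp hq hpq hBc hBp hBq hinf θ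
    refine ⟨B ∩ {x | x + θ ∈ B}, ?_, ⟨b, hb, hbθ⟩, ?_, ?_, ?_⟩
    · exact hBc.inter (hBc.preimage (continuous_id.add continuous_const))
    · rintro x ⟨hx, hxθ⟩
      refine ⟨hBp x hx, ?_⟩
      have := hBp _ hxθ
      rw [nsmul_add, hpθ] at this
      exact this
    · rintro x ⟨hx, hxθ⟩
      refine ⟨hBq x hx, ?_⟩
      have := hBq _ hxθ
      rw [nsmul_add, hqθ] at this
      exact this
    · rintro x ⟨hx, hxθ⟩ i hi
      rcases Nat.lt_or_ge j i with h | h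
      · obtain rfl : i = j + 1 := by omega
        have := hB _ hxθ j le_rfl
        rw [add_nsmul, one_nsmul, add_comm (j • θ) θ, ← add_assoc]
        exact this
      · exact hB x hx i h

lemma fix_of_torsion {k p : ℕ} (hk : 0 < k) (hcop : Nat.Coprime p k) {r : T} (hr : k • r = 0) :
    p ^ k.totient • r = r := by
  have h1 : p ^ k.totient ≡ 1 [MOD k] := Nat.ModEq.pow_totient hcop
  rcases Nat.eq_zero_or_pos p with h0 | h0
  · subst h0
    have hk1 : k = 1 := by simpa using hcop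
    subst hk1
    simp at hr
    simp [hr]
  have h2 : 1 ≤ p ^ k.totient := Nat.one_le_pow _ _ h0
  obtain ⟨m, hm⟩ := (Nat.modEq_iff_dvd' h2).1 h1.symm
  have h3 : p ^ k.totient = k * m + 1 := by omega
  rw [h3, add_nsmul, one_nsmul, mul_nsmul, hr, nsmul_zero, zero_add]

theorem furst {A : Set T} (hA : IsClosed A) (hinf : A.Infinite) (h4 : ∀ x ∈ A, 4 • x ∈ A)
    (h9 : ∀ x ∈ A, 9 • x ∈ A) : A = Set.univ := by
  set A' := derivedSet A with hA'
  have hA'A : A' ⊆ A := (isClosed_iff_derivedSet_subset A).1 hA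
  have hA'c : IsClosed A' := isClosed_derivedSet A
  have hA'4 : ∀ x ∈ A', 4 • x ∈ A' := derived_inv (by norm_num) h4
  have hA'9 : ∀ x ∈ A', 9 • x ∈ A' := derived_inv (by norm_num) h9
  have hA'ne : A'.Nonempty := by
    obtain ⟨x0, hx0⟩ := hinf.exists_accPt_principal
    exact ⟨x0, hx0⟩
  have hcop : ∀ m : ℕ, 0 < m → Nat.Coprime (4 ^ m) (9 ^ m) := fun m _ =>
    Nat.Coprime.pow _ _ (by norm_num)
  by_cases htor : ∃ r ∈ A', ∃ k : ℕ, 0 < k ∧ k • r = 0
  · obtain ⟨r, hr, k, hk, hkr⟩ := htor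
    obtain ⟨a, k1, hk1, rfl⟩ := Nat.exists_eq_pow_mul_and_not_dvd hk.ne' 2 (by norm_num)
    have hk10 : k1 ≠ 0 := by rintro rfl; simp at hk
    obtain ⟨b, k2, hk2, rfl⟩ := Nat.exists_eq_pow_mul_and_not_dvd hk10 3 (by norm_num)
    have hk20 : 0 < k2 := Nat.pos_of_ne_zero (by rintro rfl; simp at hk)
    have h2k2 : ¬ 2 ∣ k2 := fun h => hk1 (Dvd.dvd.mul_left h _)
    have hc4 : Nat.Coprime 4 k2 := by
      have : Nat.Coprime 2 k2 := (Nat.Prime.coprime_iff_not_dvd Nat.prime_two).2 h2k2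
      exact Nat.Coprime.pow_left 2 this
    have hc9 : Nat.Coprime 9 k2 := by
      have : Nat.Coprime 3 k2 := (Nat.Prime.coprime_iff_not_dvd Nat.prime_three).2 hk2
      exact Nat.Coprime.pow_left 2 this
    set r' : T := 4 ^ a • 9 ^ b • r with hr'
    have hr'A : r' ∈ A' := pow_smul_mem hA'4 a _ (pow_smul_mem hA'9 b _ hr)
    have hk2r : k2 • r' = 0 := by
      rw [hr', ← mul_nsmul', ← mul_nsmul']
      have h1 : k2 * (4 ^ a * 9 ^ b) = (2 ^ a * (3 ^ b * k2)) * (2 ^ a * 3 ^ b) := by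
        have h2 : (4 : ℕ) ^ a = 2 ^ a * 2 ^ a := by rw [← mul_pow]; norm_num
        have h3 : (9 : ℕ) ^ b = 3 ^ b * 3 ^ b := by rw [← mul_pow]; norm_num
        rw [h2, h3]; ring
      rw [mul_assoc, h1, mul_nsmul, hkr, nsmul_zero]
    have hφ : 0 < k2.totient := Nat.totient_pos.2 hk20
    have hf4 := fix_of_torsion hk20 hc4 hk2r
    have hf9 := fix_of_torsion hk20 hc9 hk2r
    set p := 4 ^ k2.totient with hp
    set q := 9 ^ k2.totient with hq
    have hp1 : 1 < p := Nat.one_lt_pow hφ.ne' (by norm_num)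
    have hq1 : 1 < q := Nat.one_lt_pow hφ.ne' (by norm_num)
    have hD : {d : T | d + r' ∈ A} = Set.univ := by
      apply L0 hp1 hq1 (hcop _ hφ)
      · exact hA.preimage (continuous_id.add continuous_const)
      · intro x hx
        have hx' : x + r' ∈ A := hx
        have := pow_smul_mem h4 k2.totient _ hx'
        rw [nsmul_add, hf4] at this
        exact this
      · intro x hx
        have hx' : x + r' ∈ A := hx
        have := pow_smul_mem h9 k2.totient _ hx'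
        rw [nsmul_add, hf9] at this
        exact this
      · intro η hη
        obtain ⟨y, hy, hyr, h⟩ := mem_derived.1 hr'A η hη
        refine ⟨y - r', ?_, sub_ne_zero.2 hyr, h⟩
        simpa using hy
    apply Set.eq_univ_of_forall
    intro y
    have : y - r' ∈ {d : T | d + r' ∈ A} := by rw [hD]; trivial
    simpa using this
  · push Not at htor
    exfalso
    have h0 : (0 : T) ∈ A' := by
      rw [← hA'c.closure_eq, Metric.mem_closure_iff]
      intro ε hε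
      obtain ⟨m, hm⟩ := pow_unbounded_of_one_lt (1 / ε) (by norm_num : (1 : ℝ) < 5)
      have hN0 : 0 < 5 ^ m := by positivity
      set N : ℕ := 5 ^ m with hN
      have hN0' : (0 : ℝ) < N := by exact_mod_cast hN0
      have hNε : 1 / (N : ℝ) < ε := by
        rw [div_lt_iff₀ hN0']
        rw [div_lt_iff₀ hε] at hm
        rw [hN]
        push_cast
        linarith
      set θ : T := ((1 / (N : ℝ) : ℝ) : T) with hθ
      have hNθ : N • θ = 0 := by
        rw [hθ, nsmul_coe, mul_one_div_cancel hN0'.ne']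
        have := coe_int 1
        push_cast at this
        exact this
      have hc4 : Nat.Coprime 4 N := Nat.Coprime.pow_right _ (by norm_num)
      have hc9 : Nat.Coprime 9 N := Nat.Coprime.pow_right _ (by norm_num)
      have hφ : 0 < N.totient := Nat.totient_pos.2 hN0
      have hf4 := fix_of_torsion hN0 hc4 hNθ
      have hf9 := fix_of_torsion hN0 hc9 hNθ
      obtain ⟨B, -, ⟨x, hx⟩, -, -, hB⟩ := build (Nat.one_lt_pow hφ.ne' (by norm_num))
        (Nat.one_lt_pow hφ.ne' (by norm_num)) (hcop _ hφ) hA'c (pow_smul_mem hA'4 N.totient)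
        (pow_smul_mem hA'9 N.totient) hA'ne htor θ hf4 hf9 N
      obtain ⟨s, hs, -, hs2⟩ := exists_rep x
      obtain ⟨hs3, hs4⟩ := abs_le.1 hs2
      -- choose i
      set s' : ℝ := s + (if s ≤ 0 then 0 else -1) with hs'
      have hs'x : ((s' : ℝ) : T) = x := by
        rw [hs']
        split_ifs with h
        · rw [add_zero, hs]
        · have := coe_int (-1)
          push_cast at this
          rw [AddCircle.coe_add, this, add_zero, hs]
      have hs'0 : s' ≤ 0 := by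
        rw [hs']
        split_ifs with h
        · linarith
        · linarith
      have hs'1 : -1 ≤ s' := by
        rw [hs']
        split_ifs with h
        · linarith
        · push Not at h; linarith
      set i : ℕ := ⌈-s' * N⌉₊ with hi
      have hiN : i ≤ N := by
        rw [hi]
        apply Nat.ceil_le.2
        nlinarith
      refine ⟨x + i • θ, hB x hx i hiN, ?_⟩
      rw [dist_eq_norm, zero_sub, norm_neg, ← hs'x, hθ, nsmul_coe, ← AddCircle.coe_add]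
      refine lt_of_le_of_lt (norm_coe_le _) ?_
      have h1 : -s' * N ≤ i := Nat.le_ceil _
      have h2 : (i : ℝ) < -s' * N + 1 := Nat.ceil_lt_add_one (by nlinarith)
      have h3 : s' + i * (1 / (N : ℝ)) = (s' * N + i) / N := by field_simp
      rw [h3, abs_of_nonneg (by apply div_nonneg _ hN0'.le; linarith)]
      refine lt_of_le_of_lt ?_ hNε
      apply div_le_div_of_nonneg_right _ hN0'.le
      linarith
    exact htor 0 h0 1 one_pos (by simp)


/-! ### Points avoiding an open set -/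

/-- The points whose `⟨4, 9⟩`-orbit avoids `U`. -/
def Avoid (U : Set T) : Set T := {y | ∀ a b : ℕ, (4 ^ a * 9 ^ b) • y ∉ U}

lemma avoid_closed {U : Set T} (hU : IsOpen U) : IsClosed (Avoid U) := by
  have h : Avoid U = ⋂ a : ℕ, ⋂ b : ℕ, {y | (4 ^ a * 9 ^ b) • y ∉ U} := by
    ext y; simp [Avoid]
  rw [h]
  refine isClosed_iInter fun a => isClosed_iInter fun b => ?_
  exact hU.isClosed_compl.preimage (continuous_nsmul _)

lemma avoid_inv4 {U : Set T} : ∀ x ∈ Avoid U, 4 • x ∈ Avoid U := by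
  intro x hx a b
  rw [← mul_nsmul']
  have h1 : 4 ^ a * 9 ^ b * 4 = 4 ^ (a + 1) * 9 ^ b := by ring
  rw [h1]
  exact hx (a + 1) b

lemma avoid_inv9 {U : Set T} : ∀ x ∈ Avoid U, 9 • x ∈ Avoid U := by
  intro x hx a b
  rw [← mul_nsmul']
  have h1 : 4 ^ a * 9 ^ b * 9 = 4 ^ a * 9 ^ (b + 1) := by ring
  rw [h1]
  exact hx a (b + 1)

lemma avoid_finite {U : Set T} (hU : IsOpen U) (hne : U.Nonempty) : (Avoid U).Finite := by
  by_contra hinf
  have h := furst (avoid_closed hU) hinf avoid_inv4 avoid_inv9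
  obtain ⟨u, hu⟩ := hne
  have h1 : u ∈ Avoid U := by rw [h]; trivial
  have h2 := h1 0 0
  simp at h2
  exact h2 hu

lemma avoid_compact {U : Set T} (hU : IsOpen U) {ε : ℝ} (hε : 0 < ε) :
    ∃ M : ℕ, ∀ y : T, (∀ a ≤ M, ∀ b ≤ M, (4 ^ a * 9 ^ b) • y ∉ U) →
      ∃ p ∈ Avoid U, ‖y - p‖ < ε := by
  by_contra hcon
  push Not at hcon
  set K : ℕ → Set T := fun M => {y | (∀ a ≤ M, ∀ b ≤ M, (4 ^ a * 9 ^ b) • y ∉ U) ∧
    ∀ p ∈ Avoid U, ε ≤ ‖y - p‖} with hK
  have hcl : ∀ M, IsClosed (K M) := by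
    intro M
    apply IsClosed.inter
    · have h : {y : T | ∀ a ≤ M, ∀ b ≤ M, (4 ^ a * 9 ^ b) • y ∉ U}
          = ⋂ a : ℕ, ⋂ (_ : a ≤ M), ⋂ b : ℕ, ⋂ (_ : b ≤ M), {y | (4 ^ a * 9 ^ b) • y ∉ U} := by
        ext y; simp
      change IsClosed {y : T | ∀ a ≤ M, ∀ b ≤ M, (4 ^ a * 9 ^ b) • y ∉ U}
      rw [h]
      refine isClosed_iInter fun a => isClosed_iInter fun _ => isClosed_iInter fun b =>
        isClosed_iInter fun _ => ?_
      exact hU.isClosed_compl.preimage (continuous_nsmul _)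
    · have h : {y : T | ∀ p ∈ Avoid U, ε ≤ ‖y - p‖} = ⋂ p ∈ Avoid U, {y | ε ≤ ‖y - p‖} := by
        ext y; simp
      change IsClosed {y : T | ∀ p ∈ Avoid U, ε ≤ ‖y - p‖}
      rw [h]
      refine isClosed_biInter fun p _ => ?_
      exact isClosed_le continuous_const (by fun_prop)
  have hne := IsCompact.nonempty_iInter_of_sequence_nonempty_isCompact_isClosed K
    (fun M y hy => ⟨fun a ha b hb => hy.1 a (by omega) b (by omega), hy.2⟩)
    (fun M => by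
      obtain ⟨y, hy1, hy2⟩ := hcon M
      exact ⟨y, hy1, hy2⟩)
    (hcl 0).isCompact hcl
  obtain ⟨y, hy⟩ := hne
  rw [Set.mem_iInter] at hy
  have hyA : y ∈ Avoid U := by
    intro a b
    exact (hy (max a b)).1 a (le_max_left _ _) b (le_max_right _ _)
  have := (hy 0).2 y hyA
  rw [sub_self, norm_zero] at this
  linarith

lemma torsion_of_finite {E : Set T} (hE : E.Finite) (h4 : ∀ x ∈ E, 4 • x ∈ E) {x : T}
    (hx : x ∈ E) : 0 < addOrderOf x := by
  rw [addOrderOf_pos_iff, isOfFinAddOrder_iff_nsmul_eq_zero]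
  by_contra hno
  push Not at hno
  apply hE.not_infinite
  refine Set.infinite_of_injective_forall_mem (f := fun n : ℕ => 4 ^ n • x) ?_
    (fun n => pow_smul_mem h4 n x hx)
  intro a b hab
  simp only at hab
  wlog hlt : a < b generalizing a b
  · rcases Nat.lt_trichotomy a b with h | h | h
    · exact this hab h
    · exact h
    · exact (this hab.symm h).symm
  exfalso
  have h1 : 4 ^ a < 4 ^ b := Nat.pow_lt_pow_right (by norm_num) hlt
  apply hno (4 ^ b - 4 ^ a) (by omega)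
  have h2 : (4 ^ b - 4 ^ a) • x + 4 ^ a • x = 4 ^ b • x := by
    rw [← add_nsmul]
    congr 1
    omega
  rw [hab] at h2
  simpa using h2

lemma avoid_torsion {U : Set T} (hU : IsOpen U) (hne : U.Nonempty) :
    ∃ Q : ℕ, 0 < Q ∧ ∀ p ∈ Avoid U, Q • p = 0 := by
  have hfin := avoid_finite hU hne
  refine ⟨∏ p ∈ hfin.toFinset, addOrderOf p, ?_, ?_⟩
  · apply Finset.prod_pos
    intro p hp
    rw [Set.Finite.mem_toFinset] at hp
    exact torsion_of_finite hfin avoid_inv4 hp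
  · intro p hp
    rw [← addOrderOf_dvd_iff_nsmul_eq_zero]
    exact Finset.dvd_prod_of_mem _ ((Set.Finite.mem_toFinset hfin).2 hp)

lemma gap {Q : ℕ} (hQ : 0 < Q) {z : T} (hz : Q • z = 0) (h : ‖z‖ ≤ 1 / (2 * Q)) : z = 0 := by
  have hQ' : (0 : ℝ) < Q := by exact_mod_cast hQ
  rw [le_div_iff₀ (by positivity)] at h
  have h1 := norm_nsmul_small (x := z) (k := Q) (by nlinarith)
  rw [hz, norm_zero] at h1
  have h2 : ‖z‖ = 0 := by
    rcases mul_eq_zero.1 h1.symm with h3 | h3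
    · exact absurd h3 hQ'.ne'
    · exact h3
  exact norm_eq_zero.1 h2

/-- The open arc `(c/L, (c+1)/L)`. -/
def arc (L c : ℕ) : Set T := (fun r : ℝ => (r : T)) '' Set.Ioo ((c : ℝ) / L) ((c + 1) / L)

lemma arc_open (L c : ℕ) : IsOpen (arc L c) :=
  QuotientAddGroup.isOpenMap_coe _ isOpen_Ioo

/-- The points whose short orbit visits all arcs. -/
def UU (L J : ℕ) : Set T := {y | ∀ c < L, ∃ a ≤ J, (4 ^ a * 9 ^ (J - a)) • y ∈ arc L c}

lemma UU_open (L J : ℕ) : IsOpen (UU L J) := by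
  have h : UU L J = ⋂ c ∈ Finset.range L, ⋃ a : ℕ, ⋃ (_ : a ≤ J),
      {y | (4 ^ a * 9 ^ (J - a)) • y ∈ arc L c} := by
    ext y; simp [UU]
  rw [h]
  refine isOpen_biInter_finset fun c _ => isOpen_iUnion fun a => isOpen_iUnion fun _ => ?_
  exact (arc_open L c).preimage (continuous_nsmul _)

lemma nested {L : ℕ} (hL : 0 < L) (s : ℕ → ℝ) (hs : ∀ i, 0 < s i)
    (hr : ∀ i, 4 * L * s i ≤ s (i + 1)) (k : ℕ) (hk : k < L) :
    ∃ u : ℝ, ∀ y, u ≤ y → y ≤ u + 1 / (2 * L * s k) → ∀ i ≤ k, ∃ m : ℤ,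
      m + (i : ℝ) / L < s i * y ∧ s i * y < m + (i + 1) / L := by
  have hL' : (0 : ℝ) < L := by exact_mod_cast hL
  -- the basic computation
  have basic : ∀ (k : ℕ) (m : ℤ) (y : ℝ), (m + ((k : ℝ) + 1 / 4) / L) / s k ≤ y →
      y ≤ (m + ((k : ℝ) + 1 / 4) / L) / s k + 1 / (2 * L * s k) →
      m + (k : ℝ) / L < s k * y ∧ s k * y < m + (k + 1) / L := by
    intro k m y h1 h2
    have hsk := hs k
    rw [div_le_iff₀ hsk] at h1
    have h3 : (m + ((k : ℝ) + 1 / 4) / L) / s k + 1 / (2 * L * s k)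
        = (m + ((k : ℝ) + 3 / 4) / L) / s k := by
      field_simp
      ring
    rw [h3, le_div_iff₀ hsk] at h2
    constructor
    · have h4 : (k : ℝ) / L < ((k : ℝ) + 1 / 4) / L := by
        apply div_lt_div_of_pos_right _ hL'
        linarith
      linarith [mul_comm y (s k)]
    · have h4 : ((k : ℝ) + 3 / 4) / L < ((k : ℝ) + 1) / L := by
        apply div_lt_div_of_pos_right _ hL'
        linarith
      linarith [mul_comm y (s k)]
  induction k with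
  | zero =>
    refine ⟨(((0 : ℤ) : ℝ) + (((0 : ℕ) : ℝ) + 1 / 4) / L) / s 0, fun y h1 h2 i hi => ?_⟩
    obtain rfl : i = 0 := by omega
    exact ⟨0, basic 0 0 y h1 h2⟩
  | succ k ih =>
    obtain ⟨u, hu⟩ := ih (by omega)
    set m : ℤ := ⌈s (k + 1) * u⌉ with hm
    have hm1 : s (k + 1) * u ≤ m := Int.le_ceil _
    have hm2 : (m : ℝ) < s (k + 1) * u + 1 := Int.ceil_lt_add_one _
    have hsk := hs k
    have hsk1 := hs (k + 1)
    refine ⟨(m + (((k + 1 : ℕ) : ℝ) + 1 / 4) / L) / s (k + 1), fun y h1 h2 i hi => ?_⟩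
    rcases Nat.lt_or_ge k i with h | h
    · obtain rfl : i = k + 1 := by omega
      exact ⟨m, basic (k + 1) m y h1 h2⟩
    · refine hu y ?_ ?_ i h
      · refine le_trans ?_ h1
        rw [le_div_iff₀ hsk1]
        have : 0 ≤ (((k + 1 : ℕ) : ℝ) + 1 / 4) / L := by positivity
        linarith [mul_comm u (s (k + 1))]
      · refine le_trans h2 ?_
        have h3 : (m + (((k + 1 : ℕ) : ℝ) + 1 / 4) / L) / s (k + 1) + 1 / (2 * L * s (k + 1))
            = (m + (((k + 1 : ℕ) : ℝ) + 3 / 4) / L) / s (k + 1) := by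
          field_simp
          ring
        rw [h3]
        have h4 : (((k + 1 : ℕ) : ℝ) + 3 / 4) / L ≤ 1 := by
          rw [div_le_one hL']
          have : ((k + 1 : ℕ) : ℝ) + 1 ≤ L := by exact_mod_cast hk
          linarith
        have h5 : (m + (((k + 1 : ℕ) : ℝ) + 3 / 4) / L) / s (k + 1)
            ≤ (s (k + 1) * u + 2) / s (k + 1) := by
          apply div_le_div_of_nonneg_right _ hsk1.le
          linarith
        refine le_trans h5 ?_
        have h6 : (s (k + 1) * u + 2) / s (k + 1) = u + 2 / s (k + 1) := by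
          field_simp
        rw [h6]
        have h7 : 2 / s (k + 1) ≤ 2 / (4 * L * s k) :=
          div_le_div_of_nonneg_left (by norm_num) (by positivity) (hr k)
        have h8 : 2 / (4 * L * s k) = 1 / (2 * L * s k) := by
          field_simp
          norm_num
        linarith

lemma UU_nonempty {L : ℕ} (hL : 0 < L) : ∃ J, (UU L J).Nonempty := by
  have hL' : (0 : ℝ) < L := by exact_mod_cast hL
  obtain ⟨D, hD⟩ := pow_unbounded_of_one_lt (4 * L : ℝ) (by norm_num : (1 : ℝ) < 9 / 4)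
  obtain ⟨u, hu⟩ := nested hL (fun i => (4 : ℝ) ^ (L * D) * ((9 / 4 : ℝ) ^ D) ^ i)
    (fun i => by positivity) (fun i => by
      rw [pow_succ]
      have : (0 : ℝ) < (4 : ℝ) ^ (L * D) * ((9 / 4 : ℝ) ^ D) ^ i := by positivity
      nlinarith) (L - 1) (by omega)
  have hu' := hu u le_rfl (by
    have : (0 : ℝ) ≤ 1 / (2 * L * ((4 : ℝ) ^ (L * D) * ((9 / 4 : ℝ) ^ D) ^ (L - 1))) := by
      positivity
    linarith)
  refine ⟨L * D, (u : T), fun c hc => ?_⟩
  obtain ⟨m, h1, h2⟩ := hu' c (by omega)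
  have hcD : c * D ≤ L * D := Nat.mul_le_mul_right _ hc.le
  refine ⟨L * D - c * D, by omega, ?_⟩
  have h3 : L * D - (L * D - c * D) = c * D := by omega
  rw [h3, nsmul_coe]
  have h4 : ((4 ^ (L * D - c * D) * 9 ^ (c * D) : ℕ) : ℝ)
      = (4 : ℝ) ^ (L * D) * ((9 / 4 : ℝ) ^ D) ^ c := by
    push_cast
    have h5 : (4 : ℝ) ^ (L * D) = 4 ^ (L * D - c * D) * 4 ^ (c * D) := by
      rw [← pow_add]
      congr 1
      omega
    rw [h5, ← pow_mul, div_pow, mul_comm D c]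
    field_simp
  rw [h4]
  refine ⟨(4 : ℝ) ^ (L * D) * ((9 / 4 : ℝ) ^ D) ^ c * u - m, ⟨by linarith, by linarith⟩, ?_⟩
  simp only
  rw [AddCircle.coe_sub, coe_int, sub_zero]


/-! ### The array of points of the circle attached to a real number -/

/-- `ξ (3/2)^n 6^(j-1)` modulo one. Its base-6 digits after the point are the digits of
`F^n` of the configuration of `ξ` from the position `j` on. -/
noncomputable def Y (ξ : ℝ) (n : ℕ) (j : ℤ) : T := ((ξ * (3 / 2) ^ n * (6 : ℝ) ^ (j - 1) : ℝ) : T)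

lemma Y_mul (ξ : ℝ) (n : ℕ) (j : ℤ) {a : ℕ} (ha : a ≤ n) (b : ℕ) :
    (4 ^ a * 9 ^ b) • Y ξ n j = Y ξ (n - a + b) (j + (a + b : ℕ)) := by
  obtain ⟨m, rfl⟩ := Nat.exists_eq_add_of_le ha
  unfold Y
  rw [nsmul_coe]
  congr 1
  have h1 : a + m - a + b = m + b := by omega
  have h2 : j + ((a + b : ℕ) : ℤ) - 1 = (j - 1) + ((a + b : ℕ) : ℤ) := by ring
  have h3 : (6 : ℝ) ^ (j - 1 + ((a + b : ℕ) : ℤ)) = 6 ^ (j - 1) * (6 ^ a * 6 ^ b) := by
    rw [zpow_add₀ (by norm_num : (6 : ℝ) ≠ 0), zpow_natCast, pow_add]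
  have h4 : (4 : ℝ) ^ a * (3 / 2) ^ a = 6 ^ a := by rw [← mul_pow]; norm_num
  have h5 : (3 / 2 : ℝ) ^ b * 6 ^ b = 9 ^ b := by rw [← mul_pow]; norm_num
  rw [h1, h2, h3, pow_add, pow_add, ← h4]
  push_cast
  rw [← h5]
  ring

lemma Y_next (ξ : ℝ) (n : ℕ) (j : ℤ) : 2 • Y ξ (n + 1) j = 3 • Y ξ n j := by
  unfold Y
  rw [nsmul_coe, nsmul_coe]
  congr 1
  push_cast
  ring

lemma shows_of_arc {ℓ W : ℕ} {w : Fin ℓ → Fin 6}
    (hW : ∀ i : Fin ℓ, W / 6 ^ (ℓ - 1 - (i : ℕ)) % 6 = (w i : ℕ)) (hWlt : W < 6 ^ ℓ) {ξ : ℝ}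
    (hξ : 0 < ξ) {n : ℕ} {j : ℤ} (h : Y ξ n j ∈ arc (6 ^ ℓ) W) :
    Shows (F^[n] (dig ξ)) j w := by
  rw [iter_F_dig]
  apply shows_of_floor hW
  obtain ⟨r, ⟨hr1, hr2⟩, hr⟩ := h
  have hr' : ((r : ℝ) : T) = ((ξ * (3 / 2) ^ n * (6 : ℝ) ^ (j - 1) : ℝ) : T) := hr
  have h0 : ((ξ * (3 / 2) ^ n * (6 : ℝ) ^ (j - 1) - r : ℝ) : T) = 0 := by
    rw [AddCircle.coe_sub, hr', sub_self]
  rw [AddCircle.coe_eq_zero_iff] at h0
  obtain ⟨m, hm⟩ := h0
  have hm' : ξ * (3 / 2) ^ n * (6 : ℝ) ^ (j - 1) = m + r := by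
    have : ((m : ℤ) : ℝ) = ξ * (3 / 2) ^ n * (6 : ℝ) ^ (j - 1) - r := by simpa using hm
    linarith
  have hL : (0 : ℝ) < ((6 ^ ℓ : ℕ) : ℝ) := by positivity
  rw [div_lt_iff₀ hL] at hr1
  rw [lt_div_iff₀ hL] at hr2
  have hpos : 0 < ξ * (3 / 2) ^ n * (6 : ℝ) ^ (j - 1) := by positivity
  have hr3 : r < 1 := by
    have h1 : (W : ℝ) + 1 ≤ ((6 ^ ℓ : ℕ) : ℝ) := by exact_mod_cast hWlt
    by_contra hcon
    push Not at hcon
    nlinarith
  have hm0 : 0 ≤ m := by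
    by_contra hcon
    push Not at hcon
    have h2 : (m : ℝ) ≤ -1 := by exact_mod_cast (by omega : m ≤ -1)
    linarith
  obtain ⟨M, rfl⟩ := Int.eq_ofNat_of_zero_le hm0
  have h6 : (6 : ℝ) ^ (j + ℓ - 1) * (ξ * (3 / 2) ^ n) = ((6 ^ ℓ * M : ℕ) : ℝ) + r * ((6 ^ ℓ : ℕ) : ℝ) := by
    have h7 : j + (ℓ : ℤ) - 1 = (j - 1) + (ℓ : ℤ) := by ring
    rw [h7, zpow_add₀ (by norm_num : (6 : ℝ) ≠ 0), zpow_natCast]
    have h8 : (6 : ℝ) ^ (j - 1) * 6 ^ ℓ * (ξ * (3 / 2) ^ n)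
        = (ξ * (3 / 2) ^ n * (6 : ℝ) ^ (j - 1)) * 6 ^ ℓ := by ring
    rw [h8, hm']
    push_cast
    ring
  have h9 : ⌊(6 : ℝ) ^ (j + ℓ - 1) * (ξ * (3 / 2) ^ n)⌋₊ = 6 ^ ℓ * M + W := by
    rw [h6, Nat.floor_eq_iff (by
      have : (0 : ℝ) ≤ W := Nat.cast_nonneg W
      have : (0 : ℝ) ≤ ((6 ^ ℓ * M : ℕ) : ℝ) := Nat.cast_nonneg _
      linarith)]
    constructor
    · push_cast at hr1 ⊢
      linarith
    · push_cast at hr2 ⊢
      linarith
  rw [h9, Nat.mul_add_mod, Nat.mod_eq_of_lt hWlt]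

lemma norm_div_two_pow {A m : ℕ} (h : ¬ 2 ^ m ∣ A) :
    1 / (2 : ℝ) ^ m ≤ ‖(((A : ℝ) / 2 ^ m : ℝ) : T)‖ := by
  rw [UnitAddCircle.norm_eq]
  set k := round ((A : ℝ) / 2 ^ m) with hk
  have h2 : (0 : ℝ) < 2 ^ m := by positivity
  have h1 : (A : ℝ) / 2 ^ m - k = ((A : ℤ) - k * 2 ^ m : ℤ) / 2 ^ m := by
    push_cast
    field_simp
  rw [h1, abs_div, abs_of_pos h2]
  apply div_le_div_of_nonneg_right _ h2.le
  have h3 : ((A : ℤ) - k * 2 ^ m : ℤ) ≠ 0 := by
    intro h4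
    apply h
    have h5 : (A : ℤ) = k * 2 ^ m := by linarith
    have h6 : ((2 ^ m : ℕ) : ℤ) ∣ (A : ℤ) := by
      rw [h5]
      push_cast
      exact Dvd.intro_left k rfl
    exact Int.natCast_dvd_natCast.1 h6
  have h7 : (1 : ℤ) ≤ |(A : ℤ) - k * 2 ^ m| := Int.one_le_abs h3
  calc (1 : ℝ) ≤ ((|(A : ℤ) - k * 2 ^ m| : ℤ) : ℝ) := by exact_mod_cast h7
    _ = _ := by rw [Int.cast_abs]

/-- The points of the array are not too close to the points of order dividing `Q`. -/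
lemma lower {N r Q : ℕ} (hN : 0 < N) (hQ : 0 < Q) {n : ℕ} {j : ℤ} {t m : ℕ}
    (ht : (t : ℤ) = n + j - 1 - r) (hm : (m : ℤ) = n + 1 + r - j) (hbig : Q * N < 2 ^ m) :
    1 / (2 : ℝ) ^ m ≤ ‖Q • Y ((N : ℝ) / 6 ^ r) n j‖ := by
  have h1 : Q • Y ((N : ℝ) / 6 ^ r) n j = ((((Q * N * 3 ^ t : ℕ) : ℝ) / 2 ^ m : ℝ) : T) := by
    unfold Y
    rw [nsmul_coe]
    congr 1
    have h6 : (6 : ℝ) ^ (j - 1) = 3 ^ (j - 1) * 2 ^ (j - 1) := by
      rw [← mul_zpow]; norm_num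
    have h6' : (6 : ℝ) ^ r = 3 ^ (r : ℤ) * 2 ^ (r : ℤ) := by
      rw [zpow_natCast, zpow_natCast, ← mul_pow]; norm_num
    have h32 : (3 / 2 : ℝ) ^ n = 3 ^ (n : ℤ) / 2 ^ (n : ℤ) := by
      rw [zpow_natCast, zpow_natCast, div_pow]
    have ht' : (3 : ℝ) ^ t = 3 ^ (n : ℤ) * 3 ^ (j - 1) / 3 ^ (r : ℤ) := by
      rw [← zpow_natCast (3 : ℝ) t, ht, ← zpow_add₀ (by norm_num : (3 : ℝ) ≠ 0),
        ← zpow_sub₀ (by norm_num : (3 : ℝ) ≠ 0)]
      congr 1
      ring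
    have hm' : (2 : ℝ) ^ m = 2 ^ (n : ℤ) * 2 ^ (r : ℤ) / 2 ^ (j - 1) := by
      rw [← zpow_natCast (2 : ℝ) m, hm, ← zpow_add₀ (by norm_num : (2 : ℝ) ≠ 0),
        ← zpow_sub₀ (by norm_num : (2 : ℝ) ≠ 0)]
      congr 1
      ring
    push_cast
    rw [ht', hm', h6, h6', h32]
    have a1 : (3 : ℝ) ^ (r : ℤ) ≠ 0 := by positivity
    have a2 : (2 : ℝ) ^ (r : ℤ) ≠ 0 := by positivity
    have a3 : (2 : ℝ) ^ (n : ℤ) ≠ 0 := by positivity
    have a4 : (2 : ℝ) ^ (j - 1) ≠ 0 := by positivity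
    field_simp
  rw [h1]
  apply norm_div_two_pow
  intro hdvd
  have hc : Nat.Coprime (2 ^ m) (3 ^ t) := Nat.Coprime.pow _ _ (by norm_num)
  have h2 : 2 ^ m ∣ Q * N := hc.dvd_of_dvd_mul_right hdvd
  have h3 := Nat.le_of_dvd (Nat.mul_pos hQ hN) h2
  omega

/-- If the array stays close to a finite set of torsion points along a long time interval at one
position, the interval is bounded. -/
lemma expand {ξ : ℝ} {j : ℤ} {E : Set T} {Q : ℕ} (hQ : 0 < Q) (hE : ∀ p ∈ E, Q • p = 0)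
    {n1 d : ℕ} (h : ∀ n, n1 ≤ n → n ≤ n1 + d → ∃ p ∈ E, ‖Y ξ n j - p‖ < 1 / (10 * Q)) :
    (3 / 2 : ℝ) ^ d * ‖Q • Y ξ n1 j‖ ≤ 1 := by
  have hQ' : (1 : ℝ) ≤ Q := by exact_mod_cast hQ
  have hQ0 : (0 : ℝ) < Q := by linarith
  have hε : 1 / (10 * (Q : ℝ)) ≤ 1 / 10 := by
    apply div_le_div_of_nonneg_left (by norm_num) (by norm_num)
    linarith
  choose! p hpE hp using h
  have key : ∀ k, k ≤ d → ‖Y ξ (n1 + k) j - p (n1 + k)‖ = (3 / 2 : ℝ) ^ k * ‖Y ξ n1 j - p n1‖ := by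
    intro k
    induction k with
    | zero => intro _; simp
    | succ k ih =>
      intro hk
      have ih' := ih (by omega)
      set n := n1 + k with hn
      have e1 := hp n (by omega) (by omega)
      have e2 := hp (n + 1) (by omega) (by omega)
      have t1 := hE _ (hpE n (by omega) (by omega))
      have t2 := hE _ (hpE (n + 1) (by omega) (by omega))
      have hrel : 2 • p (n + 1) - 3 • p n = 3 • (Y ξ n j - p n) - 2 • (Y ξ (n + 1) j - p (n + 1)) := by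
        rw [nsmul_sub, nsmul_sub, Y_next]
        abel
      have hz : 2 • p (n + 1) - 3 • p n = 0 := by
        apply gap hQ
        · rw [nsmul_sub, ← mul_nsmul', ← mul_nsmul', mul_comm Q 2, mul_comm Q 3, mul_nsmul',
            mul_nsmul', t1, t2]
          simp
        · rw [hrel]
          refine le_trans (norm_sub_le _ _) ?_
          have b1 : ‖3 • (Y ξ n j - p n)‖ ≤ 3 * ‖Y ξ n j - p n‖ := by
            simpa using norm_nsmul_le (n := 3) (a := Y ξ n j - p n)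
          have b2 : ‖2 • (Y ξ (n + 1) j - p (n + 1))‖ ≤ 2 * ‖Y ξ (n + 1) j - p (n + 1)‖ := by
            simpa using norm_nsmul_le (n := 2) (a := Y ξ (n + 1) j - p (n + 1))
          have b3 : 1 / (2 * (Q : ℝ)) = 5 * (1 / (10 * Q)) := by
            field_simp
            norm_num
          rw [b3]
          linarith
      rw [hz] at hrel
      have h23 : 2 • (Y ξ (n + 1) j - p (n + 1)) = 3 • (Y ξ n j - p n) :=
        (sub_eq_zero.1 hrel.symm).symm
      have c1 : ‖3 • (Y ξ n j - p n)‖ = 3 * ‖Y ξ n j - p n‖ := by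
        have := norm_nsmul_small (x := Y ξ n j - p n) (k := 3) (by push_cast; linarith)
        simpa using this
      have c2 : ‖2 • (Y ξ (n + 1) j - p (n + 1))‖ = 2 * ‖Y ξ (n + 1) j - p (n + 1)‖ := by
        have := norm_nsmul_small (x := Y ξ (n + 1) j - p (n + 1)) (k := 2)
          (by push_cast; linarith)
        simpa using this
      rw [h23, c1] at c2
      change ‖Y ξ (n + 1) j - p (n + 1)‖ = _
      rw [pow_succ]
      linarith
  have h1 := key d le_rfl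
  have h2 := hp (n1 + d) (by omega) le_rfl
  have h3 : Q • Y ξ n1 j = Q • (Y ξ n1 j - p n1) := by
    rw [nsmul_sub, hE _ (hpE n1 le_rfl (by omega)), sub_zero]
  have h4 : ‖Q • (Y ξ n1 j - p n1)‖ ≤ Q * ‖Y ξ n1 j - p n1‖ := norm_nsmul_le
  rw [h3]
  calc (3 / 2 : ℝ) ^ d * ‖Q • (Y ξ n1 j - p n1)‖ ≤ (3 / 2 : ℝ) ^ d * (Q * ‖Y ξ n1 j - p n1‖) := by
        apply mul_le_mul_of_nonneg_left h4 (by positivity)
    _ = Q * ‖Y ξ (n1 + d) j - p (n1 + d)‖ := by rw [h1]; ring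
    _ ≤ Q * (1 / (10 * Q)) := mul_le_mul_of_nonneg_left h2.le hQ0.le
    _ ≤ 1 := by
      have : (Q : ℝ) * (1 / (10 * Q)) = 1 / 10 := by field_simp
      rw [this]
      norm_num

/-- The main statement for one block of positions. -/
lemma block (ℓ : ℕ) : ∃ G : ℕ, ∀ x : Config, IsFin x → x ≠ 0 →
    ∃ N₀ : ℕ, ∀ N : ℕ, ∀ j₀ : ℤ, N₀ + 6 * |j₀| ≤ N → ∃ j : ℤ, j₀ ≤ j ∧ j < j₀ + G ∧
      ∀ w : Fin ℓ → Fin 6, ∃ n : ℕ, N ≤ n ∧ n ≤ 3 * N ∧ Shows (F^[n] x) j w := by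
  obtain ⟨J, hJ⟩ := UU_nonempty (L := 6 ^ ℓ) (by positivity)
  have hUo : IsOpen (UU (6 ^ ℓ) J) := UU_open _ _
  obtain ⟨Q, hQ, hQE⟩ := avoid_torsion hUo hJ
  obtain ⟨M, hM⟩ := avoid_compact hUo (ε := 1 / (10 * (Q : ℝ))) (by positivity)
  refine ⟨2 * M + J + 1, fun x hx hne => ?_⟩
  obtain ⟨A, r, rfl⟩ := fin_eq_dig hx
  have hA : 0 < A := by
    rcases Nat.eq_zero_or_pos A with h | h
    · exfalso
      apply hne
      subst h
      funext i
      apply Fin.ext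
      unfold dig
      simp
    · exact h
  have hξ : (0 : ℝ) < (A : ℝ) / 6 ^ r := by positivity
  set C : ℝ := (9 / 4 : ℝ) ^ (J + M) * 2 ^ (J + M + 1 + r) with hC
  obtain ⟨N1, hN1⟩ := pow_unbounded_of_one_lt C (by norm_num : (1 : ℝ) < 9 / 8)
  refine ⟨N1 + Q * A + J + M + r + 1, fun N j₀ hN' => ?_⟩
  set s : ℕ := j₀.natAbs with hs
  have hN : N1 + Q * A + J + M + r + 1 + 6 * s ≤ N := by
    have : |j₀| = (s : ℤ) := by rw [hs]; exact Int.abs_eq_natAbs j₀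
    rw [this] at hN'
    exact_mod_cast hN'
  by_contra hcon
  push Not at hcon
  -- the bad words
  have hbad : ∀ j : ℤ, j₀ ≤ j → j < j₀ + (2 * M + J + 1 : ℕ) → ∃ c < 6 ^ ℓ, ∀ n : ℕ, N ≤ n →
      n ≤ 3 * N → Y ((A : ℝ) / 6 ^ r) n j ∉ arc (6 ^ ℓ) c := by
    intro j h1 h2
    obtain ⟨w, hw⟩ := hcon j h1 h2
    obtain ⟨W, hWlt, hW⟩ := exists_code w
    refine ⟨W, hWlt, fun n hn1 hn2 hmem => ?_⟩
    exact hw n hn1 hn2 (shows_of_arc hW hWlt hξ hmem)
  have hU : ∀ (n : ℕ) (j : ℤ), N + J ≤ n → n + J ≤ 3 * N → j₀ ≤ j → j ≤ j₀ + (2 * M : ℕ) →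
      Y ((A : ℝ) / 6 ^ r) n j ∉ UU (6 ^ ℓ) J := by
    intro n j hn1 hn2 hj1 hj2 hmem
    obtain ⟨c, hc, hcc⟩ := hbad (j + J) (by omega) (by push_cast at hj2 ⊢; omega)
    obtain ⟨a, ha, hY⟩ := hmem c hc
    rw [Y_mul _ _ _ (by omega)] at hY
    have h1 : ((a + (J - a) : ℕ) : ℤ) = J := by
      have : a + (J - a) = J := by omega
      rw [this]
    rw [h1] at hY
    exact hcc _ (by omega) (by omega) hY
  have hclose : ∀ n : ℕ, N + J + M ≤ n → n ≤ (N + J + M) + (2 * N - 2 * (J + M)) →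
      ∃ p ∈ Avoid (UU (6 ^ ℓ) J), ‖Y ((A : ℝ) / 6 ^ r) n j₀ - p‖ < 1 / (10 * (Q : ℝ)) := by
    intro n hn1 hn2
    apply hM
    intro a ha b hb
    rw [Y_mul _ _ _ (by omega)]
    apply hU
    · omega
    · omega
    · omega
    · push_cast
      omega
  have h1 := expand hQ hQE hclose
  -- lower bound
  obtain ⟨t, ht⟩ : ∃ t : ℕ, (t : ℤ) = ((N + J + M : ℕ) : ℤ) + j₀ - 1 - r :=
    ⟨(((N + J + M : ℕ) : ℤ) + j₀ - 1 - r).toNat, by omega⟩
  obtain ⟨m, hm⟩ : ∃ m : ℕ, (m : ℤ) = ((N + J + M : ℕ) : ℤ) + 1 + r - j₀ :=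
    ⟨(((N + J + M : ℕ) : ℤ) + 1 + r - j₀).toNat, by omega⟩
  have hmle : m ≤ N + (J + M + 1 + r) + s := by omega
  have hmge : Q * A ≤ m := by omega
  have h2 := lower (Q := Q) hA hQ ht hm (lt_of_le_of_lt hmge Nat.lt_two_pow_self)
  have h3 : (3 / 2 : ℝ) ^ (2 * N - 2 * (J + M)) * (1 / 2 ^ m) ≤ 1 :=
    le_trans (mul_le_mul_of_nonneg_left h2 (by positivity)) h1
  rw [mul_one_div, div_le_one (by positivity)] at h3
  have h4 : (2 : ℝ) ^ m ≤ 2 ^ N * 2 ^ (J + M + 1 + r) * 2 ^ s := by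
    rw [← pow_add, ← pow_add]
    exact pow_le_pow_right₀ (by norm_num) hmle
  have h5 : (3 / 2 : ℝ) ^ (2 * N - 2 * (J + M)) * (9 / 4) ^ (J + M) = (9 / 4) ^ N := by
    have h6 : (9 / 4 : ℝ) = (3 / 2) ^ 2 := by norm_num
    rw [h6, ← pow_mul, ← pow_mul, ← pow_add]
    congr 1
    omega
  have h7 : (9 / 4 : ℝ) ^ N ≤ 2 ^ N * (C * 2 ^ s) := by
    rw [← h5, hC]
    calc (3 / 2 : ℝ) ^ (2 * N - 2 * (J + M)) * (9 / 4) ^ (J + M)
        ≤ (2 ^ N * 2 ^ (J + M + 1 + r) * 2 ^ s) * (9 / 4) ^ (J + M) := by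
          apply mul_le_mul_of_nonneg_right (le_trans h3 h4) (by positivity)
      _ = _ := by ring
  have h8 : (9 / 4 : ℝ) ^ N = 2 ^ N * (9 / 8) ^ N := by
    rw [← mul_pow]; norm_num
  rw [h8] at h7
  have h9 : (9 / 8 : ℝ) ^ N ≤ C * 2 ^ s := le_of_mul_le_mul_left h7 (by positivity)
  have h10 : (9 / 8 : ℝ) ^ (N1 + 6 * s) ≤ (9 / 8) ^ N :=
    pow_le_pow_right₀ (by norm_num) (by omega)
  have h11 : (2 : ℝ) ^ s ≤ (9 / 8) ^ (6 * s) := by
    rw [pow_mul]
    exact pow_le_pow_left₀ (by norm_num) (by norm_num) s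
  have h12 : C * 2 ^ s < (9 / 8 : ℝ) ^ (N1 + 6 * s) := by
    rw [pow_add]
    exact mul_lt_mul hN1 h11 (by positivity) (by positivity)
  linarith

/-- For every `ℓ` there is `G` such that for every finite configuration `x` other than the all-zero
one: (1) every block `j₀ ≤ j < j₀ + G` of `G` consecutive positions contains a position `j` at
which every word of length `ℓ` is shown by `F^n(x)` for infinitely many `n`; (2) there is `N₀`
such that for all `N` and `j₀` with `N₀ + 6 |j₀| ≤ N` the block contains a position at which every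
word of length `ℓ` is shown by `F^n(x)` for some `n` with `N ≤ n ≤ 3 N`. -/
theorem result (ℓ : ℕ) : ∃ G : ℕ, ∀ x : Config, IsFin x → x ≠ 0 →
    (∀ j₀ : ℤ, ∃ j : ℤ, j₀ ≤ j ∧ j < j₀ + G ∧
      ∀ w : Fin ℓ → Fin 6, {n : ℕ | Shows (F^[n] x) j w}.Infinite) ∧
    (∃ N₀ : ℕ, ∀ N : ℕ, ∀ j₀ : ℤ, N₀ + 6 * |j₀| ≤ N → ∃ j : ℤ, j₀ ≤ j ∧ j < j₀ + G ∧
      ∀ w : Fin ℓ → Fin 6, ∃ n : ℕ, N ≤ n ∧ n ≤ 3 * N ∧ Shows (F^[n] x) j w) := by
  obtain ⟨G, hG⟩ := block ℓ
  refine ⟨G, fun x hx hne => ⟨fun j₀ => ?_, hG x hx hne⟩⟩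
  obtain ⟨N₀', h'⟩ := hG x hx hne
  obtain ⟨N₀, h⟩ : ∃ N₀ : ℕ, ∀ N ≥ N₀, ∃ j : ℤ, j₀ ≤ j ∧ j < j₀ + G ∧
      ∀ w : Fin ℓ → Fin 6, ∃ n : ℕ, N ≤ n ∧ n ≤ 3 * N ∧ Shows (F^[n] x) j w := by
    refine ⟨N₀' + 6 * j₀.natAbs, fun N hN => h' N j₀ ?_⟩
    rw [Int.abs_eq_natAbs]
    exact_mod_cast hN
  choose! j hj1 hj2 hj using h
  -- pigeonhole on the positions
  have hpig : ∃ i : Fin G, {k : ℕ | j (N₀ + k) = j₀ + (i : ℕ)}.Infinite := by
    by_contra hno
    push Not at hno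
    have hcover : (Set.univ : Set ℕ) ⊆ ⋃ i : Fin G, {k : ℕ | j (N₀ + k) = j₀ + (i : ℕ)} := by
      intro k _
      have h1 := hj1 (N₀ + k) (by omega)
      have h2 := hj2 (N₀ + k) (by omega)
      rw [Set.mem_iUnion]
      refine ⟨⟨(j (N₀ + k) - j₀).toNat, by omega⟩, ?_⟩
      change j (N₀ + k) = j₀ + ((j (N₀ + k) - j₀).toNat : ℤ)
      omega
    have hfin : (⋃ i : Fin G, {k : ℕ | j (N₀ + k) = j₀ + (i : ℕ)}).Finite :=
      Set.finite_iUnion fun i => Set.not_infinite.1 (fun hc => absurd hc (by simpa using hno i))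
    exact Set.infinite_univ (hfin.subset hcover)
  obtain ⟨i, hi⟩ := hpig
  refine ⟨j₀ + (i : ℕ), by omega, by have := i.isLt; omega, fun w => ?_⟩
  rw [Set.infinite_iff_exists_gt]
  intro B
  obtain ⟨k, hk, hkB⟩ := hi.exists_gt B
  obtain ⟨n, hn1, hn2, hn⟩ := hj (N₀ + k) (by omega) w
  rw [hk] at hn
  exact ⟨n, hn, by omega⟩

end Pool.Agent.Results.MP_cc0c1a_nt.SyndeticPositions
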